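import Pool.Agent.Gabow87.Blocks

/-!
# The blocks at `0, 1, 2, r - 2, r - 1` for rank at least six
-/

set_option autoImplicit false

namespace Pool.Agent.Gabow87

/-- From two pairs, disjoint in both coordinates, to orderings. -/
theorem orderings_of_pairs {α : Type*} {r : ℕ} (hr : 4 ≤ r) {M : Matroid α} {b b' : Fin r → α}
    (h0 : Good (BP M (Sum.elim b b')) (B₀ r) (B₁ r) ∅ ∅)
    {x₁ x₂ x₃ x₄ y₁ y₂ y₃ y₄ : Fin r}
    (hx : Function.Injective ![x₁, x₂, x₄, x₃]) (hy : Function.Injective ![y₁, y₂, y₄, y₃])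
    (h1 : Good (BP M (Sum.elim b b')) (B₀ r) (B₁ r) {Sum.inl x₁} {Sum.inr y₁})
    (h2 : Good (BP M (Sum.elim b b')) (B₀ r) (B₁ r) {Sum.inl x₁, Sum.inl x₂}
      {Sum.inr y₁, Sum.inr y₂})
    (h3 : Good (BP M (Sum.elim b b')) (B₀ r) (B₁ r) {Sum.inl x₃} {Sum.inr y₃})
    (h4 : Good (BP M (Sum.elim b b')) (B₀ r) (B₁ r) {Sum.inl x₃, Sum.inl x₄}
      {Sum.inr y₃, Sum.inr y₄}) :
    ∃ σ σ' : Equiv.Perm (Fin r), ∀ i : Fin (r + r),
      (i.val % r = 0 ∨ i.val % r = 1 ∨ i.val % r = 2 ∨ i.val % r = r - 2 ∨ i.val % r = r - 1) →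
      M.IsBase (block (b ∘ σ) (b' ∘ σ') i) := by
  have hpos : Function.Injective ![(⟨0, by omega⟩ : Fin r), ⟨1, by omega⟩, ⟨r - 2, by omega⟩,
      ⟨r - 1, by omega⟩] := by
    intro a c h
    fin_cases a <;> fin_cases c <;> simp [Fin.ext_iff] at h ⊢ <;> omega
  obtain ⟨σ, hσ⟩ := Equiv.Perm.exists_extending_pair _ _ hpos hx
  obtain ⟨σ', hσ'⟩ := Equiv.Perm.exists_extending_pair _ _ hpos hy
  have s0 := hσ 0
  have s1 := hσ 1
  have s2 := hσ 2
  have s3 := hσ 3
  have t0 := hσ' 0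
  have t1 := hσ' 1
  have t2 := hσ' 2
  have t3 := hσ' 3
  simp only [Matrix.cons_val] at s0 s1 s2 s3 t0 t1 t2 t3
  refine ⟨σ, σ', ?_⟩
  have G0 : Good (BP M (Sum.elim b b')) (B₀ r) (B₁ r) (firstL σ 0) (firstR σ' 0) := by
    have e1 : firstL σ 0 = ∅ := by ext t; simp [mem_firstL]
    have e2 : firstR σ' 0 = ∅ := by ext t; simp [mem_firstR]
    rw [e1, e2]; exact h0
  have G1 : Good (BP M (Sum.elim b b')) (B₀ r) (B₁ r) (firstL σ 1) (firstR σ' 1) := by
    have e1 : firstL σ 1 = {Sum.inl x₁} := by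
      ext t
      rw [mem_firstL, Finset.mem_singleton, ← s0]
      constructor
      · rintro ⟨j, hj, rfl⟩
        congr 2
        exact Fin.ext (by simpa using hj)
      · rintro rfl
        exact ⟨_, by simp, rfl⟩
    have e2 : firstR σ' 1 = {Sum.inr y₁} := by
      ext t
      rw [mem_firstR, Finset.mem_singleton, ← t0]
      constructor
      · rintro ⟨j, hj, rfl⟩
        congr 2
        exact Fin.ext (by simpa using hj)
      · rintro rfl
        exact ⟨_, by simp, rfl⟩
    rw [e1, e2]; exact h1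
  have G2 : Good (BP M (Sum.elim b b')) (B₀ r) (B₁ r) (firstL σ 2) (firstR σ' 2) := by
    have e1 : firstL σ 2 = {Sum.inl x₁, Sum.inl x₂} := by
      ext t
      rw [mem_firstL, Finset.mem_insert, Finset.mem_singleton, ← s0, ← s1]
      constructor
      · rintro ⟨j, hj, rfl⟩
        rcases Nat.lt_or_ge j.val 1 with h | h
        · left; congr 2; exact Fin.ext (by simpa using h)
        · right; congr 2; exact Fin.ext (show j.val = 1 by omega)
      · rintro (rfl | rfl)
        · exact ⟨_, by simp, rfl⟩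
        · exact ⟨_, by simp, rfl⟩
    have e2 : firstR σ' 2 = {Sum.inr y₁, Sum.inr y₂} := by
      ext t
      rw [mem_firstR, Finset.mem_insert, Finset.mem_singleton, ← t0, ← t1]
      constructor
      · rintro ⟨j, hj, rfl⟩
        rcases Nat.lt_or_ge j.val 1 with h | h
        · left; congr 2; exact Fin.ext (by simpa using h)
        · right; congr 2; exact Fin.ext (show j.val = 1 by omega)
      · rintro (rfl | rfl)
        · exact ⟨_, by simp, rfl⟩
        · exact ⟨_, by simp, rfl⟩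
    rw [e1, e2]; exact h2
  have G3 : Good (BP M (Sum.elim b b')) (B₀ r) (B₁ r) (firstL σ (r - 1))
      (firstR σ' (r - 1)) := by
    have e1 : firstL σ (r - 1) = B₀ r \ {Sum.inl x₃} := by
      ext t
      rw [mem_firstL, Finset.mem_sdiff, Finset.mem_singleton, mem_B₀, ← s3]
      constructor
      · rintro ⟨j, hj, rfl⟩
        refine ⟨⟨_, rfl⟩, fun h => ?_⟩
        have := σ.injective (Sum.inl_injective h)
        subst this
        simp at hj
      · rintro ⟨⟨j, rfl⟩, hj⟩
        refine ⟨σ.symm j, ?_, by simp⟩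
        by_contra hlt
        apply hj
        congr 1
        rw [← Equiv.symm_apply_eq]
        exact Fin.ext (show (σ.symm j).val = r - 1 by have := (σ.symm j).isLt; omega)
    have e2 : firstR σ' (r - 1) = B₁ r \ {Sum.inr y₃} := by
      ext t
      rw [mem_firstR, Finset.mem_sdiff, Finset.mem_singleton, mem_B₁, ← t3]
      constructor
      · rintro ⟨j, hj, rfl⟩
        refine ⟨⟨_, rfl⟩, fun h => ?_⟩
        have := σ'.injective (Sum.inr_injective h)
        subst this
        simp at hj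
      · rintro ⟨⟨j, rfl⟩, hj⟩
        refine ⟨σ'.symm j, ?_, by simp⟩
        by_contra hlt
        apply hj
        congr 1
        rw [← Equiv.symm_apply_eq]
        exact Fin.ext (show (σ'.symm j).val = r - 1 by have := (σ'.symm j).isLt; omega)
    rw [e1, e2]
    refine ⟨?_, ?_⟩
    · convert h3.2 using 1
      ext t
      simp only [Finset.mem_union, Finset.mem_sdiff, Finset.mem_singleton, mem_B₀, mem_B₁]
      grind
    · convert h3.1 using 1
      ext t
      simp only [Finset.mem_union, Finset.mem_sdiff, Finset.mem_singleton, mem_B₀, mem_B₁]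
      grind
  have G4 : Good (BP M (Sum.elim b b')) (B₀ r) (B₁ r) (firstL σ (r - 2))
      (firstR σ' (r - 2)) := by
    have e1 : firstL σ (r - 2) = B₀ r \ {Sum.inl x₃, Sum.inl x₄} := by
      ext t
      rw [mem_firstL, Finset.mem_sdiff, Finset.mem_insert, Finset.mem_singleton, mem_B₀,
        ← s3, ← s2]
      constructor
      · rintro ⟨j, hj, rfl⟩
        refine ⟨⟨_, rfl⟩, fun h => ?_⟩
        rcases h with h | h
        all_goals
          have := σ.injective (Sum.inl_injective h)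
          subst this
          simp at hj
        omega
      · rintro ⟨⟨j, rfl⟩, hj⟩
        refine ⟨σ.symm j, ?_, by simp⟩
        by_contra hlt
        apply hj
        have h5 := (σ.symm j).isLt
        by_cases h6 : (σ.symm j).val = r - 1
        · left
          congr 1
          rw [← Equiv.symm_apply_eq]
          exact Fin.ext h6
        · right
          congr 1
          rw [← Equiv.symm_apply_eq]
          exact Fin.ext (show (σ.symm j).val = r - 2 by omega)
    have e2 : firstR σ' (r - 2) = B₁ r \ {Sum.inr y₃, Sum.inr y₄} := by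
      ext t
      rw [mem_firstR, Finset.mem_sdiff, Finset.mem_insert, Finset.mem_singleton, mem_B₁,
        ← t3, ← t2]
      constructor
      · rintro ⟨j, hj, rfl⟩
        refine ⟨⟨_, rfl⟩, fun h => ?_⟩
        rcases h with h | h
        all_goals
          have := σ'.injective (Sum.inr_injective h)
          subst this
          simp at hj
        omega
      · rintro ⟨⟨j, rfl⟩, hj⟩
        refine ⟨σ'.symm j, ?_, by simp⟩
        by_contra hlt
        apply hj
        have h5 := (σ'.symm j).isLt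
        by_cases h6 : (σ'.symm j).val = r - 1
        · left
          congr 1
          rw [← Equiv.symm_apply_eq]
          exact Fin.ext h6
        · right
          congr 1
          rw [← Equiv.symm_apply_eq]
          exact Fin.ext (show (σ'.symm j).val = r - 2 by omega)
    rw [e1, e2]
    refine ⟨?_, ?_⟩
    · convert h4.2 using 1
      ext t
      simp only [Finset.mem_union, Finset.mem_sdiff, Finset.mem_insert, Finset.mem_singleton,
        mem_B₀, mem_B₁]
      grind
    · convert h4.1 using 1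
      ext t
      simp only [Finset.mem_union, Finset.mem_sdiff, Finset.mem_insert, Finset.mem_singleton,
        mem_B₀, mem_B₁]
      grind
  intro i hi
  have hi' := i.isLt
  have key : ∀ k, k < r → i.val % r = k → (i.val = k ∧ k < r ∨ i.val = r + k) := by
    intro k hk h
    rcases Nat.lt_or_ge i.val r with h' | h'
    · left; rw [Nat.mod_eq_of_lt h'] at h; exact ⟨h, hk⟩
    · right
      rw [Nat.mod_eq_sub_mod h', Nat.mod_eq_of_lt (by omega)] at h
      omega
  rcases hi with h | h | h | h | h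
  · exact isBase_block σ σ' G0 i (key _ (by omega) h)
  · exact isBase_block σ σ' G1 i (key _ (by omega) h)
  · exact isBase_block σ σ' G2 i (key _ (by omega) h)
  · exact isBase_block σ σ' G4 i (key _ (by omega) h)
  · exact isBase_block σ σ' G3 i (key _ (by omega) h)

/-- the relation used in the counting argument -/
def TT {α : Type*} {r : ℕ} (M : Matroid α) (f : Idx r → α) (X Y : Finset (Idx r)) : Prop :=
  Good (BP M f) (B₀ r) (B₁ r) X Y ∧ ∃ x ∈ X, ∃ y ∈ Y, Good (BP M f) (B₀ r) (B₁ r) {x} {y}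

theorem card_B₀ (r : ℕ) : (B₀ r).card = r := by simp [B₀]
theorem card_B₁ (r : ℕ) : (B₁ r).card = r := by simp [B₁]
theorem disj_B (r : ℕ) : Disjoint (B₀ r) (B₁ r) := by
  rw [Finset.disjoint_left]
  intro t h h'
  rw [mem_B₀] at h
  rw [mem_B₁] at h'
  obtain ⟨a, rfl⟩ := h
  obtain ⟨c, hc⟩ := h'
  cases hc

theorem base_B₀ {α : Type*} {r : ℕ} {M : Matroid α} {b b' : Fin r → α}
    (hb : Function.Injective b) (hB : M.IsBase (Set.range b)) :
    BP M (Sum.elim b b') (B₀ r) := by
  refine ⟨?_, ?_⟩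
  · intro u hu v hv h
    obtain ⟨u, rfl⟩ := (mem_B₀ _).mp hu
    obtain ⟨v, rfl⟩ := (mem_B₀ _).mp hv
    exact congrArg _ (hb h)
  · convert hB using 1
    ext x
    simp only [Set.mem_image, Finset.mem_coe, mem_B₀, Set.mem_range]
    constructor
    · rintro ⟨_, ⟨j, rfl⟩, rfl⟩; exact ⟨j, rfl⟩
    · rintro ⟨j, rfl⟩; exact ⟨_, ⟨j, rfl⟩, rfl⟩

theorem base_B₁ {α : Type*} {r : ℕ} {M : Matroid α} {b b' : Fin r → α}
    (hb' : Function.Injective b') (hB' : M.IsBase (Set.range b')) :
    BP M (Sum.elim b b') (B₁ r) := by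
  refine ⟨?_, ?_⟩
  · intro u hu v hv h
    obtain ⟨u, rfl⟩ := (mem_B₁ _).mp hu
    obtain ⟨v, rfl⟩ := (mem_B₁ _).mp hv
    exact congrArg _ (hb' h)
  · convert hB' using 1
    ext x
    simp only [Set.mem_image, Finset.mem_coe, mem_B₁, Set.mem_range]
    constructor
    · rintro ⟨_, ⟨j, rfl⟩, rfl⟩; exact ⟨j, rfl⟩
    · rintro ⟨j, rfl⟩; exact ⟨_, ⟨j, rfl⟩, rfl⟩

/-- unpacking a member of `TT` -/
theorem TT_unpack {α : Type*} {r : ℕ} {M : Matroid α} {f : Idx r → α} {X Y : Finset (Idx r)}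
    (hX : X ⊆ B₀ r) (hY : Y ⊆ B₁ r) (cX : X.card = 2) (cY : Y.card = 2) (h : TT M f X Y) :
    ∃ x₁ x₂ y₁ y₂ : Fin r, x₁ ≠ x₂ ∧ y₁ ≠ y₂ ∧ X = {Sum.inl x₁, Sum.inl x₂} ∧
      Y = {Sum.inr y₁, Sum.inr y₂} ∧ Good (BP M f) (B₀ r) (B₁ r) {Sum.inl x₁} {Sum.inr y₁} := by
  obtain ⟨-, x, hx, y, hy, hg⟩ := h
  obtain ⟨a, c, hac, rfl⟩ := Finset.card_eq_two.mp cX
  obtain ⟨d, e, hde, rfl⟩ := Finset.card_eq_two.mp cY
  obtain ⟨a, rfl⟩ := (mem_B₀ _).mp (hX (Finset.mem_insert_self _ _))
  obtain ⟨c, rfl⟩ := (mem_B₀ _).mp (hX (Finset.mem_insert_of_mem (Finset.mem_singleton_self _)))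
  obtain ⟨d, rfl⟩ := (mem_B₁ _).mp (hY (Finset.mem_insert_self _ _))
  obtain ⟨e, rfl⟩ := (mem_B₁ _).mp (hY (Finset.mem_insert_of_mem (Finset.mem_singleton_self _)))
  have hac' : a ≠ c := fun h => hac (by rw [h])
  have hde' : d ≠ e := fun h => hde (by rw [h])
  rw [Finset.mem_insert, Finset.mem_singleton] at hx hy
  rcases hx with rfl | rfl <;> rcases hy with rfl | rfl
  · exact ⟨a, c, d, e, hac', hde', rfl, rfl, hg⟩
  · exact ⟨a, c, e, d, hac', hde'.symm, rfl, Finset.pair_comm _ _, hg⟩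
  · exact ⟨c, a, d, e, hac'.symm, hde', Finset.pair_comm _ _, rfl, hg⟩
  · exact ⟨c, a, e, d, hac'.symm, hde'.symm, Finset.pair_comm _ _, Finset.pair_comm _ _, hg⟩

theorem TT_total {α : Type*} {r : ℕ} {M : Matroid α} {b b' : Fin r → α}
    (hb : Function.Injective b) (hb' : Function.Injective b')
    (hB : M.IsBase (Set.range b)) (hB' : M.IsBase (Set.range b')) :
    (∀ Y ⊆ B₁ r, Y.card = 2 → ∃ X ⊆ B₀ r, X.card = 2 ∧ TT M (Sum.elim b b') X Y) ∧
    (∀ X ⊆ B₀ r, X.card = 2 → ∃ Y ⊆ B₁ r, Y.card = 2 ∧ TT M (Sum.elim b b') X Y) := by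
  have hP := symExch_BP M (Sum.elim b b')
  have hA := base_B₀ (b' := b') hb hB
  have hA' := base_B₁ (b := b) hb' hB'
  constructor
  · intro Y hY cY
    obtain ⟨y₁, y₂, hy, rfl⟩ := Finset.card_eq_two.mp cY
    obtain ⟨x, hx, e, he, hxe, hg, hs⟩ := pair_total hP hA hA' (disj_B r)
      (hY (Finset.mem_insert_self _ _)) (hY (Finset.mem_insert_of_mem
        (Finset.mem_singleton_self _))) hy
    refine ⟨{x, e}, ?_, Finset.card_pair hxe, hg, ?_⟩
    · intro t ht
      rw [Finset.mem_insert, Finset.mem_singleton] at ht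
      rcases ht with rfl | rfl <;> assumption
    · rcases hs with hs | hs
      · exact ⟨x, by simp, y₁, by simp, hs⟩
      · exact ⟨x, by simp, y₂, by simp, hs⟩
  · intro X hX cX
    obtain ⟨x₁, x₂, hx, rfl⟩ := Finset.card_eq_two.mp cX
    obtain ⟨y, hy, e, he, hye, hg, hs⟩ := pair_total hP hA' hA (disj_B r).symm
      (hX (Finset.mem_insert_self _ _)) (hX (Finset.mem_insert_of_mem
        (Finset.mem_singleton_self _))) hx
    refine ⟨{y, e}, ?_, Finset.card_pair hye, hg.symm, ?_⟩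
    · intro t ht
      rw [Finset.mem_insert, Finset.mem_singleton] at ht
      rcases ht with rfl | rfl <;> assumption
    · rcases hs with hs | hs
      · exact ⟨x₁, by simp, y, by simp, hs.symm⟩
      · exact ⟨x₂, by simp, y, by simp, hs.symm⟩

/-- from two members of `TT` which are disjoint in both coordinates to orderings -/
theorem orderings_of_TT {α : Type*} {r : ℕ} (hr : 4 ≤ r) {M : Matroid α} {b b' : Fin r → α}
    (hb : Function.Injective b) (hb' : Function.Injective b')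
    (hB : M.IsBase (Set.range b)) (hB' : M.IsBase (Set.range b'))
    {X Y X' Y' : Finset (Idx r)} (hX : X ⊆ B₀ r) (hY : Y ⊆ B₁ r) (hX' : X' ⊆ B₀ r)
    (hY' : Y' ⊆ B₁ r) (cX : X.card = 2) (cY : Y.card = 2) (cX' : X'.card = 2) (cY' : Y'.card = 2)
    (hT : TT M (Sum.elim b b') X Y) (hT' : TT M (Sum.elim b b') X' Y')
    (dX : Disjoint X X') (dY : Disjoint Y Y') :
    ∃ σ σ' : Equiv.Perm (Fin r), ∀ i : Fin (r + r),
      (i.val % r = 0 ∨ i.val % r = 1 ∨ i.val % r = 2 ∨ i.val % r = r - 2 ∨ i.val % r = r - 1) →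
      M.IsBase (block (b ∘ σ) (b' ∘ σ') i) := by
  obtain ⟨x₁, x₂, y₁, y₂, hx12, hy12, rfl, rfl, g1⟩ := TT_unpack hX hY cX cY hT
  obtain ⟨x₃, x₄, y₃, y₄, hx34, hy34, rfl, rfl, g2⟩ := TT_unpack hX' hY' cX' cY' hT'
  have hA := base_B₀ (b' := b') hb hB
  have hA' := base_B₁ (b := b) hb' hB'
  have h0 : Good (BP M (Sum.elim b b')) (B₀ r) (B₁ r) ∅ ∅ := by
    constructor
    · simpa using hA
    · simpa using hA'
  have nx : ∀ u ∈ ({x₁, x₂} : Finset (Fin r)), ∀ v ∈ ({x₃, x₄} : Finset (Fin r)), u ≠ v := by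
    intro u hu v hv huv
    have hu' : (Sum.inl u : Idx r) ∈ ({Sum.inl x₁, Sum.inl x₂} : Finset (Idx r)) := by
      simpa using hu
    exact (Finset.disjoint_left.mp dX hu') (by rw [huv]; simpa using hv)
  have ny : ∀ u ∈ ({y₁, y₂} : Finset (Fin r)), ∀ v ∈ ({y₃, y₄} : Finset (Fin r)), u ≠ v := by
    intro u hu v hv huv
    have hu' : (Sum.inr u : Idx r) ∈ ({Sum.inr y₁, Sum.inr y₂} : Finset (Idx r)) := by
      simpa using hu
    exact (Finset.disjoint_left.mp dY hu') (by rw [huv]; simpa using hv)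
  refine orderings_of_pairs hr h0 ?_ ?_ g1 hT.1 g2 hT'.1
  · have a1 := nx x₁ (by simp) x₃ (by simp)
    have a2 := nx x₁ (by simp) x₄ (by simp)
    have a3 := nx x₂ (by simp) x₃ (by simp)
    have a4 := nx x₂ (by simp) x₄ (by simp)
    intro a c h
    fin_cases a <;> fin_cases c <;> simp at h ⊢ <;> grind
  · have a1 := ny y₁ (by simp) y₃ (by simp)
    have a2 := ny y₁ (by simp) y₄ (by simp)
    have a3 := ny y₂ (by simp) y₃ (by simp)
    have a4 := ny y₂ (by simp) y₄ (by simp)
    intro a c h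
    fin_cases a <;> fin_cases c <;> simp at h ⊢ <;> grind

theorem main6 {α : Type*} (M : Matroid α) {r : ℕ} (hr : 6 ≤ r) (b b' : Fin r → α)
    (hb : Function.Injective b) (hb' : Function.Injective b')
    (hB : M.IsBase (Set.range b)) (hB' : M.IsBase (Set.range b')) :
    ∃ σ σ' : Equiv.Perm (Fin r), ∀ i : Fin (r + r),
      (i.val % r = 0 ∨ i.val % r = 1 ∨ i.val % r = 2 ∨ i.val % r = r - 2 ∨ i.val % r = r - 1) →
      M.IsBase (block (b ∘ σ) (b' ∘ σ') i) := by
  obtain ⟨tY, tX⟩ := TT_total hb hb' hB hB'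
  obtain ⟨X, hX, Y, hY, X', hX', Y', hY', cX, cY, cX', cY', t1, t2, dX, dY⟩ :=
    comb (TT M (Sum.elim b b')) (by rw [card_B₀]; exact hr) (by rw [card_B₁]; exact hr) tY tX
  exact orderings_of_TT (by omega) hb hb' hB hB' hX hY hX' hY' cX cY cX' cY' t1 t2 dX dY

end Pool.Agent.Gabow87
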