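import Pool.Agent.Gabow87.Bridge

/-!
# Blocks of cyclically consecutive terms
-/

set_option autoImplicit false

namespace Pool.Agent.Gabow87

/-- The block of `r` cyclically consecutive terms, starting with the term number `i`, of the
sequence `u 0, ..., u (r - 1), v 0, ..., v (r - 1)` of length `2 r`: the set of all terms whose
number `j` satisfies `(j - i) mod 2 r < r`. -/
def block {α : Type*} {r : ℕ} (u v : Fin r → α) (i : Fin (r + r)) : Set α :=
  {x | ∃ j : Fin (r + r), (j - i).val < r ∧ x = Fin.append u v j}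

theorem mem_block_lt {α : Type*} {r : ℕ} (u v : Fin r → α) (i : Fin (r + r)) (hi : i.val < r)
    (x : α) : x ∈ block u v i ↔
      (∃ j : Fin r, i.val ≤ j.val ∧ x = u j) ∨ (∃ j : Fin r, j.val < i.val ∧ x = v j) := by
  constructor
  · rintro ⟨j, hj, rfl⟩
    refine Fin.addCases (fun j => ?_) (fun j => ?_) j hj
    · intro hj
      left
      refine ⟨j, ?_, by rw [Fin.append_left]⟩
      by_contra hlt
      rw [Fin.coe_sub_iff_lt.mpr (by rw [Fin.lt_def, Fin.val_castAdd]; omega)] at hj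
      have := j.isLt
      rw [Fin.val_castAdd] at hj
      omega
    · intro hj
      right
      refine ⟨j, ?_, by rw [Fin.append_right]⟩
      rw [Fin.sub_val_of_le (by rw [Fin.le_def, Fin.val_natAdd]; omega)] at hj
      rw [Fin.val_natAdd] at hj
      omega
  · rintro (⟨j, hj, rfl⟩ | ⟨j, hj, rfl⟩)
    · refine ⟨Fin.castAdd r j, ?_, by rw [Fin.append_left]⟩
      rw [Fin.sub_val_of_le (by rw [Fin.le_def, Fin.val_castAdd]; omega), Fin.val_castAdd]
      omega
    · refine ⟨Fin.natAdd r j, ?_, by rw [Fin.append_right]⟩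
      rw [Fin.sub_val_of_le (by rw [Fin.le_def, Fin.val_natAdd]; omega), Fin.val_natAdd]
      omega

theorem mem_block_ge {α : Type*} {r : ℕ} (u v : Fin r → α) (i : Fin (r + r)) (hi : r ≤ i.val)
    (x : α) : x ∈ block u v i ↔
      (∃ j : Fin r, i.val - r ≤ j.val ∧ x = v j) ∨ (∃ j : Fin r, j.val < i.val - r ∧ x = u j) := by
  constructor
  · rintro ⟨j, hj, rfl⟩
    refine Fin.addCases (fun j => ?_) (fun j => ?_) j hj
    · intro hj
      right
      refine ⟨j, ?_, by rw [Fin.append_left]⟩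
      rw [Fin.coe_sub_iff_lt.mpr (by rw [Fin.lt_def, Fin.val_castAdd]; omega)] at hj
      rw [Fin.val_castAdd] at hj
      omega
    · intro hj
      left
      refine ⟨j, ?_, by rw [Fin.append_right]⟩
      by_contra hlt
      rw [Fin.coe_sub_iff_lt.mpr (by rw [Fin.lt_def, Fin.val_natAdd]; omega)] at hj
      have := j.isLt
      have := i.isLt
      rw [Fin.val_natAdd] at hj
      omega
  · rintro (⟨j, hj, rfl⟩ | ⟨j, hj, rfl⟩)
    · refine ⟨Fin.natAdd r j, ?_, by rw [Fin.append_right]⟩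
      rw [Fin.sub_val_of_le (by rw [Fin.le_def, Fin.val_natAdd]; omega), Fin.val_natAdd]
      have := j.isLt
      omega
    · refine ⟨Fin.castAdd r j, ?_, by rw [Fin.append_left]⟩
      have := i.isLt
      rw [Fin.coe_sub_iff_lt.mpr (by rw [Fin.lt_def, Fin.val_castAdd]; omega), Fin.val_castAdd]
      omega

/-- indices of the first basis -/
def B₀ (r : ℕ) : Finset (Idx r) := Finset.univ.map ⟨Sum.inl, Sum.inl_injective⟩
/-- indices of the second basis -/
def B₁ (r : ℕ) : Finset (Idx r) := Finset.univ.map ⟨Sum.inr, Sum.inr_injective⟩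

@[simp] theorem mem_B₀ {r : ℕ} (t : Idx r) : t ∈ B₀ r ↔ ∃ j, t = Sum.inl j := by
  simp [B₀, eq_comm]
@[simp] theorem mem_B₁ {r : ℕ} (t : Idx r) : t ∈ B₁ r ↔ ∃ j, t = Sum.inr j := by
  simp [B₁, eq_comm]

/-- the first `k` terms of the first basis -/
def firstL {r : ℕ} (σ : Equiv.Perm (Fin r)) (k : ℕ) : Finset (Idx r) :=
  (Finset.univ.filter fun j : Fin r => j.val < k).map ⟨fun j => Sum.inl (σ j), fun a b h => by
    simpa using h⟩
/-- the first `k` terms of the second basis -/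
def firstR {r : ℕ} (σ : Equiv.Perm (Fin r)) (k : ℕ) : Finset (Idx r) :=
  (Finset.univ.filter fun j : Fin r => j.val < k).map ⟨fun j => Sum.inr (σ j), fun a b h => by
    simpa using h⟩

theorem mem_firstL {r : ℕ} (σ : Equiv.Perm (Fin r)) (k : ℕ) (t : Idx r) :
    t ∈ firstL σ k ↔ ∃ j : Fin r, j.val < k ∧ t = Sum.inl (σ j) := by
  simp [firstL, eq_comm]
theorem mem_firstR {r : ℕ} (σ : Equiv.Perm (Fin r)) (k : ℕ) (t : Idx r) :
    t ∈ firstR σ k ↔ ∃ j : Fin r, j.val < k ∧ t = Sum.inr (σ j) := by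
  simp [firstR, eq_comm]

theorem isBase_block {α : Type*} {r : ℕ} {M : Matroid α} {b b' : Fin r → α}
    (σ σ' : Equiv.Perm (Fin r)) {k : ℕ}
    (h : Good (BP M (Sum.elim b b')) (B₀ r) (B₁ r) (firstL σ k) (firstR σ' k))
    (i : Fin (r + r)) (hi : i.val = k ∧ k < r ∨ i.val = r + k) :
    M.IsBase (block (b ∘ σ) (b' ∘ σ') i) := by
  rcases hi with ⟨hi, hk⟩ | hi
  · convert h.1.2 using 1
    ext x
    rw [mem_block_lt _ _ _ (by omega)]
    simp only [Set.mem_image, Finset.mem_coe, Finset.mem_union, Finset.mem_sdiff, mem_B₀,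
      mem_firstL, mem_firstR]
    constructor
    · rintro (⟨j, hj, rfl⟩ | ⟨j, hj, rfl⟩)
      · refine ⟨Sum.inl (σ j), Or.inl ⟨⟨_, rfl⟩, ?_⟩, rfl⟩
        rintro ⟨j', hj', h⟩
        have : j = j' := by simpa using h
        subst this; omega
      · exact ⟨Sum.inr (σ' j), Or.inr ⟨j, by omega, rfl⟩, rfl⟩
    · rintro ⟨t, ⟨⟨j, rfl⟩, hj⟩ | ⟨j, hj, rfl⟩, rfl⟩
      · left
        refine ⟨σ.symm j, ?_, by simp⟩
        by_contra hlt
        exact hj ⟨σ.symm j, by omega, by simp⟩
      · right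
        exact ⟨j, by omega, rfl⟩
  · convert h.2.2 using 1
    ext x
    rw [mem_block_ge _ _ _ (by omega)]
    simp only [Set.mem_image, Finset.mem_coe, Finset.mem_union, Finset.mem_sdiff, mem_B₁,
      mem_firstL, mem_firstR]
    constructor
    · rintro (⟨j, hj, rfl⟩ | ⟨j, hj, rfl⟩)
      · refine ⟨Sum.inr (σ' j), Or.inl ⟨⟨_, rfl⟩, ?_⟩, rfl⟩
        rintro ⟨j', hj', h⟩
        have : j = j' := by simpa using h
        subst this; omega
      · exact ⟨Sum.inl (σ j), Or.inr ⟨j, by omega, rfl⟩, rfl⟩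
    · rintro ⟨t, ⟨⟨j, rfl⟩, hj⟩ | ⟨j, hj, rfl⟩, rfl⟩
      · left
        refine ⟨σ'.symm j, ?_, by simp⟩
        by_contra hlt
        exact hj ⟨σ'.symm j, by omega, by simp⟩
      · right
        exact ⟨j, by omega, rfl⟩

end Pool.Agent.Gabow87
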