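import Pool.Agent.Gabow87.PairSys
import Pool.Agent.Gabow87.Blocks

/-!
# The pair of matroids belonging to two bases and a subset of the second basis
-/

set_option autoImplicit false

namespace Pool.Agent.Gabow87

variable {α : Type*} [DecidableEq α]

theorem SymExch.card_eq {P : Finset α → Prop} (hP : SymExch P) {A A' : Finset α} (hA : P A)
    (hA' : P A') : A.card = A'.card := by
  obtain ⟨n, hn⟩ : ∃ n, (A' \ A).card = n := ⟨_, rfl⟩
  induction n generalizing A with
  | zero =>
    have h1 : A' ⊆ A := by
      rw [Finset.card_eq_zero, Finset.sdiff_eq_empty_iff_subset] at hn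
      exact hn
    have h2 : A ⊆ A' := by
      intro z hz
      by_contra hz'
      obtain ⟨e, he, he', -⟩ := hP A' A hA' hA z hz hz'
      exact he' (h1 he)
    rw [h1.antisymm h2]
  | succ n ih =>
    obtain ⟨z, hz⟩ : (A' \ A).Nonempty := by
      rw [← Finset.card_pos]; omega
    rw [Finset.mem_sdiff] at hz
    obtain ⟨e, he, he', h1, -⟩ := hP A A' hA hA' z hz.1 hz.2
    have h2 : (insert z (A.erase e)).card = A.card := by
      rw [Finset.card_insert_of_notMem (fun h => hz.2 (Finset.mem_of_mem_erase h)),
        Finset.card_erase_of_mem he]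
      have := Finset.card_pos.mpr ⟨e, he⟩
      omega
    rw [← h2]
    apply ih h1
    have h3 : A' \ insert z (A.erase e) = (A' \ A).erase z := by
      ext t
      simp only [Finset.mem_sdiff, Finset.mem_insert, Finset.mem_erase, not_or, not_and]
      constructor
      · rintro ⟨h3, h4, h5⟩
        exact ⟨h4, h3, h5 (fun h => he' (h ▸ h3))⟩
      · rintro ⟨h3, h4, h5⟩
        exact ⟨h4, h3, fun _ => h5⟩
    rw [h3, Finset.card_erase_of_mem (Finset.mem_sdiff.mpr hz), hn]
    omega

/-- the bases of the two matroids on `B ∪ Y` -/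
def PP (P : Finset α → Prop) (B B' Y : Finset α) (s : Bool) (T : Finset α) : Prop :=
  T ⊆ B ∪ Y ∧ cond s (P ((B' \ Y) ∪ T)) (P ((B ∪ Y) \ T))

theorem pairSys_PP {P : Finset α → Prop} (hP : SymExch P) {B B' Y : Finset α} (hB : P B)
    (hB' : P B') (hd : Disjoint B B') (hY : Y ⊆ B') :
    PairSys Y.card B Y (PP P B B' Y) := by
  have hd1 : ∀ a ∈ B, a ∉ B' := fun a h h' => Finset.disjoint_left.mp hd h h'
  have hBY : Disjoint B Y := Finset.disjoint_of_subset_right hY hd
  have hWZ : Disjoint (B' \ Y) (B ∪ Y) := by
    rw [Finset.disjoint_left]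
    intro a ha h
    rw [Finset.mem_sdiff] at ha
    rw [Finset.mem_union] at h
    rcases h with h | h
    · exact hd1 a h ha.1
    · exact ha.2 h
  have hc := hP.card_eq hB hB'
  refine ⟨fun s S hS => hS.1, ?_, ?_, hBY, ?_, ?_⟩
  · rintro (_ | _) S ⟨hS, h⟩
    · change P _ at h
      have h1 := hP.card_eq h hB
      rw [Finset.card_sdiff_of_subset hS, Finset.card_union_of_disjoint hBY] at h1
      have h2 := Finset.card_le_card hS
      rw [Finset.card_union_of_disjoint hBY] at h2
      have h3 : Y.card ≤ B'.card := Finset.card_le_card hY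
      by_cases h0 : B.card = 0
      · omega
      · omega
    · change P _ at h
      have h1 := hP.card_eq h hB'
      rw [Finset.card_union_of_disjoint (Finset.disjoint_of_subset_right hS hWZ),
        Finset.card_sdiff_of_subset hY] at h1
      have h3 : Y.card ≤ B'.card := Finset.card_le_card hY
      omega
  · rintro (_ | _) S T ⟨hS, h⟩ ⟨hT, h'⟩ x hx hxT
    · change P _ at h h'
      obtain ⟨e, he, he', h3, -⟩ := hP _ _ h h' x (Finset.mem_sdiff.mpr ⟨hS hx, hxT⟩)
        (fun h => (Finset.mem_sdiff.mp h).2 hx)
      rw [Finset.mem_sdiff] at he he'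
      have heT : e ∈ T := by
        by_contra hc
        exact he' ⟨he.1, hc⟩
      refine ⟨e, heT, he.2, ?_, ?_⟩
      · intro t ht
        rw [Finset.mem_insert] at ht
        rcases ht with rfl | ht
        · exact he.1
        · exact hS (Finset.mem_of_mem_erase ht)
      · change P _
        convert h3 using 1
        ext t
        simp only [Finset.mem_sdiff, Finset.mem_insert, Finset.mem_erase, not_or, not_and, not_not]
        constructor
        · rintro ⟨h5, h6, h7⟩
          by_cases htx : t = x
          · exact Or.inl htx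
          · exact Or.inr ⟨h6, h5, h7 htx⟩
        · rintro (rfl | ⟨h5, h6, h7⟩)
          · exact ⟨hS hx, fun h => he.2 (h ▸ hx), fun h => (h rfl).elim⟩
          · exact ⟨h6, h5, fun _ => h7⟩
    · change P _ at h h'
      have hxW : x ∉ B' \ Y := fun h => Finset.disjoint_left.mp hWZ h (hS hx)
      obtain ⟨e, he, he', -, h3⟩ := hP _ _ h' h x (Finset.mem_union_right _ hx)
        (fun h => (Finset.mem_union.mp h).elim hxW hxT)
      rw [Finset.mem_union] at he he'
      push Not at he'
      have heT : e ∈ T := he.resolve_left he'.1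
      refine ⟨e, heT, he'.2, ?_, ?_⟩
      · intro t ht
        rw [Finset.mem_insert] at ht
        rcases ht with rfl | ht
        · exact hT heT
        · exact hS (Finset.mem_of_mem_erase ht)
      · change P _
        convert h3 using 1
        ext t
        simp only [Finset.mem_union, Finset.mem_insert, Finset.mem_erase]
        constructor
        · rintro (h5 | rfl | h5)
          · exact Or.inr ⟨fun h => hxW (h ▸ h5), Or.inl h5⟩
          · exact Or.inl rfl
          · exact Or.inr ⟨h5.1, Or.inr h5.2⟩
        · rintro (rfl | ⟨h5, h6 | h6⟩)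
          · exact Or.inr (Or.inl rfl)
          · exact Or.inl h6
          · exact Or.inr (Or.inr ⟨h5, h6⟩)
  · rintro (_ | _)
    · refine ⟨Finset.subset_union_right, ?_⟩
      change P _
      convert hB using 1
      rw [Finset.union_sdiff_cancel_right hBY]
    · refine ⟨Finset.subset_union_right, ?_⟩
      change P _
      convert hB' using 1
      exact Finset.sdiff_union_of_subset hY
  · rintro S T ⟨hS, h⟩ ⟨hT, h'⟩ z hz hzS hzT
    change P _ at h h'
    have hzZ : z ∈ B ∪ Y := hS hzS
    have hzW : z ∉ B' \ Y := fun h => Finset.disjoint_left.mp hWZ h hzZ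
    obtain ⟨e, he, he', h3, h4⟩ := hP _ _ h h' z (Finset.mem_union_right _ hzT)
      (fun h => (Finset.mem_sdiff.mp h).2 hzS)
    rw [Finset.mem_sdiff] at he
    rw [Finset.mem_union] at he'
    push Not at he'
    refine ⟨e, he.1, he.2, he'.2, ⟨?_, ?_⟩, ⟨?_, ?_⟩⟩
    · intro t ht
      rw [Finset.mem_insert] at ht
      rcases ht with rfl | ht
      · exact he.1
      · exact hS (Finset.mem_of_mem_erase ht)
    · change P _
      convert h3 using 1
      ext t
      simp only [Finset.mem_sdiff, Finset.mem_insert, Finset.mem_erase, not_or, not_and, not_not]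
      constructor
      · rintro ⟨h5, h6, h7⟩
        by_cases htx : t = z
        · exact Or.inl htx
        · exact Or.inr ⟨h6, h5, h7 htx⟩
      · rintro (rfl | ⟨h5, h6, h7⟩)
        · exact ⟨hzZ, fun h => he.2 (h ▸ hzS), fun h => (h rfl).elim⟩
        · exact ⟨h6, h5, fun _ => h7⟩
    · intro t ht
      rw [Finset.mem_insert] at ht
      rcases ht with rfl | ht
      · exact he.1
      · exact hT (Finset.mem_of_mem_erase ht)
    · change P _
      convert h4 using 1
      ext t
      simp only [Finset.mem_union, Finset.mem_insert, Finset.mem_erase]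
      constructor
      · rintro (h5 | rfl | h5)
        · exact Or.inr ⟨fun h => hzW (h ▸ h5), Or.inl h5⟩
        · exact Or.inl rfl
        · exact Or.inr ⟨h5.1, Or.inr h5.2⟩
      · rintro (rfl | ⟨h5, h6 | h6⟩)
        · exact Or.inr (Or.inl rfl)
        · exact Or.inl h6
        · exact Or.inr (Or.inr ⟨h5, h6⟩)

/-- A common basis `X ∪ (Y \ V)` of the two matroids is a good pair `(X, V)`. -/
theorem good_of_PP {P : Finset α → Prop} {B B' Y : Finset α} (hd : Disjoint B B') (hY : Y ⊆ B')
    {X V : Finset α} (hX : X ⊆ B) (hV : V ⊆ Y)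
    (h : ∀ s, PP P B B' Y s (X ∪ (Y \ V))) : Good P B B' X V := by
  have hd1 : ∀ a ∈ B, a ∉ B' := fun a h h' => Finset.disjoint_left.mp hd h h'
  constructor
  · have h0 : P ((B ∪ Y) \ (X ∪ (Y \ V))) := (h false).2
    convert h0 using 1
    ext t
    have h1 := @hX t
    have h2 := @hV t
    have h3 := @hY t
    have h4 := hd1 t
    simp only [Finset.mem_union, Finset.mem_sdiff]
    tauto
  · have h0 : P ((B' \ Y) ∪ (X ∪ (Y \ V))) := (h true).2
    convert h0 using 1
    ext t
    have h1 := @hX t
    have h2 := @hV t
    have h3 := @hY t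
    have h4 := hd1 t
    simp only [Finset.mem_union, Finset.mem_sdiff]
    tauto

end Pool.Agent.Gabow87
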