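import Pool.Agent.Gabow87.Blocks

/-!
# Orderings with prescribed first and last terms
-/

set_option autoImplicit false

namespace Pool.Agent.Gabow87

/-- the first `k` positions and the last `l` positions (in reversed order) -/
def pos {r k l : ℕ} (h : k + l ≤ r) : Fin k ⊕ Fin l → Fin r
  | Sum.inl i => ⟨i.val, by omega⟩
  | Sum.inr j => ⟨r - 1 - j.val, by omega⟩

theorem pos_injective {r k l : ℕ} (h : k + l ≤ r) : Function.Injective (pos h) := by
  rintro (a | a) (b | b) hab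
  · simp only [pos, Fin.mk.injEq] at hab
    congr 1
    exact Fin.ext hab
  · simp only [pos, Fin.mk.injEq] at hab
    omega
  · simp only [pos, Fin.mk.injEq] at hab
    omega
  · simp only [pos, Fin.mk.injEq] at hab
    congr 1
    exact Fin.ext (by omega)

theorem exists_perm {r k l : ℕ} (h : k + l ≤ r) (x : Fin k ⊕ Fin l → Fin r)
    (hx : Function.Injective x) : ∃ σ : Equiv.Perm (Fin r), ∀ t, σ (pos h t) = x t :=
  Equiv.Perm.exists_extending_pair _ _ (pos_injective h) hx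

/-- the first `m` terms, as a set of indices of the first basis -/
def LX {r k : ℕ} (x : Fin k → Fin r) (m : ℕ) : Finset (Idx r) :=
  (Finset.univ.filter fun i : Fin k => i.val < m).image fun i => Sum.inl (x i)

/-- the first `m` terms, as a set of indices of the second basis -/
def RY {r k : ℕ} (y : Fin k → Fin r) (m : ℕ) : Finset (Idx r) :=
  (Finset.univ.filter fun i : Fin k => i.val < m).image fun i => Sum.inr (y i)

theorem mem_LX {r k : ℕ} (x : Fin k → Fin r) (m : ℕ) (t : Idx r) :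
    t ∈ LX x m ↔ ∃ j : Fin k, j.val < m ∧ t = Sum.inl (x j) := by
  simp [LX, eq_comm]
theorem mem_RY {r k : ℕ} (x : Fin k → Fin r) (m : ℕ) (t : Idx r) :
    t ∈ RY x m ↔ ∃ j : Fin k, j.val < m ∧ t = Sum.inr (x j) := by
  simp [RY, eq_comm]

theorem firstL_eq_low {r k l : ℕ} (h : k + l ≤ r) (x : Fin k ⊕ Fin l → Fin r)
    (σ : Equiv.Perm (Fin r)) (hσ : ∀ t, σ (pos h t) = x t) (m : ℕ) (hm : m ≤ k) :
    firstL σ m = LX (fun i => x (Sum.inl i)) m := by
  ext t
  rw [mem_firstL, mem_LX]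
  constructor
  · rintro ⟨j, hj, rfl⟩
    refine ⟨⟨j.val, by omega⟩, hj, ?_⟩
    rw [← hσ]; rfl
  · rintro ⟨j, hj, rfl⟩
    exact ⟨pos h (Sum.inl j), hj, by rw [hσ]⟩

theorem firstR_eq_low {r k l : ℕ} (h : k + l ≤ r) (x : Fin k ⊕ Fin l → Fin r)
    (σ : Equiv.Perm (Fin r)) (hσ : ∀ t, σ (pos h t) = x t) (m : ℕ) (hm : m ≤ k) :
    firstR σ m = RY (fun i => x (Sum.inl i)) m := by
  ext t
  rw [mem_firstR, mem_RY]
  constructor
  · rintro ⟨j, hj, rfl⟩
    refine ⟨⟨j.val, by omega⟩, hj, ?_⟩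
    rw [← hσ]; rfl
  · rintro ⟨j, hj, rfl⟩
    exact ⟨pos h (Sum.inl j), hj, by rw [hσ]⟩

theorem firstL_eq_high {r k l : ℕ} (h : k + l ≤ r) (x : Fin k ⊕ Fin l → Fin r)
    (σ : Equiv.Perm (Fin r)) (hσ : ∀ t, σ (pos h t) = x t) (m : ℕ) (hm : m ≤ l) :
    firstL σ (r - m) = B₀ r \ LX (fun i => x (Sum.inr i)) m := by
  ext t
  rw [mem_firstL, Finset.mem_sdiff, mem_LX, mem_B₀]
  constructor
  · rintro ⟨j, hj, rfl⟩
    refine ⟨⟨_, rfl⟩, ?_⟩
    rintro ⟨i, hi, h1⟩
    rw [← hσ] at h1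
    have := σ.injective (Sum.inl_injective h1)
    subst this
    simp only [pos] at hj
    omega
  · rintro ⟨⟨j, rfl⟩, hj⟩
    refine ⟨σ.symm j, ?_, by simp⟩
    by_contra hlt
    apply hj
    have hlt2 := (σ.symm j).isLt
    refine ⟨⟨r - 1 - (σ.symm j).val, by omega⟩, ?_, ?_⟩
    · change r - 1 - (σ.symm j).val < m
      omega
    · rw [← hσ]
      congr 1
      rw [← Equiv.symm_apply_eq]
      apply Fin.ext
      simp only [pos]
      omega

theorem firstR_eq_high {r k l : ℕ} (h : k + l ≤ r) (x : Fin k ⊕ Fin l → Fin r)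
    (σ : Equiv.Perm (Fin r)) (hσ : ∀ t, σ (pos h t) = x t) (m : ℕ) (hm : m ≤ l) :
    firstR σ (r - m) = B₁ r \ RY (fun i => x (Sum.inr i)) m := by
  ext t
  rw [mem_firstR, Finset.mem_sdiff, mem_RY, mem_B₁]
  constructor
  · rintro ⟨j, hj, rfl⟩
    refine ⟨⟨_, rfl⟩, ?_⟩
    rintro ⟨i, hi, h1⟩
    rw [← hσ] at h1
    have := σ.injective (Sum.inr_injective h1)
    subst this
    simp only [pos] at hj
    omega
  · rintro ⟨⟨j, rfl⟩, hj⟩
    refine ⟨σ.symm j, ?_, by simp⟩
    by_contra hlt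
    apply hj
    have hlt2 := (σ.symm j).isLt
    refine ⟨⟨r - 1 - (σ.symm j).val, by omega⟩, ?_, ?_⟩
    · change r - 1 - (σ.symm j).val < m
      omega
    · rw [← hσ]
      congr 1
      rw [← Equiv.symm_apply_eq]
      apply Fin.ext
      simp only [pos]
      omega

/-- good pairs of complements -/
theorem good_compl {r : ℕ} {P : Finset (Idx r) → Prop} {X Y : Finset (Idx r)}
    (hX : X ⊆ B₀ r) (hY : Y ⊆ B₁ r) (h : Good P (B₀ r) (B₁ r) X Y) :
    Good P (B₀ r) (B₁ r) (B₀ r \ X) (B₁ r \ Y) := by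
  constructor
  · convert h.2 using 1
    ext t
    have h1 := @hX t
    simp only [Finset.mem_union, Finset.mem_sdiff]
    tauto
  · convert h.1 using 1
    ext t
    have h1 := @hY t
    simp only [Finset.mem_union, Finset.mem_sdiff]
    tauto

/-- From two chains of good pairs, disjoint in both coordinates, to orderings. -/
theorem orderings_of_chains {α : Type*} {r k l : ℕ} (hr : k + l ≤ r) {M : Matroid α}
    {b b' : Fin r → α} {x y : Fin k ⊕ Fin l → Fin r}
    (hx : Function.Injective x) (hy : Function.Injective y)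
    (h1 : ∀ m ≤ k, Good (BP M (Sum.elim b b')) (B₀ r) (B₁ r) (LX (fun i => x (Sum.inl i)) m)
      (RY (fun i => y (Sum.inl i)) m))
    (h2 : ∀ m ≤ l, 0 < m → Good (BP M (Sum.elim b b')) (B₀ r) (B₁ r)
      (LX (fun i => x (Sum.inr i)) m) (RY (fun i => y (Sum.inr i)) m)) :
    ∃ σ σ' : Equiv.Perm (Fin r), (∀ t, σ (pos hr t) = x t) ∧ (∀ t, σ' (pos hr t) = y t) ∧
      ∀ i : Fin (r + r), (i.val % r ≤ k ∨ r ≤ i.val % r + l) →
      M.IsBase (block (b ∘ σ) (b' ∘ σ') i) := by
  obtain ⟨σ, hσ⟩ := exists_perm hr x hx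
  obtain ⟨σ', hσ'⟩ := exists_perm hr y hy
  refine ⟨σ, σ', hσ, hσ', fun i hi => ?_⟩
  have hr0 : 0 < r := by have := i.isLt; omega
  have hmod := Nat.mod_lt i.val hr0
  refine isBase_block (k := i.val % r) σ σ' ?_ i ?_
  · rcases Nat.lt_or_ge k (i.val % r) with hk | hk
    · obtain ⟨m, hm⟩ : ∃ m, m = r - i.val % r := ⟨_, rfl⟩
      have hm' : i.val % r = r - m := by omega
      rw [hm', firstL_eq_high hr x σ hσ m (by omega), firstR_eq_high hr y σ' hσ' m (by omega)]
      refine good_compl ?_ ?_ (h2 m (by omega) (by omega))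
      · intro t ht
        rw [mem_LX] at ht
        obtain ⟨j, -, rfl⟩ := ht
        simp
      · intro t ht
        rw [mem_RY] at ht
        obtain ⟨j, -, rfl⟩ := ht
        simp
    · rw [firstL_eq_low hr x σ hσ _ hk, firstR_eq_low hr y σ' hσ' _ hk]
      exact h1 _ hk
  · rcases Nat.lt_or_ge i.val r with hir | hir
    · left
      rw [Nat.mod_eq_of_lt hir]
      exact ⟨rfl, hir⟩
    · right
      have h3 : i.val % r = i.val - r := by
        rw [Nat.mod_eq_sub_mod hir, Nat.mod_eq_of_lt (by have := i.isLt; omega)]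
      omega

end Pool.Agent.Gabow87
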