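import Pool.Agent.Gabow87.Tot3
import Pool.Agent.Gabow87.Appl
import Pool.Agent.Gabow87.Order
import Pool.Agent.Gabow87.Main6

/-!
# Three elements of one basis have a serial symmetric exchange with three elements of the other
-/

set_option autoImplicit false

namespace Pool.Agent.Gabow87

theorem distinct3 {α : Type*} [DecidableEq α] {a b c : α}
    (h : ({a, b, c} : Finset α).card = 3) : a ≠ b ∧ a ≠ c ∧ b ≠ c := by
  refine ⟨?_, ?_, ?_⟩
  · rintro rfl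
    rw [Finset.insert_eq_of_mem (by simp)] at h
    have := Finset.card_le_two (a := a) (b := c)
    omega
  · rintro rfl
    rw [Finset.insert_eq_of_mem (by simp)] at h
    have := Finset.card_le_two (a := b) (b := a)
    omega
  · rintro rfl
    rw [Finset.pair_eq_singleton] at h
    have := Finset.card_le_two (a := a) (b := b)
    omega

theorem triple_total {α : Type*} [DecidableEq α] {P : Finset α → Prop} (hP : SymExch P)
    {B B' Y : Finset α} (hB : P B) (hB' : P B') (hd : Disjoint B B') (hY : Y ⊆ B')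
    (h3 : Y.card = 3) :
    ∃ x₁ ∈ B, ∃ x₂ ∈ B, ∃ x₃ ∈ B, x₁ ≠ x₂ ∧ x₁ ≠ x₃ ∧ x₂ ≠ x₃ ∧ ∃ y₁ y₂ y₃, Y = {y₁, y₂, y₃} ∧
      Good P B B' {x₁} {y₁} ∧ Good P B B' {x₁, x₂} {y₁, y₂} ∧
      Good P B B' {x₁, x₂, x₃} {y₁, y₂, y₃} := by
  have h := pairSys_PP hP hB hB' hd hY
  rw [h3] at h
  obtain ⟨x₁, hx1, x₂, hx2, x₃, hx3, n12, n13, n23, y₁, y₂, y₃, hY', hc⟩ := tot3 _ _ _ _ rfl h
  rw [hY'] at h3
  obtain ⟨m12, m13, m23⟩ := distinct3 h3
  refine ⟨x₁, hx1, x₂, hx2, x₃, hx3, n12, n13, n23, y₁, y₂, y₃, hY', ?_, ?_, ?_⟩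
  · refine good_of_PP hd hY (Finset.singleton_subset_iff.mpr hx1) (by rw [hY']; simp) fun s => ?_
    have : ({x₁} : Finset α) ∪ (Y \ {y₁}) = {x₁, y₂, y₃} := by
      rw [hY']
      ext t
      simp only [Finset.mem_union, Finset.mem_sdiff, Finset.mem_insert, Finset.mem_singleton]
      grind
    rw [this]
    exact (hc s).1
  · refine good_of_PP hd hY ?_ (by rw [hY']; intro t; simp; tauto) fun s => ?_
    · intro t
      simp only [Finset.mem_insert, Finset.mem_singleton]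
      rintro (rfl | rfl) <;> assumption
    have : ({x₁, x₂} : Finset α) ∪ (Y \ {y₁, y₂}) = {x₁, x₂, y₃} := by
      rw [hY']
      ext t
      simp only [Finset.mem_union, Finset.mem_sdiff, Finset.mem_insert, Finset.mem_singleton]
      grind
    rw [this]
    exact (hc s).2.1
  · refine good_of_PP hd hY ?_ (by rw [hY']) fun s => ?_
    · intro t
      simp only [Finset.mem_insert, Finset.mem_singleton]
      rintro (rfl | rfl | rfl) <;> assumption
    have : ({x₁, x₂, x₃} : Finset α) ∪ (Y \ {y₁, y₂, y₃}) = {x₁, x₂, x₃} := by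
      rw [hY', Finset.sdiff_self, Finset.union_empty]
    rw [this]
    exact (hc s).2.2

theorem LX_zero {r k : ℕ} (x : Fin k → Fin r) : LX x 0 = ∅ := by
  ext t; simp [mem_LX]
theorem RY_zero {r k : ℕ} (x : Fin k → Fin r) : RY x 0 = ∅ := by
  ext t; simp [mem_RY]

theorem LX3 {r : ℕ} (a b c : Fin r) : LX ![a, b, c] 1 = {Sum.inl a} ∧
    LX ![a, b, c] 2 = {Sum.inl a, Sum.inl b} ∧
    LX ![a, b, c] 3 = {Sum.inl a, Sum.inl b, Sum.inl c} := by
  refine ⟨?_, ?_, ?_⟩ <;> ext t <;> rw [mem_LX] <;> simp [Fin.exists_fin_succ]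

theorem RY3 {r : ℕ} (a b c : Fin r) : RY ![a, b, c] 1 = {Sum.inr a} ∧
    RY ![a, b, c] 2 = {Sum.inr a, Sum.inr b} ∧
    RY ![a, b, c] 3 = {Sum.inr a, Sum.inr b, Sum.inr c} := by
  refine ⟨?_, ?_, ?_⟩ <;> ext t <;> rw [mem_RY] <;> simp [Fin.exists_fin_succ]

theorem any_three {α : Type*} (M : Matroid α) {r : ℕ} (b b' : Fin r → α)
    (hb : Function.Injective b) (hb' : Function.Injective b')
    (hB : M.IsBase (Set.range b)) (hB' : M.IsBase (Set.range b'))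
    (J : Finset (Fin r)) (hJ : J.card = 3) :
    ∃ σ σ' : Equiv.Perm (Fin r), (∀ j : Fin r, σ' j ∈ J ↔ j.val < 3) ∧
      ∀ i : Fin (r + r), i.val % r ≤ 3 → M.IsBase (block (b ∘ σ) (b' ∘ σ') i) := by
  have hr3 : 3 + 0 ≤ r := by
    have := J.card_le_univ
    rw [hJ, Fintype.card_fin] at this
    omega
  have hA := base_B₀ (b' := b') hb hB
  have hA' := base_B₁ (b := b) hb' hB'
  have hd : Disjoint (B₀ r) (B₁ r) := by
    rw [Finset.disjoint_left]
    intro t ht ht'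
    rw [mem_B₀] at ht
    rw [mem_B₁] at ht'
    obtain ⟨j, rfl⟩ := ht
    obtain ⟨j', h⟩ := ht'
    exact absurd h (by simp)
  obtain ⟨X₁, hX1, X₂, hX2, X₃, hX3, n12, n13, n23, Y₁, Y₂, Y₃, hY, g1, g2, g3⟩ :=
    triple_total (symExch_BP M (Sum.elim b b')) hA hA' hd
      (Y := J.map ⟨Sum.inr, Sum.inr_injective⟩)
      (by intro t ht; rw [Finset.mem_map] at ht; obtain ⟨j, -, rfl⟩ := ht; simp)
      (by rw [Finset.card_map, hJ])
  rw [mem_B₀] at hX1 hX2 hX3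
  obtain ⟨x₁, rfl⟩ := hX1
  obtain ⟨x₂, rfl⟩ := hX2
  obtain ⟨x₃, rfl⟩ := hX3
  have hYm : ∀ t ∈ ({Y₁, Y₂, Y₃} : Finset (Idx r)), ∃ j ∈ J, t = Sum.inr j := by
    intro t ht
    rw [← hY, Finset.mem_map] at ht
    obtain ⟨j, hj, rfl⟩ := ht
    exact ⟨j, hj, rfl⟩
  obtain ⟨y₁, hy1, rfl⟩ := hYm Y₁ (by simp)
  obtain ⟨y₂, hy2, rfl⟩ := hYm Y₂ (by simp)
  obtain ⟨y₃, hy3, rfl⟩ := hYm Y₃ (by simp)
  have hcard : (({Sum.inr y₁, Sum.inr y₂, Sum.inr y₃} : Finset (Idx r))).card = 3 := by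
    rw [← hY, Finset.card_map, hJ]
  obtain ⟨m12, m13, m23⟩ := distinct3 hcard
  have hJ' : ∀ j, j ∈ J ↔ j = y₁ ∨ j = y₂ ∨ j = y₃ := by
    intro j
    have h1 : (Sum.inr j : Idx r) ∈ J.map ⟨Sum.inr, Sum.inr_injective⟩ ↔ j ∈ J := by
      simp
    rw [← h1, hY]
    simp
  have h1 : ∀ m ≤ 3, Good (BP M (Sum.elim b b')) (B₀ r) (B₁ r)
      (LX (fun i => (Sum.elim ![x₁, x₂, x₃] (Fin.elim0 : Fin 0 → Fin r)) (Sum.inl i)) m)
      (RY (fun i => (Sum.elim ![y₁, y₂, y₃] (Fin.elim0 : Fin 0 → Fin r)) (Sum.inl i)) m) := by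
    intro m hm
    simp only [Sum.elim_inl]
    interval_cases m
    · rw [LX_zero, RY_zero]
      exact ⟨by simpa using hA, by simpa using hA'⟩
    · rw [(LX3 _ _ _).1, (RY3 _ _ _).1]; exact g1
    · rw [(LX3 _ _ _).2.1, (RY3 _ _ _).2.1]; exact g2
    · rw [(LX3 _ _ _).2.2, (RY3 _ _ _).2.2]; exact g3
  have hinj : ∀ u v w : Fin r, u ≠ v → u ≠ w → v ≠ w →
      Function.Injective (Sum.elim ![u, v, w] (Fin.elim0 : Fin 0 → Fin r)) := by
    intro u v w h1 h2 h3 a c h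
    rcases a with a | a
    · rcases c with c | c
      · fin_cases a <;> fin_cases c <;> simp at h ⊢ <;> grind
      · exact c.elim0
    · exact a.elim0
  obtain ⟨σ, σ', hσ, hσ', hb⟩ := orderings_of_chains hr3 (M := M) (b := b) (b' := b')
    (x := Sum.elim ![x₁, x₂, x₃] (Fin.elim0 : Fin 0 → Fin r))
    (y := Sum.elim ![y₁, y₂, y₃] (Fin.elim0 : Fin 0 → Fin r))
    (hinj _ _ _ (fun h => n12 (by rw [h])) (fun h => n13 (by rw [h])) (fun h => n23 (by rw [h])))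
    (hinj _ _ _ (fun h => m12 (by rw [h])) (fun h => m13 (by rw [h])) (fun h => m23 (by rw [h])))
    h1 (fun m hm h0 => absurd hm (by omega))
  refine ⟨σ, σ', fun j => ?_, fun i hi => hb i (Or.inl hi)⟩
  rw [hJ']
  have e1 := hσ' (Sum.inl 0)
  have e2 := hσ' (Sum.inl 1)
  have e3 := hσ' (Sum.inl 2)
  simp only [pos, Sum.elim_inl, Matrix.cons_val] at e1 e2 e3
  rw [← e1, ← e2, ← e3]
  simp only [σ'.injective.eq_iff, Fin.ext_iff, Fin.val_zero, Fin.val_one, Fin.val_two]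
  omega

end Pool.Agent.Gabow87
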