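import Pool.Agent.Near48.Blocks

/-!
# Almost Gabow with prescribed first terms

As `Near48.near_refine`; moreover, if the two opposite blocks starting at the terms with number `m`
modulo `r` are bases for the given orderings, then the sets of the first `m` terms are kept.
-/

set_option autoImplicit false

namespace Pool.Agent.Gabow87

open Pool.Agent.Near48

variable {r : ℕ} {α : Type*} {M : Matroid α} {b b' : Fin r → α}

/-- opposite blocks which are bases -/
private theorem mem_KK (hb : Function.Injective b) (hB : M.IsBase (Set.range b))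
    (m : ℕ) (hmr : m < r)
    (hm : ∀ j : Fin (r + r), j.val % r = m → M.IsBase (block b b' j)) : m ∈ KK M b b' := by
  have e0 : block b b' = block (b ∘ (1 : Equiv.Perm (Fin r))) (b' ∘ (1 : Equiv.Perm (Fin r))) :=
    rfl
  have h1 := hm ⟨m, by omega⟩ (Nat.mod_eq_of_lt hmr)
  have h2 := hm ⟨r + m, by omega⟩ (by
    change (r + m) % r = m
    rw [Nat.add_mod_left, Nat.mod_eq_of_lt hmr])
  rw [e0, block_image, block_Tt _ _ _ hmr] at h1
  rw [e0, block_image, block_Ss _ _ _ (by change r ≤ r + m; omega)] at h2
  have h3 : (⟨r + m, by omega⟩ : Fin (r + r)).val - r = m := by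
    change r + m - r = m
    omega
  rw [h3] at h2
  exact ⟨indep_of_isBase hb hB (card_Tt _ _ _) h1, indep_of_isBase hb hB (card_Ss _ _ _) h2⟩

/-- Two bases of a matroid of rank `r` can be reordered such that the blocks of `r` consecutive
terms which start in the first basis are bases and any `r - 1` cyclically consecutive terms are
independent; pairs of opposite blocks which are bases for the given orderings, and the sets of the
terms before them, are kept. -/
theorem refine_keep (M : Matroid α) (b b' : Fin r → α)
    (hb : Function.Injective b) (hB : M.IsBase (Set.range b)) (hB' : M.IsBase (Set.range b')) :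
    ∃ σ σ' : Equiv.Perm (Fin r),
      (∀ i : Fin (r + r), i.val ≤ r → M.IsBase (block (b ∘ σ) (b' ∘ σ') i)) ∧
      (∀ i : Fin (r + r), Set.InjOn (Fin.append (b ∘ σ) (b' ∘ σ')) {j | (j - i).val < r - 1} ∧
        M.Indep (Fin.append (b ∘ σ) (b' ∘ σ') '' {j | (j - i).val < r - 1})) ∧
      ∀ m : ℕ, m < r → (∀ j : Fin (r + r), j.val % r = m → M.IsBase (block b b' j)) →
        (∀ j : Fin (r + r), j.val % r = m → M.IsBase (block (b ∘ σ) (b' ∘ σ') j)) ∧
        (∀ i, (σ i).val < m ↔ i.val < m) ∧ ∀ i, (σ' i).val < m ↔ i.val < m := by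
  classical
  obtain ⟨σ, σ', p1, p1', p2, p3⟩ := greedy (M.comap (Sum.elim b b'))
    (card_le_of_indep hb hB) (KK M b b') (zero_mem_KK hb hB hB') (self_mem_KK hb hB hB')
    (fun m hm => hm.1) (fun m hm => hm.2) r le_rfl
  refine ⟨σ, σ', outer hb hB hB' p2, ?_, fun m hmr hm => ⟨keep hb hB p1 p1' m hm,
    p1 m (mem_KK hb hB m hmr hm), p1' m (mem_KK hb hB m hmr hm)⟩⟩
  intro i
  have key : ∃ X : Set (Fin r ⊕ Fin r), (M.comap (Sum.elim b b')).Indep X ∧
      ∀ j : Fin (r + r), (j - i).val < r - 1 →
        (Fin.append (Sum.inl ∘ σ) (Sum.inr ∘ σ') : Fin (r + r) → Fin r ⊕ Fin r) j ∈ X := by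
    rcases Nat.lt_or_ge i.val r with h | h
    · refine ⟨_, p2 i.val h.le, fun j hj => ?_⟩
      rw [← block_Tt _ _ _ h]
      exact ⟨j, by omega, rfl⟩
    · rcases Nat.eq_or_lt_of_le h with h1 | h1
      · refine ⟨Ss σ σ' 0, indep_of_isBase hb hB (card_Ss _ _ _)
          (by rw [image_Ss_zero]; exact hB'), fun j hj => ?_⟩
        have h2 := block_Ss σ σ' i h
        rw [show i.val - r = 0 by omega] at h2
        rw [← h2]
        exact ⟨j, by omega, rfl⟩
      · have hir := i.isLt
        refine ⟨_, p3 ⟨i.val - r - 1, by omega⟩ (by change i.val - r - 1 < r; omega),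
          fun j hj => ?_⟩
        have h2 : (Fin.append (Sum.inl ∘ σ) (Sum.inr ∘ σ') : Fin (r + r) → Fin r ⊕ Fin r) j ∈
            block (Sum.inl ∘ σ) (Sum.inr ∘ σ') i := ⟨j, by omega, rfl⟩
        rw [block_Ss _ _ _ h, Finset.mem_coe] at h2
        rw [Finset.mem_coe, Finset.mem_erase]
        revert h2 hj
        refine Fin.addCases (fun j => ?_) (fun j => ?_) j
        · intro hj h2
          rw [Fin.append_left, Function.comp_apply] at h2 ⊢
          refine ⟨by simp, ?_⟩
          rw [inl_mem_Ss, Equiv.symm_apply_apply] at h2 ⊢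
          have h3 : Fin.castAdd r j < i := by
            rw [Fin.lt_def, Fin.val_castAdd]
            have := j.isLt
            omega
          rw [Fin.coe_sub_iff_lt.mpr h3, Fin.val_castAdd] at hj
          change j.val < i.val - r - 1
          omega
        · intro hj h2
          rw [Fin.append_right, Function.comp_apply] at h2 ⊢
          rw [inr_mem_Ss, Equiv.symm_apply_apply] at h2 ⊢
          constructor
          · intro h3
            rw [Sum.inr.injEq] at h3
            have h4 := σ'.injective h3
            rw [h4] at h2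
            change i.val - r ≤ i.val - r - 1 at h2
            omega
          · change i.val - r - 1 ≤ j.val
            omega
  obtain ⟨X, hX, hjX⟩ := key
  have hsub : (Fin.append (Sum.inl ∘ σ) (Sum.inr ∘ σ') : Fin (r + r) → Fin r ⊕ Fin r) ''
      {j | (j - i).val < r - 1} ⊆ X := by
    rintro _ ⟨j, hj, rfl⟩
    exact hjX j hj
  have h5 := hX.subset hsub
  rw [Matroid.comap_indep_iff] at h5
  rw [append_comp]
  refine ⟨?_, ?_⟩
  · exact h5.2.comp (injective_index σ σ').injOn (Set.mapsTo_image _ _)
  · rw [Set.image_comp]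
    exact h5.1


end Pool.Agent.Gabow87
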