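import Pool.Agent.Gabow87.Three
import Pool.Agent.Gabow87.Refine

/-!
# MP_77f645_co: any three elements of one basis can be exchanged serially

Any three elements of a basis `B'` have a serial symmetric exchange with some three elements of the
basis `B`, inside an ordering which satisfies Gabow's conjecture up to a rank defect of one: `B` and
`B'` can be ordered such that the three given elements are the first three terms of `B'`, the blocks
of `r` cyclically consecutive terms starting at the terms with number `i ≤ r` and at the terms with
number `0, 1, 2, 3` modulo `r` (numbering from `0`) are bases, and any `r - 1` cyclically consecutive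
terms are independent. No assumption on the matroid or the rank.
-/

set_option autoImplicit false

namespace Pool.Agent.Gabow87.AnyThreeH

/-- The block of `r` cyclically consecutive terms, starting with the term number `i`, of the
sequence `u 0, ..., u (r - 1), v 0, ..., v (r - 1)` of length `2 r` (numbered from `0`): the set of
all terms whose number `j` satisfies `(j - i) mod 2 r < r`. -/
def block {α : Type*} {r : ℕ} (u v : Fin r → α) (i : Fin (r + r)) : Set α :=
  {x | ∃ j : Fin (r + r), (j - i).val < r ∧ x = Fin.append u v j}

/-- Let `b` and `b'` list two bases of a matroid of rank `r` (they may share elements), and let `J`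
be a set of three indices. Then `b` and `b'` can be reordered such that the first three terms of
the reordered `b'` are the ones with index in `J`, the blocks which start at a term number `i` with
`i ≤ r` or `i mod r ∈ {0, 1, 2, 3}` are bases, and any `r - 1` cyclically consecutive terms are
distinct and form an independent set. -/
theorem result {α : Type*} (M : Matroid α) {r : ℕ} (b b' : Fin r → α)
    (hb : Function.Injective b) (hb' : Function.Injective b')
    (hB : M.IsBase (Set.range b)) (hB' : M.IsBase (Set.range b'))
    (J : Finset (Fin r)) (hJ : J.card = 3) :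
    ∃ σ σ' : Equiv.Perm (Fin r), (∀ j : Fin r, σ' j ∈ J ↔ j.val < 3) ∧
      (∀ i : Fin (r + r), (i.val ≤ r ∨ i.val % r ≤ 3) →
        M.IsBase (block (b ∘ σ) (b' ∘ σ') i)) ∧
      ∀ i : Fin (r + r), Set.InjOn (Fin.append (b ∘ σ) (b' ∘ σ')) {j | (j - i).val < r - 1} ∧
        M.Indep (Fin.append (b ∘ σ) (b' ∘ σ') '' {j | (j - i).val < r - 1}) := by
  obtain ⟨τ, τ', hτJ, hτ⟩ := Pool.Agent.Gabow87.any_three M b b' hb hb' hB hB' J hJ
  have hbτ : Function.Injective (b ∘ τ) := hb.comp τ.injective
  have hBτ : M.IsBase (Set.range (b ∘ τ)) := by
    rw [τ.surjective.range_comp]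
    exact hB
  have hBτ' : M.IsBase (Set.range (b' ∘ τ')) := by
    rw [τ'.surjective.range_comp]
    exact hB'
  obtain ⟨σ, σ', h1, h2, h3⟩ := Pool.Agent.Gabow87.refine_keep M (b ∘ τ) (b' ∘ τ') hbτ hBτ hBτ'
  have h4 : ∀ i, (σ' i).val < 3 ↔ i.val < 3 := by
    intro i
    rcases Nat.lt_or_ge 3 r with h | h
    · refine (h3 3 h (fun j hj => hτ j ?_)).2.2 i
      rw [hj]
    · exact iff_of_true (by omega) (by omega)
  refine ⟨τ * σ, τ' * σ', ?_, ?_, h2⟩
  · intro j
    rw [← h4 j, ← hτJ]
    rfl
  · intro i hi
    rcases hi with hi | hi
    · exact h1 i hi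
    · have hr : i.val % r < r := Nat.mod_lt _ (by have := i.isLt; omega)
      refine (h3 (i.val % r) hr (fun j hj => hτ j ?_)).1 i rfl
      rw [hj]
      exact hi

end Pool.Agent.Gabow87.AnyThreeH
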