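import Pool.Agent.Gabow87.Sat

/-!
# The clauses of the rank three problem and their meaning
-/

set_option autoImplicit false

namespace Pool.Agent.Gabow87.K3

open Pool.Agent.Gabow87.Sat

/-- Data of a minimal counterexample in rank three, with names `ρ 0, ..., ρ (n - 1)` for elements;
`ρ 0, ρ 1, ρ 2` are the elements of the common base. -/
structure Cx (α : Type*) [DecidableEq α] where
  /-- number of names -/
  n : ℕ
  /-- number of names of the first type -/
  a : ℕ
  /-- number of names of the second type -/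
  b : ℕ
  /-- all elements have names -/
  closed : Bool
  /-- the names -/
  ρ : ℕ → α
  /-- the two families of bases -/
  P : Bool → Finset α → Prop
  /-- spanning pairs of the two lines which belong to an element -/
  A : Bool → ℕ → Finset α
  /-- the element of the common base which belongs to an element -/
  y : ℕ → ℕ
  inj : ∀ i < n, ∀ j < n, ρ i = ρ j → i = j
  card : ∀ s S, P s S → S.card = 3
  exch : ∀ s S T, P s S → P s T → ∀ x ∈ S, x ∉ T → ∃ y ∈ T, y ∉ S ∧ P s (insert y (S.erase x))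
  n5 : 5 + a + b ≤ n
  base : ∀ s, P s {ρ 0, ρ 1, ρ 2}
  hu1 : ∀ s, P s {ρ 1, ρ 2, ρ 3}
  hu2 : ∀ s, P s {ρ 2, ρ 3, ρ 4}
  noch : ∀ p q z, 3 ≤ p → p < n → 3 ≤ q → q < n → 3 ≤ z → z < n → p ≠ q → p ≠ z → q ≠ z →
    ∀ i j k, i < 3 → j < 3 → k < 3 → i ≠ j → i ≠ k → j ≠ k →
      ¬ ∀ s, P s {ρ p, ρ j, ρ k} ∧ P s {ρ p, ρ q, ρ k} ∧ P s {ρ p, ρ q, ρ z}
  tyA : ∀ i, 5 ≤ i → i < 5 + a → ¬ P false {ρ 3, ρ 4, ρ i} ∧ P true {ρ 3, ρ 4, ρ i}
  tyB : ∀ i, 5 + a ≤ i → i < 5 + a + b → ∀ s, ¬ P s {ρ 3, ρ 4, ρ i}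
  tyC : ∀ i, 5 + a + b ≤ i → i < n → P false {ρ 3, ρ 4, ρ i} ∧ ¬ P true {ρ 3, ρ 4, ρ i}
  yl : ∀ x, 3 ≤ x → x < n → y x < 3
  cA : ∀ s x, 3 ≤ x → x < n → (A s x).card = 2
  hA1 : ∀ s x, 3 ≤ x → x < n → P s (insert (ρ x) (A s x))
  hA2 : ∀ s x, 3 ≤ x → x < n → P s (insert (ρ (y x)) (A s x))
  cov : ∀ x z, 3 ≤ x → x < n → z < n → z ≠ x → z ≠ y x →
    ¬ P false (insert (ρ z) (A false x)) ∨ ¬ P true (insert (ρ z) (A true x))
  orth : closed = true → ∀ S T : Finset α, ∀ z < 3, ρ z ∉ S → ρ z ∉ T →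
    P false (insert (ρ z) S) → P true (insert (ρ z) T) →
    ∃ e < n, e ≠ z ∧ ρ e ∉ S ∧ ρ e ∉ T ∧ P false (insert (ρ e) S) ∧ P true (insert (ρ e) T)

namespace Cx

variable {α : Type*} [DecidableEq α] (c : Cx α)

/-! ### Lines -/

theorem not_base_of_line (s : Bool) (x : ℕ) (h3 : 3 ≤ x) (hx : x < c.n) (T : Finset α)
    (hT : ∀ t ∈ T, ¬ c.P s (insert t (c.A s x))) : ¬ c.P s T := by
  intro hPT
  have h1 := c.hA1 s x h3 hx
  have hxT : c.ρ x ∉ T := fun h => hT _ h h1
  have hxA : c.ρ x ∉ c.A s x := by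
    intro h
    have h2 := c.card s _ h1
    rw [Finset.insert_eq_of_mem h, c.cA s x h3 hx] at h2
    omega
  obtain ⟨e, he, -, h2⟩ := c.exch s _ _ h1 hPT (c.ρ x) (Finset.mem_insert_self _ _) hxT
  rw [Finset.erase_insert hxA] at h2
  exact hT e he h2

theorem mem_line_of_mem (s : Bool) (x : ℕ) (h3 : 3 ≤ x) (hx : x < c.n) (t : α)
    (ht : t ∈ c.A s x) : ¬ c.P s (insert t (c.A s x)) := by
  intro h
  have h2 := c.card s _ h
  rw [Finset.insert_eq_of_mem ht, c.cA s x h3 hx] at h2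
  omega

theorem line_closure (s : Bool) (x : ℕ) (h3 : 3 ≤ x) (hx : x < c.n) (p q r t : α)
    (hp : ¬ c.P s (insert p (c.A s x))) (hq : ¬ c.P s (insert q (c.A s x)))
    (hr : c.P s (insert r (c.A s x))) (ht : c.P s {p, q, t}) : c.P s {p, q, r} := by
  by_cases htr : t = r
  · rw [← htr]; exact ht
  have hcard := c.card s _ ht
  have hpq : p ≠ q := by
    rintro rfl
    have : ({p, p, t} : Finset α).card ≤ 2 := by
      rw [Finset.insert_eq_of_mem (Finset.mem_insert_self _ _)]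
      exact Finset.card_le_two
    omega
  have hpt : p ≠ t := by
    rintro rfl
    have : ({p, q, p} : Finset α).card ≤ 2 := by
      rw [Finset.insert_eq_of_mem (by simp)]
      exact Finset.card_le_two
    omega
  have hqt : q ≠ t := by
    rintro rfl
    have : ({p, q, q} : Finset α).card ≤ 2 := by
      have : ({p, q, q} : Finset α) = {p, q} := by ext; simp
      rw [this]; exact Finset.card_le_two
    omega
  have htA : t ∉ c.A s x := by
    intro h
    refine c.not_base_of_line s x h3 hx {p, q, t} ?_ ht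
    intro u hu
    simp only [Finset.mem_insert, Finset.mem_singleton] at hu
    rcases hu with rfl | rfl | rfl
    · exact hp
    · exact hq
    · exact c.mem_line_of_mem s x h3 hx _ h
  obtain ⟨e, he, -, h2⟩ := c.exch s _ _ ht hr t (by simp) (by simp [htr, htA])
  have hset : insert e (({p, q, t} : Finset α).erase t) = {p, q, e} := by
    ext u
    simp only [Finset.mem_insert, Finset.mem_erase, Finset.mem_singleton]
    grind
  rw [hset] at h2
  rcases Finset.mem_insert.mp he with rfl | he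
  · exact h2
  · exfalso
    refine c.not_base_of_line s x h3 hx {p, q, e} ?_ h2
    intro u hu
    simp only [Finset.mem_insert, Finset.mem_singleton] at hu
    rcases hu with rfl | rfl | rfl
    · exact hp
    · exact hq
    · exact c.mem_line_of_mem s x h3 hx _ he

/-- an independent set extends to a base inside its union with a given base -/
theorem aug (s : Bool) (U : Finset α) :
    ∀ (m : ℕ) (W V : Finset α), c.P s W → c.P s V → U ⊆ W → (W \ (U ∪ V)).card ≤ m →
      ∃ W', c.P s W' ∧ U ⊆ W' ∧ W' ⊆ U ∪ V := by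
  intro m
  induction m with
  | zero =>
    intro W V hW hV hU hc
    refine ⟨W, hW, hU, ?_⟩
    have : W \ (U ∪ V) = ∅ := Finset.card_eq_zero.mp (by omega)
    exact Finset.sdiff_eq_empty_iff_subset.mp this
  | succ m ih =>
    intro W V hW hV hU hc
    by_cases h : W ⊆ U ∪ V
    · exact ⟨W, hW, hU, h⟩
    · obtain ⟨x, hxW, hx⟩ := Finset.not_subset.mp h
      rw [Finset.mem_union, not_or] at hx
      obtain ⟨y, hyV, -, h1⟩ := c.exch s W V hW hV x hxW hx.2
      refine ih _ V h1 hV ?_ ?_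
      · intro u hu
        refine Finset.mem_insert_of_mem (Finset.mem_erase.mpr ⟨?_, hU hu⟩)
        rintro rfl
        exact hx.1 hu
      · have hsub : (insert y (W.erase x)) \ (U ∪ V) ⊆ (W \ (U ∪ V)).erase x := by
          intro u hu
          rw [Finset.mem_sdiff, Finset.mem_insert, Finset.mem_erase, Finset.mem_union] at hu
          rw [Finset.mem_erase, Finset.mem_sdiff, Finset.mem_union]
          obtain ⟨h2 | h2, h3⟩ := hu
          · subst h2; exact absurd (Or.inr hyV) h3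
          · exact ⟨h2.1, h2.2, h3⟩
        have h2 := Finset.card_le_card hsub
        have h3 : x ∈ W \ (U ∪ V) := by
          rw [Finset.mem_sdiff, Finset.mem_union, not_or]
          exact ⟨hxW, hx⟩
        rw [Finset.card_erase_of_mem h3] at h2
        have := Finset.card_pos.mpr ⟨x, h3⟩
        omega

theorem nonloop (s : Bool) (p : ℕ) (hp : p < c.n) : ∃ W, c.P s W ∧ c.ρ p ∈ W := by
  rcases Nat.lt_or_ge p 3 with h | h
  · refine ⟨_, c.base s, ?_⟩
    interval_cases p <;> simp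
  · exact ⟨_, c.hA1 s p h hp, Finset.mem_insert_self _ _⟩

theorem line_parallel (s : Bool) (x : ℕ) (h3 : 3 ≤ x) (hx : x < c.n) (p q : ℕ) (hpn : p < c.n)
    (hp : ¬ c.P s (insert (c.ρ p) (c.A s x)))
    (hq : c.P s (insert (c.ρ q) (c.A s x))) :
    ∃ j < 3, j ≠ p ∧ j ≠ q ∧ c.P s {c.ρ p, c.ρ q, c.ρ j} := by
  have hn := c.n5
  obtain ⟨W, hW, hpW⟩ := c.nonloop s p hpn
  have hpq : c.ρ p ≠ c.ρ q := fun h => hp (by rw [h]; exact hq)
  -- a base containing `p` inside `p, q, A`
  obtain ⟨W₁, hW₁, hp1, hs1⟩ := c.aug s {c.ρ p} _ W _ hW hq (by simpa using hpW) le_rfl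
  have hqW₁ : c.ρ q ∈ W₁ := by
    by_contra hc
    refine c.not_base_of_line s x h3 hx W₁ ?_ hW₁
    intro t ht
    have := hs1 ht
    rw [Finset.mem_union, Finset.mem_singleton, Finset.mem_insert] at this
    rcases this with h | h | h
    · rw [h]; exact hp
    · exact absurd (h ▸ ht) hc
    · exact c.mem_line_of_mem s x h3 hx _ h
  have hpW₁ : c.ρ p ∈ W₁ := hp1 (Finset.mem_singleton_self _)
  obtain ⟨W₂, hW₂, hp2, hs2⟩ := c.aug s {c.ρ p, c.ρ q} _ W₁ _ hW₁ (c.base s) (by
    intro t ht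
    rw [Finset.mem_insert, Finset.mem_singleton] at ht
    rcases ht with rfl | rfl
    · exact hpW₁
    · exact hqW₁) le_rfl
  have hcard := c.card s _ hW₂
  obtain ⟨t, ht, htn⟩ : ∃ t ∈ W₂, t ∉ ({c.ρ p, c.ρ q} : Finset α) := by
    by_contra hc
    push Not at hc
    have h1 := Finset.card_le_card (show W₂ ⊆ {c.ρ p, c.ρ q} from hc)
    have h2 := Finset.card_le_two (a := c.ρ p) (b := c.ρ q)
    omega
  have heq : W₂ = {c.ρ p, c.ρ q, t} := by
    symm
    apply Finset.eq_of_subset_of_card_le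
    · intro u hu
      rw [Finset.mem_insert, Finset.mem_insert, Finset.mem_singleton] at hu
      rcases hu with rfl | rfl | rfl
      · exact hp2 (by simp)
      · exact hp2 (by simp)
      · exact ht
    · rw [hcard]
      rw [Finset.mem_insert, Finset.mem_singleton, not_or] at htn
      rw [Finset.card_insert_of_notMem (by
        rw [Finset.mem_insert, Finset.mem_singleton, not_or]; exact ⟨hpq, fun h => htn.1 h.symm⟩),
        Finset.card_insert_of_notMem (by
        rw [Finset.mem_singleton]; exact fun h => htn.2 h.symm), Finset.card_singleton]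
  have ht3 := hs2 ht
  rw [Finset.mem_union] at ht3
  rcases ht3 with h | h
  · exact absurd h htn
  · rw [Finset.mem_insert, Finset.mem_singleton, not_or] at htn
    rw [heq] at hW₂
    rw [Finset.mem_insert, Finset.mem_insert, Finset.mem_singleton] at h
    rcases h with h | h | h
    · exact ⟨0, by omega, fun h' => htn.1 (by rw [h, h']), fun h' => htn.2 (by rw [h, h']),
        h ▸ hW₂⟩
    · exact ⟨1, by omega, fun h' => htn.1 (by rw [h, h']), fun h' => htn.2 (by rw [h, h']),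
        h ▸ hW₂⟩
    · exact ⟨2, by omega, fun h' => htn.1 (by rw [h, h']), fun h' => htn.2 (by rw [h, h']),
        h ▸ hW₂⟩

/-! ### Names of sets -/

/-- the set of the elements whose names are marked by the binary digits of `T` -/
def nm (T : ℕ) : Finset α := ((Finset.range c.n).filter fun i => T.testBit i = true).image c.ρ

theorem nm_or (S T : ℕ) : c.nm (S ||| T) = c.nm S ∪ c.nm T := by
  unfold nm
  rw [← Finset.image_union]
  congr 1
  ext i
  simp only [Finset.mem_filter, Finset.mem_range, Finset.mem_union, Nat.testBit_or,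
    Bool.or_eq_true]
  tauto

theorem nm_bit (i : ℕ) (hi : i < c.n) : c.nm (1 <<< i) = {c.ρ i} := by
  unfold nm
  ext t
  simp only [Finset.mem_image, Finset.mem_filter, Finset.mem_range, testBit_one_shiftLeft',
    decide_eq_true_eq, Finset.mem_singleton]
  constructor
  · rintro ⟨j, ⟨_, rfl⟩, rfl⟩; rfl
  · rintro rfl; exact ⟨i, ⟨hi, rfl⟩, rfl⟩

end Cx

/-- mark of a name -/
def bt (i : ℕ) : ℕ := Nat.shiftLeft 1 i
/-- marks of two names -/
def m2 (a b : ℕ) : ℕ := Nat.lor (bt a) (bt b)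
/-- marks of three names -/
def m3 (a b c : ℕ) : ℕ := Nat.lor (bt a) (m2 b c)

namespace Cx

variable {α : Type*} [DecidableEq α] (c : Cx α)

theorem nm_m2 (a b : ℕ) (ha : a < c.n) (hb : b < c.n) : c.nm (m2 a b) = {c.ρ a, c.ρ b} := by
  have : m2 a b = (1 <<< a) ||| (1 <<< b) := rfl
  rw [this, nm_or, nm_bit c a ha, nm_bit c b hb]
  rfl

theorem nm_m3 (a b d : ℕ) (ha : a < c.n) (hb : b < c.n) (hd : d < c.n) :
    c.nm (m3 a b d) = {c.ρ a, c.ρ b, c.ρ d} := by
  have : m3 a b d = (1 <<< a) ||| m2 b d := rfl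
  rw [this, nm_or, nm_bit c a ha, nm_m2 c b d hb hd]
  rfl

theorem nm_or_bit (S e : ℕ) (he : e < c.n) : c.nm (Nat.lor (bt e) S) = insert (c.ρ e) (c.nm S) := by
  have : Nat.lor (bt e) S = (1 <<< e) ||| S := rfl
  rw [this, nm_or, nm_bit c e he]
  rfl

/-- meaning of the variables -/
def sem (v : VC) : Prop :=
  (v.k = 0 ∧ c.P false (c.nm v.a)) ∨ (v.k = 1 ∧ c.P true (c.nm v.a)) ∨
  (v.k = 2 ∧ ¬ c.P false (insert (c.ρ v.b) (c.A false v.a))) ∨
  (v.k = 3 ∧ ¬ c.P true (insert (c.ρ v.b) (c.A true v.a))) ∨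
  (v.k = 4 ∧ c.y v.a = v.b) ∨
  (v.k = 5 ∧ c.P false (c.nm (Nat.lor (bt v.c) v.a)) ∧ c.P true (c.nm (Nat.lor (bt v.c) v.b)))

end Cx

/-- variable: the set with mark `T` is a base -/
def vD (s : Bool) (T : ℕ) : VC := ⟨cond s 1 0, T, 0, 0⟩
/-- variable: the name `z` lies on the line of `x` -/
def vL (s : Bool) (x z : ℕ) : VC := ⟨cond s 3 2, x, z, 0⟩
/-- variable: `y x = j` -/
def vy (x j : ℕ) : VC := ⟨4, x, j, 0⟩
/-- variable: both `S + e` and `T + e` are bases -/
def vw (S T e : ℕ) : VC := ⟨5, S, T, e⟩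

namespace Cx

variable {α : Type*} [DecidableEq α] (c : Cx α)

theorem sem_vD (s : Bool) (T : ℕ) : c.sem (vD s T) ↔ c.P s (c.nm T) := by
  cases s <;> simp [sem, vD]

theorem sem_vL (s : Bool) (x z : ℕ) : c.sem (vL s x z) ↔ ¬ c.P s (insert (c.ρ z) (c.A s x)) := by
  cases s <;> simp [sem, vL]

theorem sem_vy (x j : ℕ) : c.sem (vy x j) ↔ c.y x = j := by simp [sem, vy]

theorem sem_vw (S T e : ℕ) : c.sem (vw S T e) ↔
    c.P false (c.nm (Nat.lor (bt e) S)) ∧ c.P true (c.nm (Nat.lor (bt e) T)) := by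
  simp [sem, vw]

end Cx

end Pool.Agent.Gabow87.K3
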