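import Pool.Agent.Gabow87.Ax3

/-!
# The axiom clauses of the rank three problem are satisfied
-/

set_option autoImplicit false

namespace Pool.Agent.Gabow87.K3

open Pool.Agent.Gabow87.Sat

/-- the kinds of axiom clauses -/
inductive Ax where
  | Y (s : Bool)
  | u1 (s : Bool)
  | u2 (s : Bool)
  | ex2 (s : Bool) (a b c d e : ℕ)
  | ex3 (s : Bool) (b p q d e f : ℕ)
  | ch (p q z i j k : ℕ)
  | tA (s : Bool) (i : ℕ)
  | tB (s : Bool) (i : ℕ)
  | tC (s : Bool) (i : ℕ)
  | uy (x : ℕ)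
  | uyy (x i j : ℕ)
  | ux (s : Bool) (x : ℕ)
  | uyj (s : Bool) (x j : ℕ)
  | ucy (x z : ℕ)
  | uc (x z : ℕ)
  | u3 (s : Bool) (x p q r : ℕ)
  | u4 (s : Bool) (x p q : ℕ)
  | u5 (s : Bool) (x p q r t : ℕ)
  | O (p q p' q' z : ℕ)
  | w1 (S T e : ℕ)
  | w2 (S T e : ℕ)

/-- `a < b` -/
def lt (a b : ℕ) : Bool := Nat.ble (Nat.succ a) b
/-- `a ≠ b` -/
def ne (a b : ℕ) : Bool := cond (Nat.beq a b) false true

theorem lt_iff {a b : ℕ} : lt a b = true ↔ a < b := by
  unfold lt; rw [Nat.ble_eq]; exact Iff.rfl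
theorem ne_iff {a b : ℕ} : ne a b = true ↔ a ≠ b := by
  unfold ne
  cases h : Nat.beq a b with
  | true => simp [Nat.eq_of_beq_eq_true h]
  | false => simp [Nat.ne_of_beq_eq_false h]

/-- side conditions -/
def valid (n a b : ℕ) (closed : Bool) : Ax → Bool
  | .Y _ => true
  | .u1 _ => true
  | .u2 _ => true
  | .ex2 _ a b c d e => lt a n && lt b n && lt c n && lt d n && lt e n &&
      ne b a && ne b c && ne b d && ne b e
  | .ex3 _ b p q d e f => lt b n && lt p n && lt q n && lt d n && lt e n && lt f n &&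
      ne b p && ne b q && ne b d && ne b e && ne b f
  | .ch p q z i j k => lt 2 p && lt p n && lt 2 q && lt q n && lt 2 z && lt z n && ne p q &&
      ne p z && ne q z && lt i 3 && lt j 3 && lt k 3 && ne i j && ne i k && ne j k
  | .tA _ i => lt 4 i && lt i (5 + a)
  | .tB _ i => lt (4 + a) i && lt i (5 + a + b)
  | .tC _ i => lt (4 + a + b) i && lt i n
  | .uy x => lt 2 x && lt x n
  | .uyy _ i j => ne i j
  | .ux _ x => lt 2 x && lt x n
  | .uyj _ x _ => lt 2 x && lt x n
  | .ucy x z => lt 2 x && lt x n && lt z 3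
  | .uc x z => lt 2 x && lt x n && lt 2 z && lt z n && ne z x
  | .u3 _ x p q r => lt 2 x && lt x n && lt p n && lt q n && lt r n
  | .u4 _ x p q => lt 2 x && lt x n && lt p n && lt q n
  | .u5 _ x p q r t => lt 2 x && lt x n && lt p n && lt q n && lt r n && lt t n
  | .O p q p' q' z => closed && lt p n && lt q n && lt p' n && lt q' n && lt z 3 &&
      ne z p && ne z q && ne z p' && ne z q'
  | .w1 _ _ _ => true
  | .w2 _ _ _ => true

/-- list of the possible witnesses -/
noncomputable def wl (p q p' q' z : ℕ) (n : ℕ) : List (Bool × VC) :=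
  Nat.rec [] (fun e ih => cond (ne e p && (ne e q && (ne e p' && (ne e q' && ne e z))))
    ((true, vw (m2 p q) (m2 p' q') e) :: ih) ih) n

/-- one possible third element -/
def l4 (s : Bool) (p q j : ℕ) (l : List (Bool × VC)) : List (Bool × VC) :=
  cond (ne j p && ne j q) ((true, vD s (m3 p q j)) :: l) l

/-- the literals -/
noncomputable def expd (n : ℕ) : Ax → List (Bool × VC)
  | .Y s => [(true, vD s (m3 0 1 2))]
  | .u1 s => [(true, vD s (m3 1 2 3))]
  | .u2 s => [(true, vD s (m3 2 3 4))]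
  | .ex2 s a b c d e => [(false, vD s (m3 a b c)), (false, vD s (m3 a d e)),
      (true, vD s (m3 a c d)), (true, vD s (m3 a c e))]
  | .ex3 s b p q d e f => [(false, vD s (m3 b p q)), (false, vD s (m3 d e f)),
      (true, vD s (m3 p q d)), (true, vD s (m3 p q e)), (true, vD s (m3 p q f))]
  | .ch p q z _ j k => [(false, vD false (m3 p j k)), (false, vD true (m3 p j k)),
      (false, vD false (m3 p q k)), (false, vD true (m3 p q k)),
      (false, vD false (m3 p q z)), (false, vD true (m3 p q z))]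
  | .tA s i => [(s, vD s (m3 3 4 i))]
  | .tB s i => [(false, vD s (m3 3 4 i))]
  | .tC s i => [(cond s false true, vD s (m3 3 4 i))]
  | .uy x => [(true, vy x 0), (true, vy x 1), (true, vy x 2)]
  | .uyy x i j => [(false, vy x i), (false, vy x j)]
  | .ux s x => [(false, vL s x x)]
  | .uyj s x j => [(false, vy x j), (false, vL s x j)]
  | .ucy x z => [(true, vy x z), (true, vL false x z), (true, vL true x z)]
  | .uc x z => [(true, vL false x z), (true, vL true x z)]
  | .u3 s x p q r => [(false, vD s (m3 p q r)), (false, vL s x p), (false, vL s x q),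
      (false, vL s x r)]
  | .u4 s x p q => (false, vL s x p) :: (true, vL s x q) ::
      l4 s p q 0 (l4 s p q 1 (l4 s p q 2 []))
  | .u5 s x p q r t => [(false, vL s x p), (false, vL s x q), (true, vL s x r),
      (false, vD s (m3 p q t)), (true, vD s (m3 p q r))]
  | .O p q p' q' z => (false, vD false (Nat.lor (bt z) (m2 p q))) ::
      (false, vD true (Nat.lor (bt z) (m2 p' q'))) :: wl p q p' q' z n
  | .w1 S T e => [(false, vw S T e), (true, vD false (Nat.lor (bt e) S))]
  | .w2 S T e => [(false, vw S T e), (true, vD true (Nat.lor (bt e) T))]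

/-- truth of a literal -/
def Cx.tr {α : Type*} [DecidableEq α] (c : Cx α) (p : Bool × VC) : Prop :=
  (p.1 = true ∧ c.sem p.2) ∨ (p.1 = false ∧ ¬ c.sem p.2)

section

variable {α : Type*} [DecidableEq α] (c : Cx α)

theorem tr_true (v : VC) : c.tr (true, v) ↔ c.sem v := by simp [Cx.tr]
theorem tr_false (v : VC) : c.tr (false, v) ↔ ¬ c.sem v := by simp [Cx.tr]

theorem exists_cons (p : Bool × VC) (l : List (Bool × VC)) :
    (∃ q ∈ p :: l, c.tr q) ↔ c.tr p ∨ ∃ q ∈ l, c.tr q := by simp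

theorem exists_nil : (∃ q ∈ ([] : List (Bool × VC)), c.tr q) ↔ False := by simp

theorem l4_sound (s : Bool) (p q j : ℕ) (l : List (Bool × VC))
    (h : (j ≠ p ∧ j ≠ q ∧ c.P s (c.nm (m3 p q j))) ∨ ∃ r ∈ l, c.tr r) :
    ∃ r ∈ l4 s p q j l, c.tr r := by
  unfold l4
  cases hb : (ne j p && ne j q) with
  | true =>
    rw [cond_true, exists_cons, tr_true, Cx.sem_vD]
    rcases h with h | h
    · exact Or.inl h.2.2
    · exact Or.inr h
  | false =>
    rw [cond_false]
    rcases h with h | h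
    · exfalso
      rw [Bool.and_eq_false_iff] at hb
      rcases hb with hb | hb
      · have := ne_iff.mpr h.1
        rw [this] at hb; cases hb
      · have := ne_iff.mpr h.2.1
        rw [this] at hb; cases hb
    · exact h

theorem wl_sound (p q p' q' z n e : ℕ) (he : e < n) (h1 : e ≠ p) (h2 : e ≠ q) (h3 : e ≠ p')
    (h4 : e ≠ q') (h5 : e ≠ z) (hs : c.sem (vw (m2 p q) (m2 p' q') e)) :
    ∃ r ∈ wl p q p' q' z n, c.tr r := by
  induction n with
  | zero => omega
  | succ n ih =>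
    change ∃ r ∈ cond (ne n p && (ne n q && (ne n p' && (ne n q' && ne n z))))
      ((true, vw (m2 p q) (m2 p' q') n) :: wl p q p' q' z n) (wl p q p' q' z n), c.tr r
    rcases Nat.lt_succ_iff_lt_or_eq.mp he with h | h
    · obtain ⟨r, hr, hrt⟩ := ih h
      cases (ne n p && (ne n q && (ne n p' && (ne n q' && ne n z)))) with
      | true => exact ⟨r, List.mem_cons_of_mem _ hr, hrt⟩
      | false => exact ⟨r, hr, hrt⟩
    · subst h
      rw [ne_iff.mpr h1, ne_iff.mpr h2, ne_iff.mpr h3, ne_iff.mpr h4, ne_iff.mpr h5]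
      exact ⟨_, List.mem_cons_self, (tr_true c _).mpr hs⟩

theorem ax_sound (ax : Ax) (hv : valid c.n c.a c.b c.closed ax = true) :
    ∃ p ∈ expd c.n ax, c.tr p := by
  have hn := c.n5
  have em := Classical.em
  cases ax with
  | Y s =>
    rw [expd, exists_cons, tr_true, Cx.sem_vD, c.nm_m3 _ _ _ (by omega) (by omega) (by omega)]
    exact Or.inl (c.base s)
  | u1 s =>
    rw [expd, exists_cons, tr_true, Cx.sem_vD, c.nm_m3 _ _ _ (by omega) (by omega) (by omega)]
    exact Or.inl (c.hu1 s)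
  | u2 s =>
    rw [expd, exists_cons, tr_true, Cx.sem_vD, c.nm_m3 _ _ _ (by omega) (by omega) (by omega)]
    exact Or.inl (c.hu2 s)
  | ex2 s a b d e f =>
    simp only [valid, Bool.and_eq_true, lt_iff, ne_iff] at hv
    obtain ⟨⟨⟨⟨⟨⟨⟨⟨ha, hb⟩, hd⟩, he⟩, hf⟩, nba⟩, nbd⟩, nbe⟩, nbf⟩ := hv
    simp only [expd, exists_cons, exists_nil, tr_true, tr_false, Cx.sem_vD,
      c.nm_m3 _ _ _ ha hb hd, c.nm_m3 _ _ _ ha he hf, c.nm_m3 _ _ _ ha hd he,
      c.nm_m3 _ _ _ ha hd hf]
    by_cases h1 : c.P s {c.ρ a, c.ρ b, c.ρ d}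
    · by_cases h2 : c.P s {c.ρ a, c.ρ e, c.ρ f}
      · have i1 : c.ρ b ≠ c.ρ a := fun h => nba (c.inj _ hb _ ha h)
        have i2 : c.ρ b ≠ c.ρ d := fun h => nbd (c.inj _ hb _ hd h)
        have i3 : c.ρ b ≠ c.ρ e := fun h => nbe (c.inj _ hb _ he h)
        have i4 : c.ρ b ≠ c.ρ f := fun h => nbf (c.inj _ hb _ hf h)
        obtain ⟨y, hy, hyn, h3⟩ := c.exch s _ _ h1 h2 (c.ρ b) (by simp) (by simp [i1, i3, i4])
        have hset : insert y (({c.ρ a, c.ρ b, c.ρ d} : Finset α).erase (c.ρ b)) =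
            {c.ρ a, c.ρ d, y} := by
          ext u
          simp only [Finset.mem_insert, Finset.mem_erase, Finset.mem_singleton]
          grind
        rw [hset] at h3
        rw [Finset.mem_insert, Finset.mem_insert, Finset.mem_singleton] at hy
        rcases hy with rfl | rfl | rfl
        · exact absurd (by simp) hyn
        · tauto
        · tauto
      · tauto
    · tauto
  | ex3 s b p q d e f =>
    simp only [valid, Bool.and_eq_true, lt_iff, ne_iff] at hv
    obtain ⟨⟨⟨⟨⟨⟨⟨⟨⟨⟨hb, hp⟩, hq⟩, hd⟩, he⟩, hf⟩, nbp⟩, nbq⟩, nbd⟩, nbe⟩, nbf⟩ := hv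
    simp only [expd, exists_cons, exists_nil, tr_true, tr_false, Cx.sem_vD,
      c.nm_m3 _ _ _ hb hp hq, c.nm_m3 _ _ _ hd he hf, c.nm_m3 _ _ _ hp hq hd,
      c.nm_m3 _ _ _ hp hq he, c.nm_m3 _ _ _ hp hq hf]
    by_cases h1 : c.P s {c.ρ b, c.ρ p, c.ρ q}
    · by_cases h2 : c.P s {c.ρ d, c.ρ e, c.ρ f}
      · have i1 : c.ρ b ≠ c.ρ p := fun h => nbp (c.inj _ hb _ hp h)
        have i2 : c.ρ b ≠ c.ρ q := fun h => nbq (c.inj _ hb _ hq h)
        have i3 : c.ρ b ≠ c.ρ d := fun h => nbd (c.inj _ hb _ hd h)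
        have i4 : c.ρ b ≠ c.ρ e := fun h => nbe (c.inj _ hb _ he h)
        have i5 : c.ρ b ≠ c.ρ f := fun h => nbf (c.inj _ hb _ hf h)
        obtain ⟨y, hy, hyn, h3⟩ := c.exch s _ _ h1 h2 (c.ρ b) (by simp) (by simp [i3, i4, i5])
        have hset : insert y (({c.ρ b, c.ρ p, c.ρ q} : Finset α).erase (c.ρ b)) =
            {c.ρ p, c.ρ q, y} := by
          ext u
          simp only [Finset.mem_insert, Finset.mem_erase, Finset.mem_singleton]
          grind
        rw [hset] at h3
        rw [Finset.mem_insert, Finset.mem_insert, Finset.mem_singleton] at hy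
        rcases hy with rfl | rfl | rfl <;> tauto
      · tauto
    · tauto
  | ch p q z i j k =>
    simp only [valid, Bool.and_eq_true, lt_iff, ne_iff] at hv
    obtain ⟨⟨⟨⟨⟨⟨⟨⟨⟨⟨⟨⟨⟨⟨p2, pn⟩, q2⟩, qn⟩, z2⟩, zn⟩, npq⟩, npz⟩, nqz⟩, hi⟩, hj⟩, hk⟩, nij⟩,
      nik⟩, njk⟩ := hv
    simp only [expd, exists_cons, exists_nil, tr_false, Cx.sem_vD,
      c.nm_m3 p j k pn (by omega) (by omega), c.nm_m3 p q k pn qn (by omega),
      c.nm_m3 p q z pn qn zn]
    have h := c.noch p q z (by omega) pn (by omega) qn (by omega) zn npq npz nqz i j k hi hj hk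
      nij nik njk
    by_contra hc
    apply h
    intro s
    cases s <;> tauto
  | tA s i =>
    simp only [valid, Bool.and_eq_true, lt_iff] at hv
    have h := c.tyA i (by omega) hv.2
    have h3 := c.nm_m3 3 4 i (by omega) (by omega) (by omega)
    cases s with
    | false =>
      rw [expd, exists_cons, tr_false, Cx.sem_vD, h3]
      exact Or.inl h.1
    | true =>
      rw [expd, exists_cons, tr_true, Cx.sem_vD, h3]
      exact Or.inl h.2
  | tB s i =>
    simp only [valid, Bool.and_eq_true, lt_iff] at hv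
    have h := c.tyB i (by omega) hv.2 s
    have h3 := c.nm_m3 3 4 i (by omega) (by omega) (by omega)
    rw [expd, exists_cons, tr_false, Cx.sem_vD, h3]
    exact Or.inl h
  | tC s i =>
    simp only [valid, Bool.and_eq_true, lt_iff] at hv
    have h := c.tyC i (by omega) hv.2
    have h3 := c.nm_m3 3 4 i (by omega) (by omega) (by omega)
    cases s with
    | false =>
      rw [expd, cond_false, exists_cons, tr_true, Cx.sem_vD, h3]
      exact Or.inl h.1
    | true =>
      rw [expd, cond_true, exists_cons, tr_false, Cx.sem_vD, h3]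
      exact Or.inl h.2
  | uy x =>
    simp only [valid, Bool.and_eq_true, lt_iff] at hv
    have h := c.yl x (by omega) hv.2
    simp only [expd, exists_cons, exists_nil, tr_true, Cx.sem_vy]
    omega
  | uyy x i j =>
    simp only [valid, ne_iff] at hv
    simp only [expd, exists_cons, exists_nil, tr_false, Cx.sem_vy]
    omega
  | ux s x =>
    simp only [valid, Bool.and_eq_true, lt_iff] at hv
    simp only [expd, exists_cons, exists_nil, tr_false, Cx.sem_vL]
    exact Or.inl (not_not.mpr (c.hA1 s x (by omega) hv.2))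
  | uyj s x j =>
    simp only [valid, Bool.and_eq_true, lt_iff] at hv
    simp only [expd, exists_cons, exists_nil, tr_false, Cx.sem_vL, Cx.sem_vy, not_not, or_false]
    by_cases h : c.y x = j
    · right
      rw [← h]
      exact c.hA2 s x (by omega) hv.2
    · exact Or.inl h
  | ucy x z =>
    simp only [valid, Bool.and_eq_true, lt_iff] at hv
    simp only [expd, exists_cons, exists_nil, tr_true, Cx.sem_vL, Cx.sem_vy, or_false]
    by_cases h : c.y x = z
    · exact Or.inl h
    · right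
      exact c.cov x z (by omega) hv.1.2 (by omega) (by omega) (fun h' => h h'.symm)
  | uc x z =>
    simp only [valid, Bool.and_eq_true, lt_iff, ne_iff] at hv
    simp only [expd, exists_cons, exists_nil, tr_true, Cx.sem_vL, or_false]
    have := c.yl x (by omega) hv.1.1.1.2
    exact c.cov x z (by omega) hv.1.1.1.2 hv.1.2 hv.2 (by omega)
  | u3 s x p q r =>
    simp only [valid, Bool.and_eq_true, lt_iff] at hv
    obtain ⟨⟨⟨⟨x2, xn⟩, hp⟩, hq⟩, hr⟩ := hv
    simp only [expd, exists_cons, exists_nil, tr_false, Cx.sem_vL, Cx.sem_vD, not_not, or_false,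
      c.nm_m3 _ _ _ hp hq hr]
    by_contra hc
    push Not at hc
    refine c.not_base_of_line s x (by omega) xn {c.ρ p, c.ρ q, c.ρ r} ?_ hc.1
    intro t ht
    rw [Finset.mem_insert, Finset.mem_insert, Finset.mem_singleton] at ht
    rcases ht with rfl | rfl | rfl
    · exact hc.2.1
    · exact hc.2.2.1
    · exact hc.2.2.2
  | u4 s x p q =>
    simp only [valid, Bool.and_eq_true, lt_iff] at hv
    obtain ⟨⟨⟨x2, xn⟩, hp⟩, hq⟩ := hv
    rw [expd, exists_cons, exists_cons, tr_false, tr_true, Cx.sem_vL, Cx.sem_vL, not_not]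
    by_cases h1 : c.P s (insert (c.ρ p) (c.A s x))
    · exact Or.inl h1
    · by_cases h2 : c.P s (insert (c.ρ q) (c.A s x))
      · right; right
        obtain ⟨j, hj, hjp, hjq, h3⟩ := c.line_parallel s x (by omega) xn p q hp h1 h2
        rw [← c.nm_m3 _ _ _ hp hq (by omega)] at h3
        interval_cases j
        · exact l4_sound c s p q 0 _ (Or.inl ⟨hjp, hjq, h3⟩)
        · exact l4_sound c s p q 0 _ (Or.inr (l4_sound c s p q 1 _ (Or.inl ⟨hjp, hjq, h3⟩)))
        · exact l4_sound c s p q 0 _ (Or.inr (l4_sound c s p q 1 _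
            (Or.inr (l4_sound c s p q 2 _ (Or.inl ⟨hjp, hjq, h3⟩)))))
      · exact Or.inr (Or.inl h2)
  | u5 s x p q r t =>
    simp only [valid, Bool.and_eq_true, lt_iff] at hv
    obtain ⟨⟨⟨⟨⟨x2, xn⟩, hp⟩, hq⟩, hr⟩, ht⟩ := hv
    simp only [expd, exists_cons, exists_nil, tr_false, tr_true, Cx.sem_vL, Cx.sem_vD, not_not,
      or_false, c.nm_m3 _ _ _ hp hq hr, c.nm_m3 _ _ _ hp hq ht]
    by_contra hc
    push Not at hc
    exact hc.2.2.2.2 (c.line_closure s x (by omega) xn _ _ _ _ hc.1 hc.2.1 hc.2.2.1 hc.2.2.2.1)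
  | O p q p' q' z =>
    simp only [valid, Bool.and_eq_true, lt_iff, ne_iff] at hv
    obtain ⟨⟨⟨⟨⟨⟨⟨⟨⟨hcl, hp⟩, hq⟩, hp'⟩, hq'⟩, hz⟩, nzp⟩, nzq⟩, nzp'⟩, nzq'⟩ := hv
    rw [expd, exists_cons, exists_cons, tr_false, tr_false, Cx.sem_vD, Cx.sem_vD,
      c.nm_or_bit _ _ (by omega), c.nm_or_bit _ _ (by omega), c.nm_m2 _ _ hp hq,
      c.nm_m2 _ _ hp' hq']
    by_contra hc
    push Not at hc
    obtain ⟨h1, h2, h3⟩ := hc
    have j1 : c.ρ z ≠ c.ρ p := fun h => nzp (c.inj _ (by omega) _ hp h)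
    have j2 : c.ρ z ≠ c.ρ q := fun h => nzq (c.inj _ (by omega) _ hq h)
    have j3 : c.ρ z ≠ c.ρ p' := fun h => nzp' (c.inj _ (by omega) _ hp' h)
    have j4 : c.ρ z ≠ c.ρ q' := fun h => nzq' (c.inj _ (by omega) _ hq' h)
    obtain ⟨e, he, hez, heS, heT, h4, h5⟩ := c.orth hcl {c.ρ p, c.ρ q} {c.ρ p', c.ρ q'} z hz
      (by simp [j1, j2]) (by simp [j3, j4]) h1 h2
    rw [Finset.mem_insert, Finset.mem_singleton, not_or] at heS heT
    obtain ⟨r, hr, hrt⟩ := wl_sound c p q p' q' z c.n e he (fun h => heS.1 (by rw [h]))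
      (fun h => heS.2 (by rw [h])) (fun h => heT.1 (by rw [h])) (fun h => heT.2 (by rw [h])) hez
      (by
        rw [Cx.sem_vw, c.nm_or_bit _ _ he, c.nm_or_bit _ _ he, c.nm_m2 _ _ hp hq,
          c.nm_m2 _ _ hp' hq']
        exact ⟨h4, h5⟩)
    exact h3 r hr hrt
  | w1 S T e =>
    simp only [expd, exists_cons, exists_nil, tr_false, tr_true, Cx.sem_vw, Cx.sem_vD, or_false]
    by_cases h : c.P false (c.nm (Nat.lor (bt e) S))
    · exact Or.inr h
    · exact Or.inl fun h' => h h'.1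
  | w2 S T e =>
    simp only [expd, exists_cons, exists_nil, tr_false, tr_true, Cx.sem_vw, Cx.sem_vD, or_false]
    by_cases h : c.P true (c.nm (Nat.lor (bt e) T))
    · exact Or.inr h
    · exact Or.inl fun h' => h h'.2

end

end Pool.Agent.Gabow87.K3
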