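import Pool.Agent.Gabow87.Sym

/-!
# Two disjoint members of a doubly total family of pairs of pairs
-/

set_option autoImplicit false

namespace Pool.Agent.Gabow87

variable {α : Type*} [DecidableEq α]

theorem union_card_le_four {Y₁ Y₂ Y₃ : Finset α} (h₁ : Y₁.card = 2) (h₂ : Y₂.card = 2)
    (h₃ : Y₃.card = 2) (h12 : ¬ Disjoint Y₁ Y₂) (h13 : ¬ Disjoint Y₁ Y₃) :
    (Y₁ ∪ Y₂ ∪ Y₃).card ≤ 4 := by
  have e1 : (Y₁ ∩ Y₂).Nonempty := Finset.not_disjoint_iff_nonempty_inter.mp h12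
  have e2 : (Y₁ ∩ Y₃).Nonempty := Finset.not_disjoint_iff_nonempty_inter.mp h13
  have c1 := Finset.card_union_add_card_inter Y₁ Y₂
  have c2 := Finset.card_union_add_card_inter (Y₁ ∪ Y₂) Y₃
  have e3 : ((Y₁ ∪ Y₂) ∩ Y₃).Nonempty :=
    e2.mono (Finset.inter_subset_inter_right Finset.subset_union_left)
  have := e1.card_pos
  have := e3.card_pos
  omega

/-- `T` is a relation between two-element subsets of `B` and of `B'`, total on both sides. Then it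
has two members which are disjoint in both coordinates. -/
theorem comb {B B' : Finset α} (T : Finset α → Finset α → Prop) (hB : 6 ≤ B.card)
    (hB' : 6 ≤ B'.card)
    (hY : ∀ Y ⊆ B', Y.card = 2 → ∃ X ⊆ B, X.card = 2 ∧ T X Y)
    (hX : ∀ X ⊆ B, X.card = 2 → ∃ Y ⊆ B', Y.card = 2 ∧ T X Y) :
    ∃ X ⊆ B, ∃ Y ⊆ B', ∃ X' ⊆ B, ∃ Y' ⊆ B', X.card = 2 ∧ Y.card = 2 ∧ X'.card = 2 ∧
      Y'.card = 2 ∧ T X Y ∧ T X' Y' ∧ Disjoint X X' ∧ Disjoint Y Y' := by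
  by_contra hcon
  have H : ∀ X ⊆ B, ∀ Y ⊆ B', ∀ X' ⊆ B, ∀ Y' ⊆ B', X.card = 2 → Y.card = 2 → X'.card = 2 →
      Y'.card = 2 → T X Y → T X' Y' → Disjoint X X' → Disjoint Y Y' → False := by
    intro X h1 Y h2 X' h3 Y' h4 h5 h6 h7 h8 h9 h10 h11 h12
    exact hcon ⟨X, h1, Y, h2, X', h3, Y', h4, h5, h6, h7, h8, h9, h10, h11, h12⟩
  obtain ⟨X₁, hX₁, c₁⟩ := Finset.exists_subset_card_eq (show 2 ≤ B.card by omega)
  have k1 : (B \ X₁).card = B.card - 2 := by rw [Finset.card_sdiff_of_subset hX₁, c₁]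
  obtain ⟨X₂, hX₂, c₂⟩ := Finset.exists_subset_card_eq (show 2 ≤ (B \ X₁).card by omega)
  have k2 : ((B \ X₁) \ X₂).card = B.card - 4 := by
    rw [Finset.card_sdiff_of_subset hX₂, c₂, k1]; omega
  obtain ⟨X₃, hX₃, c₃⟩ := Finset.exists_subset_card_eq (show 2 ≤ ((B \ X₁) \ X₂).card by omega)
  have hX₂B : X₂ ⊆ B := hX₂.trans Finset.sdiff_subset
  have hX₃B : X₃ ⊆ B := hX₃.trans (Finset.sdiff_subset.trans Finset.sdiff_subset)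
  have d12 : Disjoint X₁ X₂ := (Finset.disjoint_sdiff.mono_right hX₂)
  have d13 : Disjoint X₁ X₃ :=
    Finset.disjoint_sdiff.mono_right (hX₃.trans Finset.sdiff_subset)
  have d23 : Disjoint X₂ X₃ := Finset.disjoint_sdiff.mono_right hX₃
  obtain ⟨Y₁, hY₁, e₁, t₁⟩ := hX X₁ hX₁ c₁
  obtain ⟨Y₂, hY₂, e₂, t₂⟩ := hX X₂ hX₂B c₂
  obtain ⟨Y₃, hY₃, e₃, t₃⟩ := hX X₃ hX₃B c₃
  have n12 : ¬ Disjoint Y₁ Y₂ := fun h =>
    H X₁ hX₁ Y₁ hY₁ X₂ hX₂B Y₂ hY₂ c₁ e₁ c₂ e₂ t₁ t₂ d12 h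
  have n13 : ¬ Disjoint Y₁ Y₃ := fun h =>
    H X₁ hX₁ Y₁ hY₁ X₃ hX₃B Y₃ hY₃ c₁ e₁ c₃ e₃ t₁ t₃ d13 h
  have hU := union_card_le_four e₁ e₂ e₃ n12 n13
  have hU' : Y₁ ∪ Y₂ ∪ Y₃ ⊆ B' := Finset.union_subset (Finset.union_subset hY₁ hY₂) hY₃
  have k3 : (B' \ (Y₁ ∪ Y₂ ∪ Y₃)).card = B'.card - (Y₁ ∪ Y₂ ∪ Y₃).card :=
    Finset.card_sdiff_of_subset hU'
  obtain ⟨Y₄, hY₄, e₄⟩ := Finset.exists_subset_card_eq
    (show 2 ≤ (B' \ (Y₁ ∪ Y₂ ∪ Y₃)).card by omega)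
  have hY₄B : Y₄ ⊆ B' := hY₄.trans Finset.sdiff_subset
  have dU : Disjoint (Y₁ ∪ Y₂ ∪ Y₃) Y₄ := Finset.disjoint_sdiff.mono_right hY₄
  rw [Finset.disjoint_union_left, Finset.disjoint_union_left] at dU
  obtain ⟨X₄, hX₄, c₄, t₄⟩ := hY Y₄ hY₄B e₄
  have m1 : ¬ Disjoint X₁ X₄ := fun h =>
    H X₁ hX₁ Y₁ hY₁ X₄ hX₄ Y₄ hY₄B c₁ e₁ c₄ e₄ t₁ t₄ h dU.1.1
  have m2 : ¬ Disjoint X₂ X₄ := fun h =>
    H X₂ hX₂B Y₂ hY₂ X₄ hX₄ Y₄ hY₄B c₂ e₂ c₄ e₄ t₂ t₄ h dU.1.2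
  have m3 : ¬ Disjoint X₃ X₄ := fun h =>
    H X₃ hX₃B Y₃ hY₃ X₄ hX₄ Y₄ hY₄B c₃ e₃ c₄ e₄ t₃ t₄ h dU.2
  rw [Finset.not_disjoint_iff] at m1 m2 m3
  obtain ⟨a₁, a11, a14⟩ := m1
  obtain ⟨a₂, a22, a24⟩ := m2
  obtain ⟨a₃, a33, a34⟩ := m3
  have n1 : a₁ ≠ a₂ := fun h => Finset.disjoint_left.mp d12 a11 (h ▸ a22)
  have n2 : a₁ ≠ a₃ := fun h => Finset.disjoint_left.mp d13 a11 (h ▸ a33)
  have n3 : a₂ ≠ a₃ := fun h => Finset.disjoint_left.mp d23 a22 (h ▸ a33)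
  have hsub : ({a₁, a₂, a₃} : Finset α) ⊆ X₄ := by
    intro t ht
    simp only [Finset.mem_insert, Finset.mem_singleton] at ht
    rcases ht with rfl | rfl | rfl <;> assumption
  have hc : ({a₁, a₂, a₃} : Finset α).card = 3 := by
    rw [Finset.card_insert_of_notMem (by simp [n1, n2]), Finset.card_insert_of_notMem
      (by simp [n3]), Finset.card_singleton]
  have := Finset.card_le_card hsub
  omega

end Pool.Agent.Gabow87
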