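import Pool.Agent.Gabow87.Exch
import Pool.Agent.Gabow87.Comb

/-!
# From matroids to base predicates; orderings with prescribed first and last terms
-/

set_option autoImplicit false

namespace Pool.Agent.Gabow87

/-- the sum type indexing the terms of the two bases -/
abbrev Idx (r : ℕ) := Fin r ⊕ Fin r

/-- the base predicate on sets of indices -/
def BP {α : Type*} {r : ℕ} (M : Matroid α) (f : Idx r → α) (S : Finset (Idx r)) : Prop :=
  Set.InjOn f (S : Set (Idx r)) ∧ M.IsBase (f '' (S : Set (Idx r)))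

theorem symExch_BP {α : Type*} {r : ℕ} (M : Matroid α) (f : Idx r → α) :
    SymExch (BP M f) := by
  rintro A A' ⟨hiA, hA⟩ ⟨hiA', hA'⟩ z hz' hz
  -- images of sets after an exchange
  have him : ∀ (S : Finset (Idx r)) (a b : Idx r), Set.InjOn f (S : Set (Idx r)) → a ∈ S →
      b ∉ S → (f b ∉ f '' (S : Set (Idx r)) ∨ f b = f a) →
      M.IsBase (insert (f b) (f '' (S : Set (Idx r)) \ {f a})) → BP M f (insert b (S.erase a)) := by
    intro S a b hi ha hb hfb hbase
    have hs : f '' ((insert b (S.erase a) : Finset (Idx r)) : Set (Idx r)) =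
        insert (f b) (f '' (S : Set (Idx r)) \ {f a}) := by
      ext t
      simp only [Finset.coe_insert, Finset.coe_erase, Set.mem_image, Set.mem_insert_iff,
        Set.mem_sdiff, Finset.mem_coe, Set.mem_singleton_iff]
      constructor
      · rintro ⟨u, hu | ⟨hu, hua⟩, rfl⟩
        · left; rw [hu]
        · right
          exact ⟨⟨u, hu, rfl⟩, fun h => hua (hi hu ha h)⟩
      · rintro (h | ⟨⟨u, hu, rfl⟩, hua⟩)
        · exact ⟨b, Or.inl rfl, h.symm⟩
        · exact ⟨u, Or.inr ⟨hu, fun h => hua (by rw [h])⟩, rfl⟩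
    refine ⟨?_, by rw [hs]; exact hbase⟩
    intro u hu v hv huv
    simp only [Finset.coe_insert, Finset.coe_erase, Set.mem_insert_iff, Set.mem_sdiff,
      Finset.mem_coe, Set.mem_singleton_iff] at hu hv
    have hfb' : ∀ w, w ∈ S → w ≠ a → f w ≠ f b := by
      intro w hw hwa h
      rcases hfb with hfb | hfb
      · exact hfb ⟨w, hw, h⟩
      · exact hwa (hi hw ha (h.trans hfb))
    rcases hu with rfl | ⟨hu, hua⟩ <;> rcases hv with rfl | ⟨hv, hva⟩
    · rfl
    · exact (hfb' v hv hva huv.symm).elim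
    · exact (hfb' u hu hua huv).elim
    · exact hi hu hv huv
  by_cases hfz : f z ∈ f '' (A : Set (Idx r))
  · obtain ⟨e, he, hfe⟩ := hfz
    have he' : e ∉ A' := fun h => hz ((hiA' h hz' hfe) ▸ he)
    refine ⟨e, he, he', him A e z hiA he hz (Or.inr hfe.symm) ?_,
      him A' z e hiA' hz' he' (Or.inr hfe) ?_⟩
    · have : insert (f z) (f '' (A : Set (Idx r)) \ {f e}) = f '' (A : Set (Idx r)) := by
        rw [← hfe, Set.insert_sdiff_singleton, Set.insert_eq_of_mem]
        exact ⟨e, he, rfl⟩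
      rw [this]; exact hA
    · have : insert (f e) (f '' (A' : Set (Idx r)) \ {f z}) = f '' (A' : Set (Idx r)) := by
        rw [hfe, Set.insert_sdiff_singleton, Set.insert_eq_of_mem]
        exact ⟨z, hz', rfl⟩
      rw [this]; exact hA'
  · obtain ⟨e', ⟨e, he, rfl⟩, he2, h1, h2⟩ := symm_exchange hA hA' (z := f z) ⟨z, hz', rfl⟩ hfz
    have he' : e ∉ A' := fun h => he2 ⟨e, h, rfl⟩
    exact ⟨e, he, he', him A e z hiA he hz (Or.inl hfz) h1,
      him A' z e hiA' hz' he' (Or.inl he2) h2⟩

end Pool.Agent.Gabow87
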