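import Mathlib

/-!
# Symmetric exchange in matroids
-/

set_option autoImplicit false

namespace Pool.Agent.Gabow87

theorem symm_exchange {α : Type*} {M : Matroid α} {A A' : Set α} (hA : M.IsBase A)
    (hA' : M.IsBase A') {z : α} (hz' : z ∈ A') (hz : z ∉ A) :
    ∃ e ∈ A, e ∉ A' ∧ M.IsBase (insert z (A \ {e})) ∧ M.IsBase (insert e (A' \ {z})) := by
  have hzE : z ∈ M.E := hA'.subset_ground hz'
  have hC := hA.fundCircuit_isCircuit hzE hz
  have hK := Matroid.fundCocircuit_isCocircuit hz' hA'
  have hzCK : z ∈ M.fundCircuit z A ∩ M.fundCocircuit z A' :=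
    ⟨M.mem_fundCircuit _ _, M.mem_fundCocircuit _ _⟩
  have hne := hC.inter_isCocircuit_ne_singleton hK (e := z)
  obtain ⟨e, he, hez⟩ : ∃ e ∈ M.fundCircuit z A ∩ M.fundCocircuit z A', e ≠ z := by
    by_contra h
    push Not at h
    exact hne (Set.eq_singleton_iff_unique_mem.mpr ⟨hzCK, h⟩)
  have heA : e ∈ A := by
    have := M.fundCircuit_subset_insert z A he.1
    exact this.resolve_left hez
  have heA' : e ∉ A' := by
    intro h
    have := (M.fundCocircuit_inter_eq hz').subset ⟨he.2, h⟩
    exact hez this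
  have heE : e ∈ M.E := hA.subset_ground heA
  refine ⟨e, heA, heA', ?_, ?_⟩
  · have h1 := (hA.indep.mem_fundCircuit_iff (by rwa [hA.closure_eq]) hz).mp he.1
    have h2 := hA.exchange_isBase_of_indep' heA hz h1
    rwa [← Set.insert_sdiff_singleton_comm hez.symm] at h2
  · have h0 : z ∈ M.fundCircuit e A' := hA'.mem_fundCocircuit_iff_mem_fundCircuit.mp he.2
    have h1 := (hA'.indep.mem_fundCircuit_iff (by rwa [hA'.closure_eq]) heA').mp h0
    have h2 := hA'.exchange_isBase_of_indep' hz' heA' h1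
    rwa [← Set.insert_sdiff_singleton_comm hez] at h2

end Pool.Agent.Gabow87
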