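import Pool.Agent.Gabow87.Main6

/-!
# MP_77f645_co: ten of the blocks in Gabow's cyclic ordering conjecture

For every matroid of rank `r ≥ 6` and every two bases `B`, `B'` there are orderings of `B` and `B'`
for which the blocks of `r` cyclically consecutive terms starting at the terms with number
`0, 1, 2, r - 2, r - 1` modulo `r` (numbering from `0`) are bases.
-/

set_option autoImplicit false

namespace Pool.Agent.Results.MP_77f645_co.OuterBlocks

/-- The block of `r` cyclically consecutive terms, starting with the term number `i`, of the
sequence `u 0, ..., u (r - 1), v 0, ..., v (r - 1)` of length `2 r` (numbered from `0`): the set of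
all terms whose number `j` satisfies `(j - i) mod 2 r < r`. -/
def block {α : Type*} {r : ℕ} (u v : Fin r → α) (i : Fin (r + r)) : Set α :=
  {x | ∃ j : Fin (r + r), (j - i).val < r ∧ x = Fin.append u v j}

/-- Let `b` and `b'` list two bases of a matroid of rank `r ≥ 6` (they may share elements). Then
they can be reordered such that the ten blocks which start at a term number `i` with
`i mod r ∈ {0, 1, 2, r - 2, r - 1}` are bases. -/
theorem result {α : Type*} (M : Matroid α) {r : ℕ} (hr : 6 ≤ r) (b b' : Fin r → α)
    (hb : Function.Injective b) (hb' : Function.Injective b')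
    (hB : M.IsBase (Set.range b)) (hB' : M.IsBase (Set.range b')) :
    ∃ σ σ' : Equiv.Perm (Fin r), ∀ i : Fin (r + r),
      (i.val % r = 0 ∨ i.val % r = 1 ∨ i.val % r = 2 ∨ i.val % r = r - 2 ∨ i.val % r = r - 1) →
      M.IsBase (block (b ∘ σ) (b' ∘ σ') i) :=
  Pool.Agent.Gabow87.main6 M hr b b' hb hb' hB hB'

end Pool.Agent.Results.MP_77f645_co.OuterBlocks
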