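import Mathlib

/-!
# Two levels of a serial symmetric exchange

Abstract base predicates on finite sets with the symmetric exchange property; the rank two
argument which finds a good pair containing a good single with prescribed second coordinate.
-/

set_option autoImplicit false

namespace Pool.Agent.Gabow87

/-- The combinatorial core: two symmetric relations on `V`, each of them the set of bases of a
matroid of rank two, which satisfy orthogonality of circuits and cocircuits. -/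
theorem core {V : Type*} (P Q : V → V → Prop) (hPi : ∀ a, ¬ P a a) (hQi : ∀ a, ¬ Q a a)
    (hPs : ∀ a b, P a b → P b a) (hQs : ∀ a b, Q a b → Q b a)
    (hPe : ∀ a b c d, P a b → P c d → P a c ∨ P a d)
    (hQe : ∀ a b c d, Q a b → Q c d → Q a c ∨ Q a d)
    (hO : ∀ u w z, P u z → Q w z → ∃ e, e ≠ z ∧ P u e ∧ Q w e)
    (y₁ y₂ : V) (hP : P y₁ y₂) (hQ : Q y₁ y₂) :
    ∃ x e, x ≠ y₁ ∧ x ≠ y₂ ∧ e ≠ y₁ ∧ e ≠ y₂ ∧ x ≠ e ∧ (P x e ∧ Q x e) ∧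
      ((P x y₁ ∧ Q x y₁) ∨ (P x y₂ ∧ Q x y₂)) := by
  by_contra hcon
  have H : ∀ x e, x ≠ y₁ → x ≠ y₂ → e ≠ y₁ → e ≠ y₂ → P x e → Q x e →
      ((P x y₁ ∧ Q x y₁) ∨ (P x y₂ ∧ Q x y₂)) → False := by
    intro x e h1 h2 h3 h4 h5 h6 h7
    exact hcon ⟨x, e, h1, h2, h3, h4, fun h => hPi _ (h ▸ h5), ⟨h5, h6⟩, h7⟩
  clear hcon
  have hne : ∀ a b, P a b → a ≠ b := fun a b h h' => hPi _ (h' ▸ h)
  have hne' : ∀ a b, Q a b → a ≠ b := fun a b h h' => hQi _ (h' ▸ h)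
  have hy : y₁ ≠ y₂ := hne _ _ hP
  -- partners of `y₁` and of `y₂` agree
  have hA : ∀ x, x ≠ y₂ → P x y₁ → Q x y₁ → P x y₂ ∧ Q x y₂ := by
    intro x hx h1 h2
    obtain ⟨e, he, h3, h4⟩ := hO x x y₁ h1 h2
    by_cases h : e = y₂
    · exact h ▸ ⟨h3, h4⟩
    · exact (H x e (hne _ _ h1) hx he h h3 h4 (Or.inl ⟨h1, h2⟩)).elim
  have hA' : ∀ x, x ≠ y₁ → P x y₂ → Q x y₂ → P x y₁ ∧ Q x y₁ := by
    intro x hx h1 h2
    obtain ⟨e, he, h3, h4⟩ := hO x x y₂ h1 h2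
    by_cases h : e = y₁
    · exact h ▸ ⟨h3, h4⟩
    · exact (H x e hx (hne _ _ h1) h he h3 h4 (Or.inr ⟨h1, h2⟩)).elim
  set N : Set V := {x | x ≠ y₁ ∧ x ≠ y₂ ∧ P x y₁ ∧ Q x y₁ ∧ P x y₂ ∧ Q x y₂} with hN
  have hN1 : ∀ x, x ≠ y₂ → P x y₁ → Q x y₁ → x ∈ N := fun x hx h1 h2 =>
    ⟨hne _ _ h1, hx, h1, h2, hA x hx h1 h2⟩
  have hN2 : ∀ x, x ≠ y₁ → P x y₂ → Q x y₂ → x ∈ N := fun x hx h1 h2 =>
    ⟨hx, hne _ _ h1, (hA' x hx h1 h2).1, (hA' x hx h1 h2).2, h1, h2⟩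
  obtain ⟨x₀, hx₀⟩ : ∃ x, x ∈ N := by
    obtain ⟨e, he, h3, h4⟩ := hO y₁ y₁ y₂ hP hQ
    exact ⟨e, hN1 e he (hPs _ _ h3) (hQs _ _ h4)⟩
  have hNN : ∀ x ∈ N, ∀ x' ∈ N, P x x' → Q x x' → False := fun x hx x' hx' h1 h2 =>
    H x x' hx.1 hx.2.1 hx'.1 hx'.2.1 h1 h2 (Or.inl ⟨hx.2.2.1, hx.2.2.2.1⟩)
  have htot : (∀ x ∈ N, ∀ x' ∈ N, ¬ P x x') ∨ (∀ x ∈ N, ∀ x' ∈ N, ¬ Q x x') := by
    by_contra h
    push Not at h
    obtain ⟨⟨a, ha, b, hb, hab⟩, c, hc, d, hd, hcd⟩ := h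
    -- first case for `P c a`
    have key : ∀ a ∈ N, P c a → False := by
      intro a ha hca
      have h1 : Q a c ∨ Q a d := hQe a y₁ c d ha.2.2.2.1 hcd
      rcases h1 with h1 | h1
      · exact hNN c hc a ha hca (hQs _ _ h1)
      · have h2 : ¬ P a d := fun h => hNN a ha d hd h h1
        have h3 : ¬ P c d := fun h => hNN c hc d hd h hcd
        rcases hPe d y₁ c a hd.2.2.1 hca with h | h
        · exact h3 (hPs _ _ h)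
        · exact h2 (hPs _ _ h)
    rcases hPe c y₁ a b hc.2.2.1 hab with h | h
    · exact key a ha h
    · exact key b hb h
  rcases htot with ht | ht
  · obtain ⟨e, he, h1, h2⟩ := hO x₀ y₂ y₁ hx₀.2.2.1 (hQs _ _ hQ)
    have he2 : e ≠ y₂ := fun h => hQi _ (h ▸ h2)
    have heN : e ∉ N := fun h => ht x₀ hx₀ e h h1
    have h3 : ¬ P e y₂ := fun h => heN (hN2 e he h (hQs _ _ h2))
    have h4 : P e y₁ := (hPe e x₀ y₁ y₂ (hPs _ _ h1) hP).resolve_right h3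
    have h5 : ¬ Q e y₁ := fun h => heN (hN1 e he2 h4 h)
    have h6 : Q e x₀ := (hQe e y₂ x₀ y₁ (hQs _ _ h2) hx₀.2.2.2.1).resolve_right h5
    exact H x₀ e hx₀.1 hx₀.2.1 he he2 h1 (hQs _ _ h6) (Or.inl ⟨hx₀.2.2.1, hx₀.2.2.2.1⟩)
  · obtain ⟨e, he, h1, h2⟩ := hO y₂ x₀ y₁ (hPs _ _ hP) hx₀.2.2.2.1
    have he2 : e ≠ y₂ := fun h => hPi _ (h ▸ h1)
    have heN : e ∉ N := fun h => ht x₀ hx₀ e h h2
    have h3 : ¬ Q e y₂ := fun h => heN (hN2 e he (hPs _ _ h1) h)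
    have h4 : Q e y₁ := (hQe e x₀ y₁ y₂ (hQs _ _ h2) hQ).resolve_right h3
    have h5 : ¬ P e y₁ := fun h => heN (hN1 e he2 h h4)
    have h6 : P e x₀ := (hPe e y₂ x₀ y₁ (hPs _ _ h1) hx₀.2.2.1).resolve_right h5
    exact H x₀ e hx₀.1 hx₀.2.1 he he2 (hPs _ _ h6) h2 (Or.inl ⟨hx₀.2.2.1, hx₀.2.2.2.1⟩)

end Pool.Agent.Gabow87
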