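import Pool.Agent.Gabow87.Refute

/-!
# Pairs of matroids with orthogonal cocircuits; deletion-minimal counterexamples
-/

set_option autoImplicit false

namespace Pool.Agent.Gabow87

variable {α : Type*} [DecidableEq α]

/-- Two families of bases (of matroids of rank `k`) on `B ∪ Y` with a common base `Y`, such that no
element of `Y` is the only common element of a cocircuit of the first and a cocircuit of the second
matroid. -/
structure PairSys (k : ℕ) (B Y : Finset α) (P : Bool → Finset α → Prop) : Prop where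
  sub : ∀ s S, P s S → S ⊆ B ∪ Y
  card : ∀ s S, P s S → S.card = k
  exch : ∀ s S T, P s S → P s T → ∀ x ∈ S, x ∉ T → ∃ y ∈ T, y ∉ S ∧ P s (insert y (S.erase x))
  disj : Disjoint B Y
  base : ∀ s, P s Y
  orth : ∀ S T, P false S → P true T → ∀ z ∈ Y, z ∈ S → z ∈ T →
    ∃ e ∈ B ∪ Y, e ∉ S ∧ e ∉ T ∧ P false (insert e (S.erase z)) ∧ P true (insert e (T.erase z))

/-- exchange of the two families -/
theorem PairSys.swap {k : ℕ} {B Y : Finset α} {P : Bool → Finset α → Prop}
    (h : PairSys k B Y P) : PairSys k B Y (fun s => P (!s)) where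
  sub s := h.sub _
  card s := h.card _
  exch s := h.exch _
  disj := h.disj
  base s := h.base _
  orth S T hS hT z hz hzS hzT := by
    obtain ⟨e, he, h1, h2, h3, h4⟩ := h.orth T S hT hS z hz hzT hzS
    exact ⟨e, he, h2, h1, h4, h3⟩

/-- If an element of `B` can not be deleted, it is the only further common element of two
cocircuits. -/
theorem PairSys.min_data {k : ℕ} {B Y : Finset α} {P : Bool → Finset α → Prop}
    (h : PairSys k B Y P) (hk : 1 ≤ k) {x : α} (hx : x ∈ B)
    (hn : ¬ PairSys k (B.erase x) Y (fun s S => P s S ∧ x ∉ S)) :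
    ∃ (A : Bool → Finset α) (z : α), z ∈ Y ∧ (∀ s, (A s).card = k - 1) ∧
      (∀ s, P s (insert x (A s))) ∧ (∀ s, P s (insert z (A s))) ∧
      ∀ t, t ≠ x → t ≠ z → ¬ P false (insert t (A false)) ∨ ¬ P true (insert t (A true)) := by
  have hxY : x ∉ Y := fun h' => Finset.disjoint_left.mp h.disj hx h'
  by_contra hc
  apply hn
  refine ⟨?_, fun s S hS => h.card s S hS.1, ?_, ?_, fun s => ⟨h.base s, hxY⟩, ?_⟩
  · intro s S hS t ht
    have h1 := h.sub s S hS.1 ht
    rw [Finset.mem_union] at h1 ⊢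
    rcases h1 with h1 | h1
    · left
      refine Finset.mem_erase.mpr ⟨?_, h1⟩
      rintro rfl
      exact hS.2 ht
    · exact Or.inr h1
  · intro s S T hS hT u hu huT
    obtain ⟨y, hy, hyS, h1⟩ := h.exch s S T hS.1 hT.1 u hu huT
    refine ⟨y, hy, hyS, h1, ?_⟩
    rw [Finset.mem_insert, not_or]
    exact ⟨fun h' => hT.2 (h' ▸ hy), fun h' => hS.2 (Finset.mem_of_mem_erase h')⟩
  · exact Finset.disjoint_of_subset_left (Finset.erase_subset _ _) h.disj
  · intro S T hS hT z hz hzS hzT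
    by_contra hno
    apply hc
    obtain ⟨e, he, heS, heT, h1, h2⟩ := h.orth S T hS.1 hT.1 z hz hzS hzT
    have hex : e = x := by
      by_contra hex
      apply hno
      refine ⟨e, ?_, heS, heT, ⟨h1, ?_⟩, h2, ?_⟩
      · rw [Finset.mem_union, Finset.mem_erase]
        rw [Finset.mem_union] at he
        tauto
      · rw [Finset.mem_insert, not_or]
        exact ⟨fun h' => hex h'.symm, fun h' => hS.2 (Finset.mem_of_mem_erase h')⟩
      · rw [Finset.mem_insert, not_or]
        exact ⟨fun h' => hex h'.symm, fun h' => hT.2 (Finset.mem_of_mem_erase h')⟩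
    subst hex
    refine ⟨fun s => cond s (T.erase z) (S.erase z), z, hz, ?_, ?_, ?_, ?_⟩
    · intro s
      cases s with
      | false =>
        change (S.erase z).card = k - 1
        rw [Finset.card_erase_of_mem hzS, h.card _ _ hS.1]
      | true =>
        change (T.erase z).card = k - 1
        rw [Finset.card_erase_of_mem hzT, h.card _ _ hT.1]
    · intro s
      cases s with
      | false => exact h1
      | true => exact h2
    · intro s
      cases s with
      | false =>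
        change P false (insert z (S.erase z))
        rw [Finset.insert_erase hzS]; exact hS.1
      | true =>
        change P true (insert z (T.erase z))
        rw [Finset.insert_erase hzT]; exact hT.1
    · intro t htx htz
      by_contra hboth
      push Not at hboth
      obtain ⟨b1, b2⟩ := hboth
      simp only [cond_false, cond_true] at b1 b2
      have htS : t ∉ S := by
        intro h'
        have : t ∈ S.erase z := Finset.mem_erase.mpr ⟨htz, h'⟩
        rw [Finset.insert_eq_of_mem this] at b1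
        have h3 := h.card _ _ b1
        rw [Finset.card_erase_of_mem hzS, h.card _ _ hS.1] at h3
        omega
      have htT : t ∉ T := by
        intro h'
        have : t ∈ T.erase z := Finset.mem_erase.mpr ⟨htz, h'⟩
        rw [Finset.insert_eq_of_mem this] at b2
        have h3 := h.card _ _ b2
        rw [Finset.card_erase_of_mem hzT, h.card _ _ hT.1] at h3
        omega
      have htE := h.sub _ _ b1 (Finset.mem_insert_self _ _)
      apply hno
      refine ⟨t, ?_, htS, htT, ⟨b1, ?_⟩, b2, ?_⟩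
      · rw [Finset.mem_union, Finset.mem_erase]
        rw [Finset.mem_union] at htE
        tauto
      · rw [Finset.mem_insert, not_or]
        exact ⟨fun h' => htx h'.symm, fun h' => hS.2 (Finset.mem_of_mem_erase h')⟩
      · rw [Finset.mem_insert, not_or]
        exact ⟨fun h' => htx h'.symm, fun h' => hT.2 (Finset.mem_of_mem_erase h')⟩

/-- two symmetric relations, each of them the set of bases of a matroid of rank two, with the
orthogonality property for `y₁` and `y₂` -/
theorem core' {V : Type*} (P Q : V → V → Prop) (hPi : ∀ a, ¬ P a a) (hQi : ∀ a, ¬ Q a a)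
    (hPs : ∀ a b, P a b → P b a) (hQs : ∀ a b, Q a b → Q b a)
    (hPe : ∀ a b c d, P a b → P c d → P a c ∨ P a d)
    (hQe : ∀ a b c d, Q a b → Q c d → Q a c ∨ Q a d)
    (y₁ y₂ : V)
    (hO : ∀ u w z, (z = y₁ ∨ z = y₂) → P u z → Q w z → ∃ e, e ≠ z ∧ P u e ∧ Q w e)
    (hP : P y₁ y₂) (hQ : Q y₁ y₂) :
    ∃ x e, x ≠ y₁ ∧ x ≠ y₂ ∧ e ≠ y₁ ∧ e ≠ y₂ ∧ x ≠ e ∧ (P x e ∧ Q x e) ∧
      ((P x y₁ ∧ Q x y₁) ∨ (P x y₂ ∧ Q x y₂)) := by
  by_contra hcon
  have H : ∀ x e, x ≠ y₁ → x ≠ y₂ → e ≠ y₁ → e ≠ y₂ → P x e → Q x e →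
      ((P x y₁ ∧ Q x y₁) ∨ (P x y₂ ∧ Q x y₂)) → False := by
    intro x e h1 h2 h3 h4 h5 h6 h7
    exact hcon ⟨x, e, h1, h2, h3, h4, fun h => hPi _ (h ▸ h5), ⟨h5, h6⟩, h7⟩
  clear hcon
  have hne : ∀ a b, P a b → a ≠ b := fun a b h h' => hPi _ (h' ▸ h)
  have hA : ∀ x, x ≠ y₂ → P x y₁ → Q x y₁ → P x y₂ ∧ Q x y₂ := by
    intro x hx h1 h2
    obtain ⟨e, he, h3, h4⟩ := hO x x y₁ (Or.inl rfl) h1 h2
    by_cases h : e = y₂
    · exact h ▸ ⟨h3, h4⟩
    · exact (H x e (hne _ _ h1) hx he h h3 h4 (Or.inl ⟨h1, h2⟩)).elim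
  have hA' : ∀ x, x ≠ y₁ → P x y₂ → Q x y₂ → P x y₁ ∧ Q x y₁ := by
    intro x hx h1 h2
    obtain ⟨e, he, h3, h4⟩ := hO x x y₂ (Or.inr rfl) h1 h2
    by_cases h : e = y₁
    · exact h ▸ ⟨h3, h4⟩
    · exact (H x e hx (hne _ _ h1) h he h3 h4 (Or.inr ⟨h1, h2⟩)).elim
  set N : Set V := {x | x ≠ y₁ ∧ x ≠ y₂ ∧ P x y₁ ∧ Q x y₁ ∧ P x y₂ ∧ Q x y₂} with hN
  have hN1 : ∀ x, x ≠ y₂ → P x y₁ → Q x y₁ → x ∈ N := fun x hx h1 h2 =>
    ⟨hne _ _ h1, hx, h1, h2, hA x hx h1 h2⟩
  have hN2 : ∀ x, x ≠ y₁ → P x y₂ → Q x y₂ → x ∈ N := fun x hx h1 h2 =>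
    ⟨hx, hne _ _ h1, (hA' x hx h1 h2).1, (hA' x hx h1 h2).2, h1, h2⟩
  obtain ⟨x₀, hx₀⟩ : ∃ x, x ∈ N := by
    obtain ⟨e, he, h3, h4⟩ := hO y₁ y₁ y₂ (Or.inr rfl) hP hQ
    exact ⟨e, hN1 e he (hPs _ _ h3) (hQs _ _ h4)⟩
  have hNN : ∀ x ∈ N, ∀ x' ∈ N, P x x' → Q x x' → False := fun x hx x' hx' h1 h2 =>
    H x x' hx.1 hx.2.1 hx'.1 hx'.2.1 h1 h2 (Or.inl ⟨hx.2.2.1, hx.2.2.2.1⟩)
  have htot : (∀ x ∈ N, ∀ x' ∈ N, ¬ P x x') ∨ (∀ x ∈ N, ∀ x' ∈ N, ¬ Q x x') := by
    by_contra h
    push Not at h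
    obtain ⟨⟨a, ha, b, hb, hab⟩, c, hc, d, hd, hcd⟩ := h
    have key : ∀ a ∈ N, P c a → False := by
      intro a ha hca
      have h1 : Q a c ∨ Q a d := hQe a y₁ c d ha.2.2.2.1 hcd
      rcases h1 with h1 | h1
      · exact hNN c hc a ha hca (hQs _ _ h1)
      · have h2 : ¬ P a d := fun h => hNN a ha d hd h h1
        have h3 : ¬ P c d := fun h => hNN c hc d hd h hcd
        rcases hPe d y₁ c a hd.2.2.1 hca with h | h
        · exact h3 (hPs _ _ h)
        · exact h2 (hPs _ _ h)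
    rcases hPe c y₁ a b hc.2.2.1 hab with h | h
    · exact key a ha h
    · exact key b hb h
  rcases htot with ht | ht
  · obtain ⟨e, he, h1, h2⟩ := hO x₀ y₂ y₁ (Or.inl rfl) hx₀.2.2.1 (hQs _ _ hQ)
    have he2 : e ≠ y₂ := fun h => hQi _ (h ▸ h2)
    have heN : e ∉ N := fun h => ht x₀ hx₀ e h h1
    have h3 : ¬ P e y₂ := fun h => heN (hN2 e he h (hQs _ _ h2))
    have h4 : P e y₁ := (hPe e x₀ y₁ y₂ (hPs _ _ h1) hP).resolve_right h3
    have h5 : ¬ Q e y₁ := fun h => heN (hN1 e he2 h4 h)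
    have h6 : Q e x₀ := (hQe e y₂ x₀ y₁ (hQs _ _ h2) hx₀.2.2.2.1).resolve_right h5
    exact H x₀ e hx₀.1 hx₀.2.1 he he2 h1 (hQs _ _ h6) (Or.inl ⟨hx₀.2.2.1, hx₀.2.2.2.1⟩)
  · obtain ⟨e, he, h1, h2⟩ := hO y₂ x₀ y₁ (Or.inl rfl) (hPs _ _ hP) hx₀.2.2.2.1
    have he2 : e ≠ y₂ := fun h => hPi _ (h ▸ h1)
    have heN : e ∉ N := fun h => ht x₀ hx₀ e h h2
    have h3 : ¬ Q e y₂ := fun h => heN (hN2 e he (hPs _ _ h1) h)
    have h4 : Q e y₁ := (hQe e x₀ y₁ y₂ (hQs _ _ h2) hQ).resolve_right h3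
    have h5 : ¬ P e y₁ := fun h => heN (hN1 e he2 h h4)
    have h6 : P e x₀ := (hPe e y₂ x₀ y₁ (hPs _ _ h1) hx₀.2.2.1).resolve_right h5
    exact H x₀ e hx₀.1 hx₀.2.1 he he2 (hPs _ _ h6) h2 (Or.inl ⟨hx₀.2.2.1, hx₀.2.2.2.1⟩)

/-- Contraction of one element of `Y`: a chain of length two. -/
theorem chain_two {B Y : Finset α} {P : Bool → Finset α → Prop} (h : PairSys 3 B Y P)
    {a b c : α} (hY : Y = {a, b, c}) (hab : a ≠ b) (hac : a ≠ c) (hbc : b ≠ c) :
    ∃ x ∈ B, ∃ e ∈ B, x ≠ e ∧ (∀ s, P s {c, x, e}) ∧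
      ((∀ s, P s {c, x, a}) ∨ (∀ s, P s {c, x, b})) := by
  have hset : ∀ s (u v : α), P s {c, u, v} → u ≠ v ∧ u ≠ c ∧ v ≠ c := by
    intro s u v huv
    have h3 := h.card _ _ huv
    refine ⟨?_, ?_, ?_⟩
    · rintro rfl
      have : ({c, u, u} : Finset α) = {c, u} := by ext; simp
      rw [this] at h3
      have := Finset.card_le_two (a := c) (b := u)
      omega
    · rintro rfl
      rw [Finset.insert_eq_of_mem (Finset.mem_insert_self _ _)] at h3
      have := Finset.card_le_two (a := u) (b := v)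
      omega
    · rintro rfl
      rw [Finset.insert_eq_of_mem (by simp)] at h3
      have := Finset.card_le_two (a := u) (b := v)
      omega
  have hsym : ∀ s (u v : α), P s {c, u, v} → P s {c, v, u} := by
    intro s u v huv
    rwa [show ({c, v, u} : Finset α) = {c, u, v} by ext; simp; tauto]
  have hex : ∀ s (u v w t : α), P s {c, u, v} → P s {c, w, t} → P s {c, u, w} ∨ P s {c, u, t} := by
    intro s u v w t h1 h2
    obtain ⟨huv, huc, hvc⟩ := hset s _ _ h1
    obtain ⟨hwt, hwc, htc⟩ := hset s _ _ h2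
    by_cases e1 : v = w
    · exact Or.inl (e1 ▸ h1)
    by_cases e2 : v = t
    · exact Or.inr (e2 ▸ h1)
    obtain ⟨y, hy, hyn, h3⟩ := h.exch s _ _ h1 h2 v (by simp) (by simp [hvc, e1, e2])
    have hs : insert y (({c, u, v} : Finset α).erase v) = {c, u, y} := by
      ext z
      simp only [Finset.mem_insert, Finset.mem_erase, Finset.mem_singleton]
      grind
    rw [hs] at h3
    rw [Finset.mem_insert, Finset.mem_insert, Finset.mem_singleton] at hy
    rcases hy with rfl | rfl | rfl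
    · exact absurd (by simp) hyn
    · exact Or.inl h3
    · exact Or.inr h3
  have hYs : ∀ s, P s {c, a, b} := by
    intro s
    have := h.base s
    rwa [hY, show ({a, b, c} : Finset α) = {c, a, b} by ext; simp; tauto] at this
  obtain ⟨x, e, hx1, hx2, he1, he2, hxe, ⟨h3, h4⟩, h5⟩ := core'
    (fun u v => P false {c, u, v}) (fun u v => P true {c, u, v})
    (fun u hu => (hset _ _ _ hu).1 rfl) (fun u hu => (hset _ _ _ hu).1 rfl)
    (fun u v => hsym false u v) (fun u v => hsym true u v)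
    (fun u v w t => hex false u v w t) (fun u v w t => hex true u v w t) a b
    (by
      intro u w z hz h1 h2
      have hzY : z ∈ Y := by
        rw [hY]
        rcases hz with rfl | rfl <;> simp
      obtain ⟨n1, n2, n3⟩ := hset _ _ _ h1
      obtain ⟨m1, m2, m3⟩ := hset _ _ _ h2
      obtain ⟨e, -, heS, heT, h3, h4⟩ := h.orth _ _ h1 h2 z hzY (by simp) (by simp)
      have s1 : insert e (({c, u, z} : Finset α).erase z) = {c, u, e} := by
        ext t
        simp only [Finset.mem_insert, Finset.mem_erase, Finset.mem_singleton]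
        grind
      have s2 : insert e (({c, w, z} : Finset α).erase z) = {c, w, e} := by
        ext t
        simp only [Finset.mem_insert, Finset.mem_erase, Finset.mem_singleton]
        grind
      rw [s1] at h3
      rw [s2] at h4
      refine ⟨e, ?_, h3, h4⟩
      rintro rfl
      exact heS (by simp))
    (hYs false) (hYs true)
  have hxc := (hset _ _ _ h3).2.1
  have hec := (hset _ _ _ h3).2.2
  have hxB : x ∈ B := by
    have h6 := h.sub _ _ h3 (show x ∈ _ by simp)
    rw [hY, Finset.mem_union] at h6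
    rcases h6 with h6 | h6
    · exact h6
    · rw [Finset.mem_insert, Finset.mem_insert, Finset.mem_singleton] at h6
      tauto
  have heB : e ∈ B := by
    have h6 := h.sub _ _ h3 (show e ∈ _ by simp)
    rw [hY, Finset.mem_union] at h6
    rcases h6 with h6 | h6
    · exact h6
    · rw [Finset.mem_insert, Finset.mem_insert, Finset.mem_singleton] at h6
      tauto
  refine ⟨x, hxB, e, heB, hxe, fun s => by cases s <;> assumption, ?_⟩
  rcases h5 with h5 | h5
  · left; intro s; cases s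
    · exact h5.1
    · exact h5.2
  · right; intro s; cases s
    · exact h5.1
    · exact h5.2

end Pool.Agent.Gabow87
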