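import Pool.Agent.Gabow87.Ax3b

/-!
# Refutations from certificates
-/

set_option autoImplicit false

namespace Pool.Agent.Gabow87.K3

open Pool.Agent.Gabow87.Sat

theorem wl_length (p q p' q' z n : ℕ) : (wl p q p' q' z n).length ≤ n := by
  induction n with
  | zero => exact le_rfl
  | succ n ih =>
    change (cond (ne n p && (ne n q && (ne n p' && (ne n q' && ne n z))))
      ((true, vw (m2 p q) (m2 p' q') n) :: wl p q p' q' z n) (wl p q p' q' z n)).length ≤ n + 1
    cases (ne n p && (ne n q && (ne n p' && (ne n q' && ne n z)))) with
    | true => rw [cond_true, List.length_cons]; omega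
    | false => rw [cond_false]; omega

theorem l4_length (s : Bool) (p q j : ℕ) (l : List (Bool × VC)) :
    (l4 s p q j l).length ≤ l.length + 1 := by
  unfold l4
  cases (ne j p && ne j q) with
  | true => simp
  | false => simp

theorem expd_length (n : ℕ) (ax : Ax) : (expd n ax).length ≤ n + 6 := by
  cases ax with
  | u4 s x p q =>
    simp only [expd, List.length_cons]
    have h1 := l4_length s p q 0 (l4 s p q 1 (l4 s p q 2 []))
    have h2 := l4_length s p q 1 (l4 s p q 2 [])
    have h3 := l4_length s p q 2 []
    simp only [List.length_nil] at h3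
    omega
  | O p q p' q' z =>
    simp only [expd, List.length_cons]
    have := wl_length p q p' q' z n
    omega
  | _ => simp only [expd, List.length_cons, List.length_nil]; omega

/-- checks axiom clauses with numbers from `s` to `e` -/
noncomputable def axchk (n a b : ℕ) (closed : Bool) (vt : ℕ → VC) (G : ℕ → ℕ) (L : List Ax)
    (e : ℕ) : ℕ → Bool :=
  List.rec (fun i => Nat.beq i e)
    (fun ax _ ih i => cond (valid n a b closed ax)
      (cond (same vt (expd n ax) (G i)) (force (Nat.succ i) ih) false) false) L

/-- the clauses with numbers between `s` and `e` are satisfied -/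
def AllSat (v : ℕ → Prop) (G : ℕ → ℕ) (s e : ℕ) : Prop :=
  ∀ i, s ≤ i → i < e → SatM v (mask 64 (G i))

theorem AllSat.trans {v : ℕ → Prop} {G : ℕ → ℕ} {s m e : ℕ} (h1 : AllSat v G s m)
    (h2 : AllSat v G m e) : AllSat v G s e := fun i hi hi' => by
  rcases Nat.lt_or_ge i m with h | h
  · exact h1 i hi h
  · exact h2 i h hi'

theorem axchk_sound {α : Type*} [DecidableEq α] (c : Cx α) {n a b : ℕ} {closed : Bool}
    (hn : c.n = n) (ha : c.a = a) (hb : c.b = b) (hcl : c.closed = closed) (hn58 : n ≤ 58)
    (vt : ℕ → VC) (G : ℕ → ℕ) (L : List Ax) (e : ℕ) :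
    ∀ s, axchk n a b closed vt G L e s = true → AllSat (fun i => c.sem (vt i)) G s e := by
  induction L with
  | nil =>
    intro s h i hi hi'
    have : s = e := Nat.eq_of_beq_eq_true h
    omega
  | cons ax L ih =>
    intro s h i hi hi'
    change cond (valid n a b closed ax)
      (cond (same vt (expd n ax) (G s)) (force (Nat.succ s) (axchk n a b closed vt G L e)) false)
        false = true at h
    rw [force_eq] at h
    cases h1 : valid n a b closed ax with
    | false => rw [h1] at h; exact absurd h (by simp)
    | true =>
      rw [h1, cond_true] at h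
      cases h2 : same vt (expd n ax) (G s) with
      | false => rw [h2] at h; exact absurd h (by simp)
      | true =>
        rw [h2, cond_true] at h
        rcases Nat.lt_or_ge s i with h3 | h3
        · exact ih (s + 1) h i h3 hi'
        · have : i = s := by omega
          subst this
          have h4 := ax_sound c ax (by rw [hn, ha, hb, hcl]; exact h1)
          rw [hn] at h4
          exact same_sound vt c.sem _ _ _ (by have := expd_length n ax; omega) h2 h4

theorem chk_sound' {v : ℕ → Prop} {G H : ℕ → ℕ} {cnt s e : ℕ} (h : chk G H cnt s = true)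
    (he : s + cnt = e) (h0 : AllSat v G 0 s) : AllSat v G 0 e := fun i _ hi => by
  subst he
  exact chk_sound v G H cnt s h (fun j hj => h0 j (Nat.zero_le _) hj) i hi

theorem AllSat.false {v : ℕ → Prop} {G : ℕ → ℕ} {e : ℕ} (h : AllSat v G 0 (e + 1))
    (he : G e = 0) : False := no_sat_zero v G e he (h e (Nat.zero_le _) (Nat.lt_succ_self _))

end Pool.Agent.Gabow87.K3
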