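import Pool.Agent.Gabow87.Pair

/-!
# Good pairs for a base predicate with the symmetric exchange property
-/

set_option autoImplicit false

namespace Pool.Agent.Gabow87

variable {α : Type*} [DecidableEq α]

/-- symmetric exchange property of a family of finite sets -/
def SymExch (P : Finset α → Prop) : Prop :=
  ∀ A A' : Finset α, P A → P A' → ∀ z ∈ A', z ∉ A →
    ∃ e ∈ A, e ∉ A' ∧ P (insert z (A.erase e)) ∧ P (insert e (A'.erase z))

/-- the two exchanged sets are bases -/
def Good (P : Finset α → Prop) (B B' X Y : Finset α) : Prop :=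
  P ((B \ X) ∪ Y) ∧ P ((B' \ Y) ∪ X)

theorem Good.symm {P : Finset α → Prop} {B B' X Y : Finset α} (h : Good P B B' X Y) :
    Good P B' B Y X := ⟨h.2, h.1⟩

/-- two elements of `B'` have a serial symmetric exchange with some two elements of `B` -/
theorem pair_total {P : Finset α → Prop} (hP : SymExch P) {B B' : Finset α} (hB : P B)
    (hB' : P B') (hd : Disjoint B B') {y₁ y₂ : α} (h₁ : y₁ ∈ B') (h₂ : y₂ ∈ B') (hy : y₁ ≠ y₂) :
    ∃ x ∈ B, ∃ e ∈ B, x ≠ e ∧ Good P B B' {x, e} {y₁, y₂} ∧
      (Good P B B' {x} {y₁} ∨ Good P B B' {x} {y₂}) := by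
  have hd1 : ∀ a ∈ B, a ∉ B' := fun a h h' => Finset.disjoint_left.mp hd h h'
  have hy1 : y₁ ∉ B := fun h => hd1 _ h h₁
  have hy2 : y₂ ∉ B := fun h => hd1 _ h h₂
  set Z : Finset α := B ∪ {y₁, y₂} with hZ
  set W : Finset α := B' \ {y₁, y₂} with hW
  have hWZ : ∀ a ∈ W, a ∉ Z := by
    intro a ha h
    simp only [hW, hZ, Finset.mem_sdiff, Finset.mem_union, Finset.mem_insert,
      Finset.mem_singleton] at ha h
    rcases h with h | h
    · exact hd1 a h ha.1
    · exact ha.2 h
  have hyZ1 : y₁ ∈ Z := by simp [hZ]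
  have hyZ2 : y₂ ∈ Z := by simp [hZ]
  have hZB : Z \ {y₁, y₂} = B := by
    ext t; simp only [hZ, Finset.mem_sdiff, Finset.mem_union, Finset.mem_insert,
      Finset.mem_singleton]; grind
  have hWB : W ∪ {y₁, y₂} = B' := by
    ext t; simp only [hW, Finset.mem_sdiff, Finset.mem_union, Finset.mem_insert,
      Finset.mem_singleton]; grind
  obtain ⟨x, e, hx1, hx2, he1, he2, hxe, ⟨h3, h4⟩, h5⟩ := core
    (fun a b => a ≠ b ∧ a ∈ Z ∧ b ∈ Z ∧ P (Z \ {a, b}))
    (fun a b => a ≠ b ∧ a ∈ Z ∧ b ∈ Z ∧ P (W ∪ {a, b}))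
    (fun a h => h.1 rfl) (fun a h => h.1 rfl)
    (fun a b h => ⟨h.1.symm, h.2.2.1, h.2.1, by rw [Finset.pair_comm]; exact h.2.2.2⟩)
    (fun a b h => ⟨h.1.symm, h.2.2.1, h.2.1, by rw [Finset.pair_comm]; exact h.2.2.2⟩)
    (by
      rintro a b c d ⟨hab, ha, hb, h1⟩ ⟨hcd, hc, hd, h2⟩
      by_cases hbc : b = c
      · subst hbc; exact Or.inl ⟨hab, ha, hb, h1⟩
      by_cases hbd : b = d
      · subst hbd; exact Or.inr ⟨hab, ha, hb, h1⟩
      by_cases hac : a = c
      · subst hac; exact Or.inr ⟨hcd, hc, hd, h2⟩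
      by_cases had : a = d
      · subst had; exact Or.inl ⟨hcd.symm, hd, hc, by rw [Finset.pair_comm]; exact h2⟩
      obtain ⟨f, hf, hf', h3, -⟩ := hP _ _ h1 h2 b (by simp [hb, hbc, hbd]) (by simp)
      have hfcd : f = c ∨ f = d := by
        simp only [Finset.mem_sdiff, Finset.mem_insert, Finset.mem_singleton] at hf hf'
        tauto
      have hset : insert b ((Z \ {a, b}).erase f) = Z \ {a, f} := by
        ext t
        simp only [Finset.mem_sdiff, Finset.mem_insert, Finset.mem_singleton,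
          Finset.mem_erase]
        grind
      rw [hset] at h3
      rcases hfcd with rfl | rfl
      · exact Or.inl ⟨hac, ha, hc, h3⟩
      · exact Or.inr ⟨had, ha, hd, h3⟩)
    (by
      rintro a b c d ⟨hab, ha, hb, h1⟩ ⟨hcd, hc, hd, h2⟩
      by_cases hbc : b = c
      · subst hbc; exact Or.inl ⟨hab, ha, hb, h1⟩
      by_cases hbd : b = d
      · subst hbd; exact Or.inr ⟨hab, ha, hb, h1⟩
      by_cases hac : a = c
      · subst hac; exact Or.inr ⟨hcd, hc, hd, h2⟩
      by_cases had : a = d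
      · subst had; exact Or.inl ⟨hcd.symm, hd, hc, by rw [Finset.pair_comm]; exact h2⟩
      have hbW : b ∉ W := fun h => hWZ b h hb
      have haW : a ∉ W := fun h => hWZ a h ha
      obtain ⟨f, hf, hf', -, h3⟩ := hP _ _ h2 h1 b (by simp) (by simp [hbW, hbc, hbd])
      have hfcd : f = c ∨ f = d := by
        simp only [Finset.mem_union, Finset.mem_insert, Finset.mem_singleton] at hf hf'
        tauto
      have hset : insert f ((W ∪ {a, b}).erase b) = W ∪ {a, f} := by
        ext t
        simp only [Finset.mem_union, Finset.mem_insert, Finset.mem_singleton,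
          Finset.mem_erase]
        grind
      rw [hset] at h3
      rcases hfcd with rfl | rfl
      · exact Or.inl ⟨hac, ha, hc, h3⟩
      · exact Or.inr ⟨had, ha, hd, h3⟩)
    (by
      rintro u w z ⟨huz, hu, hz, h1⟩ ⟨hwz, hw, -, h2⟩
      obtain ⟨f, hf, hf', h3, h4⟩ := hP _ _ h1 h2 z (by simp) (by simp)
      have hzW : z ∉ W := fun h => hWZ z h hz
      simp only [Finset.mem_sdiff, Finset.mem_union, Finset.mem_insert,
        Finset.mem_singleton, not_or] at hf hf'
      have hs1 : insert z ((Z \ {u, z}).erase f) = Z \ {u, f} := by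
        ext t
        simp only [Finset.mem_sdiff, Finset.mem_insert, Finset.mem_singleton,
          Finset.mem_erase]
        grind
      have hs2 : insert f ((W ∪ {w, z}).erase z) = W ∪ {w, f} := by
        ext t
        simp only [Finset.mem_union, Finset.mem_insert, Finset.mem_singleton,
          Finset.mem_erase]
        grind
      rw [hs1] at h3
      rw [hs2] at h4
      exact ⟨f, hf.2.2, ⟨fun h => hf.2.1 h.symm, hu, hf.1, h3⟩,
        ⟨fun h => hf'.2.1 h.symm, hw, hf.1, h4⟩⟩)
    y₁ y₂ ⟨hy, hyZ1, hyZ2, by rw [hZB]; exact hB⟩ ⟨hy, hyZ1, hyZ2, by rw [hWB]; exact hB'⟩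
  have hxB : x ∈ B := by rw [← hZB]; simp [h3.2.1, hx1, hx2]
  have heB : e ∈ B := by rw [← hZB]; simp [h3.2.2.1, he1, he2]
  refine ⟨x, hxB, e, heB, hxe, ⟨?_, ?_⟩, ?_⟩
  · have : (B \ {x, e}) ∪ {y₁, y₂} = Z \ {x, e} := by
      ext t
      simp only [hZ, Finset.mem_sdiff, Finset.mem_union, Finset.mem_insert,
        Finset.mem_singleton]
      grind
    rw [this]; exact h3.2.2.2
  · exact h4.2.2.2
  · rcases h5 with ⟨h5, h6⟩ | ⟨h5, h6⟩
    · right
      have h7 : (B \ {x}) ∪ {y₂} = Z \ {x, y₁} := by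
        ext t
        simp only [hZ, Finset.mem_sdiff, Finset.mem_union, Finset.mem_insert,
          Finset.mem_singleton]
        grind
      have h8 : (B' \ {y₂}) ∪ {x} = W ∪ {x, y₁} := by
        ext t
        simp only [hW, Finset.mem_sdiff, Finset.mem_union, Finset.mem_insert,
          Finset.mem_singleton]
        grind
      exact ⟨by rw [h7]; exact h5.2.2.2, by rw [h8]; exact h6.2.2.2⟩
    · left
      have h7 : (B \ {x}) ∪ {y₁} = Z \ {x, y₂} := by
        ext t
        simp only [hZ, Finset.mem_sdiff, Finset.mem_union, Finset.mem_insert,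
          Finset.mem_singleton]
        grind
      have h8 : (B' \ {y₁}) ∪ {x} = W ∪ {x, y₂} := by
        ext t
        simp only [hW, Finset.mem_sdiff, Finset.mem_union, Finset.mem_insert,
          Finset.mem_singleton]
        grind
      exact ⟨by rw [h7]; exact h5.2.2.2, by rw [h8]; exact h6.2.2.2⟩

end Pool.Agent.Gabow87
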