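import Pool.Agent.Gabow87.PairSys
import Pool.Agent.Gabow87.K3.U030
import Pool.Agent.Gabow87.K3.U320
import Pool.Agent.Gabow87.K3.U410
import Pool.Agent.Gabow87.K3.U500
import Pool.Agent.Gabow87.K3.U313
import Pool.Agent.Gabow87.K3.U403
import Pool.Agent.Gabow87.K3.C121
import Pool.Agent.Gabow87.K3.C221
import Pool.Agent.Gabow87.K3.C222
import Pool.Agent.Gabow87.K3.C111
import Pool.Agent.Gabow87.K3.C211
import Pool.Agent.Gabow87.K3.C212
import Pool.Agent.Gabow87.K3.C311
import Pool.Agent.Gabow87.K3.C312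
import Pool.Agent.Gabow87.K3.C101
import Pool.Agent.Gabow87.K3.C201
import Pool.Agent.Gabow87.K3.C202
import Pool.Agent.Gabow87.K3.C301
import Pool.Agent.Gabow87.K3.C302
import Pool.Agent.Gabow87.K3.C303
import Pool.Agent.Gabow87.K3.C401
import Pool.Agent.Gabow87.K3.C402

/-!
# Chains of length three
-/

set_option autoImplicit false

namespace Pool.Agent.Gabow87

variable {α : Type*} [DecidableEq α]

/-- the elements of `Y` can be replaced one by one by elements of `B`, within the common bases -/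
def Chain3 (B Y : Finset α) (P : Bool → Finset α → Prop) : Prop :=
  ∃ x₁ ∈ B, ∃ x₂ ∈ B, ∃ x₃ ∈ B, x₁ ≠ x₂ ∧ x₁ ≠ x₃ ∧ x₂ ≠ x₃ ∧ ∃ y₁ y₂ y₃, Y = {y₁, y₂, y₃} ∧
    ∀ s, P s {x₁, y₂, y₃} ∧ P s {x₁, x₂, y₃} ∧ P s {x₁, x₂, x₃}

theorem Chain3.swap {B Y : Finset α} {P : Bool → Finset α → Prop}
    (h : Chain3 B Y (fun s => P (!s))) : Chain3 B Y P := by
  obtain ⟨x₁, h1, x₂, h2, x₃, h3, n12, n13, n23, y₁, y₂, y₃, hY, h⟩ := h
  refine ⟨x₁, h1, x₂, h2, x₃, h3, n12, n13, n23, y₁, y₂, y₃, hY, fun s => ?_⟩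
  have := h (!s)
  simpa only [Bool.not_not] using this

/-- the additional data of a minimal counterexample -/
def MinData (B Y : Finset α) (P : Bool → Finset α → Prop) : Prop :=
  ∀ x ∈ B, ∃ (A : Bool → Finset α) (z : α), z ∈ Y ∧ (∀ s, (A s).card = 2) ∧
      (∀ s, P s (insert x (A s))) ∧ (∀ s, P s (insert z (A s))) ∧
      ∀ t, t ≠ x → t ≠ z → ¬ P false (insert t (A false)) ∨ ¬ P true (insert t (A true))

/-- The data used by the certificates. -/
theorem mk_cx {B Y : Finset α} {P : Bool → Finset α → Prop} (h : PairSys 3 B Y P)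
    (hno : ¬ Chain3 B Y P) (hmin : MinData B Y P) {y₀ y₁ y₂ x₀ x₁ : α} (hY : Y = {y₀, y₁, y₂})
    (hx₀ : x₀ ∈ B) (hx₁ : x₁ ∈ B) (hu1 : ∀ s, P s {y₁, y₂, x₀}) (hu2 : ∀ s, P s {y₂, x₀, x₁})
    (la lb lc : List α)
    (hnd : (y₀ :: y₁ :: y₂ :: x₀ :: x₁ :: (la ++ (lb ++ lc))).Nodup)
    (hsub : ∀ t ∈ la ++ (lb ++ lc), t ∈ B)
    (hla : ∀ t ∈ la, ¬ P false {x₀, x₁, t} ∧ P true {x₀, x₁, t})
    (hlb : ∀ t ∈ lb, ∀ s, ¬ P s {x₀, x₁, t})
    (hlc : ∀ t ∈ lc, P false {x₀, x₁, t} ∧ ¬ P true {x₀, x₁, t})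
    (closed : Bool) (hcl : closed = true → ∀ t ∈ B ∪ Y,
      t ∈ (y₀ :: y₁ :: y₂ :: x₀ :: x₁ :: (la ++ (lb ++ lc)))) :
    ∃ c : K3.Cx α, c.n = 5 + la.length + lb.length + lc.length ∧ c.a = la.length ∧
      c.b = lb.length ∧ c.closed = closed := by
  classical
  set l := y₀ :: y₁ :: y₂ :: x₀ :: x₁ :: (la ++ (lb ++ lc)) with hl
  have hlen : l.length = 5 + la.length + lb.length + lc.length := by
    simp only [hl, List.length_cons, List.length_append]; omega
  set ρ : ℕ → α := fun i => l.getD i y₀ with hρ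
  have hρi : ∀ i (hi : i < l.length), ρ i = l[i] := fun i hi => List.getD_eq_getElem _ _ hi
  have hinj : ∀ i < l.length, ∀ j < l.length, ρ i = ρ j → i = j := by
    intro i hi j hj hij
    rw [hρi i hi, hρi j hj] at hij
    exact (List.Nodup.getElem_inj_iff hnd).mp hij
  have hr0 : ρ 0 = y₀ := rfl
  have hr1 : ρ 1 = y₁ := rfl
  have hr2 : ρ 2 = y₂ := rfl
  have hr3 : ρ 3 = x₀ := rfl
  have hr4 : ρ 4 = x₁ := rfl
  have hr5 : ∀ i, 5 ≤ i → ρ i = (la ++ (lb ++ lc)).getD (i - 5) y₀ := by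
    intro i hi
    obtain ⟨j, rfl⟩ := Nat.exists_eq_add_of_le hi
    rw [Nat.add_sub_cancel_left, Nat.add_comm 5 j]
    rfl
  have hmemB : ∀ i, 3 ≤ i → i < l.length → ρ i ∈ B := by
    intro i hi hil
    rcases Nat.lt_or_ge i 5 with h5 | h5
    · rcases (show i = 3 ∨ i = 4 by omega) with rfl | rfl
      · exact hx₀
      · exact hx₁
    · rw [hr5 i h5]
      apply hsub
      have hlt : i - 5 < (la ++ (lb ++ lc)).length := by
        simp only [List.length_append]; omega
      rw [List.getD_eq_getElem _ _ hlt]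
      exact List.getElem_mem _
  have hYr : ∀ z ∈ Y, ∃ j < 3, ρ j = z := by
    intro z hz
    rw [hY, Finset.mem_insert, Finset.mem_insert, Finset.mem_singleton] at hz
    rcases hz with rfl | rfl | rfl
    · exact ⟨0, by omega, rfl⟩
    · exact ⟨1, by omega, rfl⟩
    · exact ⟨2, by omega, rfl⟩
  have hrY : ∀ j < 3, ρ j ∈ Y := by
    intro j hj
    rw [hY, Finset.mem_insert, Finset.mem_insert, Finset.mem_singleton]
    rcases (show j = 0 ∨ j = 1 ∨ j = 2 by omega) with rfl | rfl | rfl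
    · exact Or.inl rfl
    · exact Or.inr (Or.inl rfl)
    · exact Or.inr (Or.inr rfl)
  -- choose the data
  have hdat : ∀ i, ∃ (A : Bool → Finset α) (j : ℕ), 3 ≤ i → i < l.length →
      j < 3 ∧ (∀ s, (A s).card = 2) ∧
      (∀ s, P s (insert (ρ i) (A s))) ∧ (∀ s, P s (insert (ρ j) (A s))) ∧
      ∀ t, t ≠ ρ i → t ≠ ρ j → ¬ P false (insert t (A false)) ∨ ¬ P true (insert t (A true)) := by
    intro i
    by_cases hi : 3 ≤ i ∧ i < l.length
    · obtain ⟨A, z, hz, h1, h2, h3, h4⟩ := hmin (ρ i) (hmemB i hi.1 hi.2)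
      obtain ⟨j, hj, rfl⟩ := hYr z hz
      exact ⟨A, j, fun _ _ => ⟨hj, h1, h2, h3, h4⟩⟩
    · exact ⟨fun _ => ∅, 0, fun h1 h2 => absurd ⟨h1, h2⟩ hi⟩
  choose A y hAy using hdat
  refine ⟨{
    n := l.length
    a := la.length
    b := lb.length
    closed := closed
    ρ := ρ
    P := P
    A := fun s i => A i s
    y := y
    inj := hinj
    card := h.card
    exch := h.exch
    n5 := by omega
    base := fun s => by rw [hr0, hr1, hr2, ← hY]; exact h.base s
    hu1 := fun s => by rw [hr1, hr2, hr3]; exact hu1 s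
    hu2 := fun s => by rw [hr2, hr3, hr4]; exact hu2 s
    noch := ?_
    tyA := ?_
    tyB := ?_
    tyC := ?_
    yl := fun x h3 hx => (hAy x h3 hx).1
    cA := fun s x h3 hx => (hAy x h3 hx).2.1 s
    hA1 := fun s x h3 hx => (hAy x h3 hx).2.2.1 s
    hA2 := fun s x h3 hx => (hAy x h3 hx).2.2.2.1 s
    cov := ?_
    orth := ?_ }, hlen, rfl, rfl, rfl⟩
  · intro p q z p3 pn q3 qn z3 zn npq npz nqz i j k hi hj hk nij nik njk hch
    apply hno
    refine ⟨ρ p, hmemB p p3 pn, ρ q, hmemB q q3 qn, ρ z, hmemB z z3 zn,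
      fun h => npq (hinj _ pn _ qn h), fun h => npz (hinj _ pn _ zn h),
      fun h => nqz (hinj _ qn _ zn h), ρ i, ρ j, ρ k, ?_, hch⟩
    have hl3 : 3 < l.length := by omega
    symm
    apply Finset.eq_of_subset_of_card_le
    · intro t ht
      rw [Finset.mem_insert, Finset.mem_insert, Finset.mem_singleton] at ht
      rcases ht with rfl | rfl | rfl
      · exact hrY i hi
      · exact hrY j hj
      · exact hrY k hk
    · rw [h.card false Y (h.base false)]
      rw [Finset.card_insert_of_notMem (by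
        rw [Finset.mem_insert, Finset.mem_singleton, not_or]
        exact ⟨fun h => nij (hinj _ (by omega) _ (by omega) h),
          fun h => nik (hinj _ (by omega) _ (by omega) h)⟩),
        Finset.card_insert_of_notMem (by
        rw [Finset.mem_singleton]
        exact fun h => njk (hinj _ (by omega) _ (by omega) h)), Finset.card_singleton]
  · intro i h5 hi
    rw [hr3, hr4]
    apply hla
    rw [hr5 i h5]
    have hlt : i - 5 < la.length := by omega
    rw [List.getD_append _ _ _ _ hlt, List.getD_eq_getElem _ _ hlt]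
    exact List.getElem_mem _
  · intro i h5 hi
    rw [hr3, hr4]
    apply hlb
    rw [hr5 i (by omega)]
    have hlt : i - 5 - la.length < lb.length := by omega
    rw [List.getD_append_right _ _ _ _ (by omega), List.getD_append _ _ _ _ hlt,
      List.getD_eq_getElem _ _ hlt]
    exact List.getElem_mem _
  · intro i h5 hi
    rw [hr3, hr4]
    apply hlc
    rw [hr5 i (by omega)]
    have hlt : i - 5 - la.length - lb.length < lc.length := by
      rw [hlen] at hi; omega
    rw [List.getD_append_right _ _ _ _ (by omega), List.getD_append_right _ _ _ _ (by omega),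
      List.getD_eq_getElem _ _ hlt]
    exact List.getElem_mem _
  · intro x z x3 xn zn hzx hzy
    exact (hAy x x3 xn).2.2.2.2 (ρ z) (fun h => hzx (hinj _ zn _ xn h)) (fun h => hzy
      (hinj _ zn _ (by have := (hAy x x3 xn).1; omega) h))
  · intro hc S T z hz hzS hzT h1 h2
    obtain ⟨e, he, heS, heT, h3, h4⟩ := h.orth _ _ h1 h2 (ρ z) (hrY z hz)
      (Finset.mem_insert_self _ _) (Finset.mem_insert_self _ _)
    rw [Finset.erase_insert hzS] at h3
    rw [Finset.erase_insert hzT] at h4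
    obtain ⟨i, hi, rfl⟩ := List.mem_iff_getElem.mp (hcl hc e he)
    refine ⟨i, hi, ?_, ?_, ?_, ?_, ?_⟩
    · rintro rfl
      rw [← hρi i hi] at heS
      exact heS (Finset.mem_insert_self _ _)
    · rw [hρi i hi]
      exact fun h => heS (Finset.mem_insert_of_mem h)
    · rw [hρi i hi]
      exact fun h => heT (Finset.mem_insert_of_mem h)
    · rw [hρi i hi]; exact h3
    · rw [hρi i hi]; exact h4

theorem perm3 (a b c : α) : ({a, b, c} : Finset α) = {c, a, b} := by ext; simp; tauto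

/-- no minimal counterexample, first half -/
theorem key3 {B Y : Finset α} {P : Bool → Finset α → Prop} (h : PairSys 3 B Y P)
    (hno : ¬ Chain3 B Y P) (hmin : MinData B Y P) {y₀ y₁ y₂ x₀ x₁ : α} (hY : Y = {y₀, y₁, y₂})
    (hx₀ : x₀ ∈ B) (hx₁ : x₁ ∈ B) (hu1 : ∀ s, P s {y₁, y₂, x₀}) (hu2 : ∀ s, P s {y₂, x₀, x₁})
    (F FA FB FC : Finset α) (hF : ∀ t, t ∈ F ↔ t ∈ B ∧ t ≠ x₀ ∧ t ≠ x₁)
    (hFA : ∀ t, t ∈ FA ↔ t ∈ F ∧ ¬ P false {x₀, x₁, t} ∧ P true {x₀, x₁, t})
    (hFB : ∀ t, t ∈ FB ↔ t ∈ F ∧ ¬ P false {x₀, x₁, t} ∧ ¬ P true {x₀, x₁, t})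
    (hFC : ∀ t, t ∈ FC ↔ t ∈ F ∧ P false {x₀, x₁, t} ∧ ¬ P true {x₀, x₁, t})
    (hge : FC.card ≤ FA.card) : False := by
  classical
  have hYd : ∀ t ∈ B, t ∉ Y := fun t ht h' => Finset.disjoint_left.mp h.disj ht h'
  have hy₀ : y₀ ∈ Y := by rw [hY]; simp
  have hy₁ : y₁ ∈ Y := by rw [hY]; simp
  have hy₂ : y₂ ∈ Y := by rw [hY]; simp
  have hYc := h.card false Y (h.base false)
  have hyn : y₀ ≠ y₁ ∧ y₀ ≠ y₂ ∧ y₁ ≠ y₂ := by
    rw [hY] at hYc
    refine ⟨?_, ?_, ?_⟩
    · rintro rfl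
      rw [Finset.insert_eq_of_mem (Finset.mem_insert_self _ _)] at hYc
      have := Finset.card_le_two (a := y₀) (b := y₂)
      omega
    · rintro rfl
      rw [Finset.insert_eq_of_mem (by simp)] at hYc
      have := Finset.card_le_two (a := y₁) (b := y₀)
      omega
    · rintro rfl
      have h2 : ({y₀, y₁, y₁} : Finset α) = {y₀, y₁} := by ext; simp
      rw [h2] at hYc
      have := Finset.card_le_two (a := y₀) (b := y₁)
      omega
  have hx01 : x₀ ≠ x₁ := by
    rintro rfl
    have h3 := h.card _ _ (hu2 false)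
    have h2 : ({y₂, x₀, x₀} : Finset α) = {y₂, x₀} := by ext; simp
    rw [h2] at h3
    have := Finset.card_le_two (a := y₂) (b := x₀)
    omega
  have nox : ∀ t ∈ B, t ≠ y₀ ∧ t ≠ y₁ ∧ t ≠ y₂ := fun t ht =>
    ⟨fun h' => hYd t ht (h' ▸ hy₀), fun h' => hYd t ht (h' ▸ hy₁), fun h' => hYd t ht (h' ▸ hy₂)⟩
  have hboth : ∀ t ∈ F, ¬ (P false {x₀, x₁, t} ∧ P true {x₀, x₁, t}) := by
    intro t ht hb
    obtain ⟨htB, ht0, ht1⟩ := (hF t).mp ht
    apply hno
    refine ⟨x₀, hx₀, x₁, hx₁, t, htB, hx01, fun h' => ht0 h'.symm, fun h' => ht1 h'.symm,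
      y₀, y₁, y₂, hY, fun s => ⟨?_, ?_, ?_⟩⟩
    · rw [← perm3]; exact hu1 s
    · rw [perm3]; exact hu2 s
    · cases s
      · exact hb.1
      · exact hb.2
  have hcov : ∀ t ∈ F, t ∈ FA ∨ t ∈ FB ∨ t ∈ FC := by
    intro t ht
    have := hboth t ht
    rw [hFA, hFB, hFC]
    tauto
  have dAB : Disjoint FA FB := by
    rw [Finset.disjoint_left]; intro t h1 h2
    exact ((hFB t).mp h2).2.2 ((hFA t).mp h1).2.2
  have dAC : Disjoint FA FC := by
    rw [Finset.disjoint_left]; intro t h1 h2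
    exact ((hFC t).mp h2).2.2 ((hFA t).mp h1).2.2
  have dBC : Disjoint FB FC := by
    rw [Finset.disjoint_left]; intro t h1 h2
    exact ((hFB t).mp h1).2.1 ((hFC t).mp h2).2.1
  -- the third part is not empty
  have hc1 : 1 ≤ FC.card := by
    rw [Nat.one_le_iff_ne_zero, Finset.card_ne_zero]
    obtain ⟨e, he, heS, heT, h3, -⟩ := h.orth {y₂, x₀, x₁} Y (hu2 false) (h.base true) y₂ hy₂
      (by simp) hy₂
    have heB : e ∈ B := by
      rw [Finset.mem_union] at he
      exact he.resolve_right heT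
    rw [Finset.mem_insert, Finset.mem_insert, Finset.mem_singleton, not_or, not_or] at heS
    have heF : e ∈ F := (hF e).mpr ⟨heB, heS.2.1, heS.2.2⟩
    have hset : insert e (({y₂, x₀, x₁} : Finset α).erase y₂) = {x₀, x₁, e} := by
      ext t
      have := nox x₀ hx₀
      have := nox x₁ hx₁
      simp only [Finset.mem_insert, Finset.mem_erase, Finset.mem_singleton]
      grind
    rw [hset] at h3
    exact ⟨e, (hFC e).mpr ⟨heF, h3, fun h4 => hboth e heF ⟨h3, h4⟩⟩⟩
  have mk : ∀ (a b c : ℕ) (closed : Bool), a ≤ FA.card → b ≤ FB.card → c ≤ FC.card →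
      (closed = true → a = FA.card ∧ b = FB.card ∧ c = FC.card) →
      ∃ x : K3.Cx α, x.n = 5 + a + b + c ∧ x.a = a ∧ x.b = b ∧ x.closed = closed := by
    intro a b c closed ha hb hc hcl
    have la : (FA.toList.take a).length = a := by
      rw [List.length_take, Finset.length_toList]; omega
    have lb : (FB.toList.take b).length = b := by
      rw [List.length_take, Finset.length_toList]; omega
    have lc : (FC.toList.take c).length = c := by
      rw [List.length_take, Finset.length_toList]; omega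
    have mA : ∀ t ∈ FA.toList.take a, t ∈ FA := fun t ht =>
      Finset.mem_toList.mp (List.mem_of_mem_take ht)
    have mB : ∀ t ∈ FB.toList.take b, t ∈ FB := fun t ht =>
      Finset.mem_toList.mp (List.mem_of_mem_take ht)
    have mC : ∀ t ∈ FC.toList.take c, t ∈ FC := fun t ht =>
      Finset.mem_toList.mp (List.mem_of_mem_take ht)
    have inF : ∀ t ∈ FA.toList.take a ++ (FB.toList.take b ++ FC.toList.take c), t ∈ F := by
      intro t ht
      rw [List.mem_append, List.mem_append] at ht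
      rcases ht with ht | ht | ht
      · exact ((hFA t).mp (mA t ht)).1
      · exact ((hFB t).mp (mB t ht)).1
      · exact ((hFC t).mp (mC t ht)).1
    have nAB : (FA.toList.take a ++ (FB.toList.take b ++ FC.toList.take c)).Nodup := by
      rw [List.nodup_append', List.nodup_append']
      refine ⟨FA.nodup_toList.sublist (List.take_sublist _ _),
        ⟨FB.nodup_toList.sublist (List.take_sublist _ _),
          FC.nodup_toList.sublist (List.take_sublist _ _), ?_⟩, ?_⟩
      · intro t h1 h2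
        exact Finset.disjoint_left.mp dBC (mB t h1) (mC t h2)
      · intro t h1 h2
        rw [List.mem_append] at h2
        rcases h2 with h2 | h2
        · exact Finset.disjoint_left.mp dAB (mA t h1) (mB t h2)
        · exact Finset.disjoint_left.mp dAC (mA t h1) (mC t h2)
    obtain ⟨x, h1, h2, h3, h4⟩ := mk_cx h hno hmin hY hx₀ hx₁ hu1 hu2 (FA.toList.take a)
      (FB.toList.take b) (FC.toList.take c) (by
        simp only [List.nodup_cons, List.mem_cons, not_or]
        have e0 := nox x₀ hx₀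
        have e1 := nox x₁ hx₁
        refine ⟨⟨hyn.1, hyn.2.1, fun h => e0.1 h.symm, fun h => e1.1 h.symm, fun ht => ?_⟩,
          ⟨hyn.2.2, fun h => e0.2.1 h.symm, fun h => e1.2.1 h.symm, fun ht => ?_⟩,
          ⟨fun h => e0.2.2 h.symm, fun h => e1.2.2 h.symm, fun ht => ?_⟩,
          ⟨hx01, fun ht => ?_⟩, fun ht => ?_, nAB⟩
        · exact hYd _ ((hF _).mp (inF _ ht)).1 hy₀
        · exact hYd _ ((hF _).mp (inF _ ht)).1 hy₁
        · exact hYd _ ((hF _).mp (inF _ ht)).1 hy₂
        · exact ((hF _).mp (inF _ ht)).2.1 rfl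
        · exact ((hF _).mp (inF _ ht)).2.2 rfl)
      (fun t ht => ((hF t).mp (inF t ht)).1)
      (fun t ht => ((hFA t).mp (mA t ht)).2)
      (fun t ht s => by
        have := ((hFB t).mp (mB t ht)).2
        cases s
        · exact this.1
        · exact this.2)
      (fun t ht => ((hFC t).mp (mC t ht)).2) closed (by
        intro hct t ht
        obtain ⟨ea, eb, ec⟩ := hcl hct
        have fa : FA.toList.take a = FA.toList :=
          List.take_of_length_le (by rw [Finset.length_toList]; omega)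
        have fb : FB.toList.take b = FB.toList :=
          List.take_of_length_le (by rw [Finset.length_toList]; omega)
        have fc : FC.toList.take c = FC.toList :=
          List.take_of_length_le (by rw [Finset.length_toList]; omega)
        rw [fa, fb, fc]
        simp only [List.mem_cons, List.mem_append, Finset.mem_toList]
        rw [Finset.mem_union, hY, Finset.mem_insert, Finset.mem_insert,
          Finset.mem_singleton] at ht
        by_cases e0 : t = x₀
        · tauto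
        by_cases e1 : t = x₁
        · tauto
        rcases ht with ht | ht
        · have := hcov t ((hF t).mpr ⟨ht, e0, e1⟩)
          tauto
        · tauto)
    exact ⟨x, by rw [h1, la, lb, lc], by rw [h2, la], by rw [h3, lb], h4⟩
  have ca : ∀ n, FA.card = n → FA.card ≤ n ∧ n ≤ FA.card := fun n hn => ⟨hn.le, hn.ge⟩
  by_cases b3 : 3 ≤ FB.card
  · obtain ⟨x, h1, h2, h3, h4⟩ := mk 0 3 0 false (by omega) b3 (by omega) (by simp)
    exact K3.U030.bad x h1 h2 h3 h4
  by_cases b2 : FB.card = 2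
  · by_cases a3 : 3 ≤ FA.card
    · obtain ⟨x, h1, h2, h3, h4⟩ := mk 3 2 0 false (by omega) (by omega) (by omega) (by simp)
      exact K3.U320.bad x h1 h2 h3 h4
    have : (FA.card = 1 ∧ FC.card = 1) ∨ (FA.card = 2 ∧ FC.card = 1) ∨
        (FA.card = 2 ∧ FC.card = 2) := by omega
    rcases this with ⟨ea, ec⟩ | ⟨ea, ec⟩ | ⟨ea, ec⟩
    · obtain ⟨x, h1, h2, h3, h4⟩ := mk 1 2 1 true (by omega) (by omega) (by omega) (by omega)
      exact K3.C121.bad x h1 h2 h3 h4
    · obtain ⟨x, h1, h2, h3, h4⟩ := mk 2 2 1 true (by omega) (by omega) (by omega) (by omega)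
      exact K3.C221.bad x h1 h2 h3 h4
    · obtain ⟨x, h1, h2, h3, h4⟩ := mk 2 2 2 true (by omega) (by omega) (by omega) (by omega)
      exact K3.C222.bad x h1 h2 h3 h4
  by_cases b1 : FB.card = 1
  · by_cases a4 : 4 ≤ FA.card
    · obtain ⟨x, h1, h2, h3, h4⟩ := mk 4 1 0 false (by omega) (by omega) (by omega) (by simp)
      exact K3.U410.bad x h1 h2 h3 h4
    have : (FA.card = 1 ∧ FC.card = 1) ∨ (FA.card = 2 ∧ FC.card = 1) ∨
        (FA.card = 2 ∧ FC.card = 2) ∨ (FA.card = 3 ∧ FC.card = 1) ∨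
        (FA.card = 3 ∧ FC.card = 2) ∨ (FA.card = 3 ∧ FC.card = 3) := by omega
    rcases this with ⟨ea, ec⟩ | ⟨ea, ec⟩ | ⟨ea, ec⟩ | ⟨ea, ec⟩ | ⟨ea, ec⟩ | ⟨ea, ec⟩
    · obtain ⟨x, h1, h2, h3, h4⟩ := mk 1 1 1 true (by omega) (by omega) (by omega) (by omega)
      exact K3.C111.bad x h1 h2 h3 h4
    · obtain ⟨x, h1, h2, h3, h4⟩ := mk 2 1 1 true (by omega) (by omega) (by omega) (by omega)
      exact K3.C211.bad x h1 h2 h3 h4
    · obtain ⟨x, h1, h2, h3, h4⟩ := mk 2 1 2 true (by omega) (by omega) (by omega) (by omega)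
      exact K3.C212.bad x h1 h2 h3 h4
    · obtain ⟨x, h1, h2, h3, h4⟩ := mk 3 1 1 true (by omega) (by omega) (by omega) (by omega)
      exact K3.C311.bad x h1 h2 h3 h4
    · obtain ⟨x, h1, h2, h3, h4⟩ := mk 3 1 2 true (by omega) (by omega) (by omega) (by omega)
      exact K3.C312.bad x h1 h2 h3 h4
    · obtain ⟨x, h1, h2, h3, h4⟩ := mk 3 1 3 false (by omega) (by omega) (by omega) (by simp)
      exact K3.U313.bad x h1 h2 h3 h4
  have b0 : FB.card = 0 := by omega
  by_cases a5 : 5 ≤ FA.card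
  · obtain ⟨x, h1, h2, h3, h4⟩ := mk 5 0 0 false (by omega) (by omega) (by omega) (by simp)
    exact K3.U500.bad x h1 h2 h3 h4
  by_cases a4 : FA.card = 4
  · by_cases c3 : 3 ≤ FC.card
    · obtain ⟨x, h1, h2, h3, h4⟩ := mk 4 0 3 false (by omega) (by omega) (by omega) (by simp)
      exact K3.U403.bad x h1 h2 h3 h4
    have : FC.card = 1 ∨ FC.card = 2 := by omega
    rcases this with ec | ec
    · obtain ⟨x, h1, h2, h3, h4⟩ := mk 4 0 1 true (by omega) (by omega) (by omega) (by omega)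
      exact K3.C401.bad x h1 h2 h3 h4
    · obtain ⟨x, h1, h2, h3, h4⟩ := mk 4 0 2 true (by omega) (by omega) (by omega) (by omega)
      exact K3.C402.bad x h1 h2 h3 h4
  have : (FA.card = 1 ∧ FC.card = 1) ∨ (FA.card = 2 ∧ FC.card = 1) ∨
      (FA.card = 2 ∧ FC.card = 2) ∨ (FA.card = 3 ∧ FC.card = 1) ∨
      (FA.card = 3 ∧ FC.card = 2) ∨ (FA.card = 3 ∧ FC.card = 3) := by omega
  rcases this with ⟨ea, ec⟩ | ⟨ea, ec⟩ | ⟨ea, ec⟩ | ⟨ea, ec⟩ | ⟨ea, ec⟩ | ⟨ea, ec⟩
  · obtain ⟨x, h1, h2, h3, h4⟩ := mk 1 0 1 true (by omega) (by omega) (by omega) (by omega)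
    exact K3.C101.bad x h1 h2 h3 h4
  · obtain ⟨x, h1, h2, h3, h4⟩ := mk 2 0 1 true (by omega) (by omega) (by omega) (by omega)
    exact K3.C201.bad x h1 h2 h3 h4
  · obtain ⟨x, h1, h2, h3, h4⟩ := mk 2 0 2 true (by omega) (by omega) (by omega) (by omega)
    exact K3.C202.bad x h1 h2 h3 h4
  · obtain ⟨x, h1, h2, h3, h4⟩ := mk 3 0 1 true (by omega) (by omega) (by omega) (by omega)
    exact K3.C301.bad x h1 h2 h3 h4
  · obtain ⟨x, h1, h2, h3, h4⟩ := mk 3 0 2 true (by omega) (by omega) (by omega) (by omega)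
    exact K3.C302.bad x h1 h2 h3 h4
  · obtain ⟨x, h1, h2, h3, h4⟩ := mk 3 0 3 true (by omega) (by omega) (by omega) (by omega)
    exact K3.C303.bad x h1 h2 h3 h4

theorem MinData.swap {B Y : Finset α} {P : Bool → Finset α → Prop} (h : MinData B Y P) :
    MinData B Y (fun s => P (!s)) := by
  intro x hx
  obtain ⟨A, z, hz, h1, h2, h3, h4⟩ := h x hx
  exact ⟨fun s => A (!s), z, hz, fun s => h1 _, fun s => h2 _, fun s => h3 _,
    fun t htx htz => (h4 t htx htz).symm⟩

/-- **Chains of length three exist.** -/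
theorem tot3 : ∀ (n : ℕ) (B Y : Finset α) (P : Bool → Finset α → Prop), B.card = n →
    PairSys 3 B Y P → Chain3 B Y P := by
  classical
  intro n
  induction n using Nat.strong_induction_on with
  | _ n ih =>
    intro B Y P hBn h
    by_contra hno
    have hmin : MinData B Y P := by
      intro x hx
      refine h.min_data (by omega) hx fun h' => hno ?_
      obtain ⟨x₁, h1, x₂, h2, x₃, h3, n12, n13, n23, y₁, y₂, y₃, hY, hc⟩ := ih (n - 1)
        (by have := Finset.card_pos.mpr ⟨x, hx⟩; omega) _ Y _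
        (by rw [Finset.card_erase_of_mem hx, hBn]) h'
      exact ⟨x₁, Finset.mem_of_mem_erase h1, x₂, Finset.mem_of_mem_erase h2, x₃,
        Finset.mem_of_mem_erase h3, n12, n13, n23, y₁, y₂, y₃, hY,
        fun s => ⟨(hc s).1.1, (hc s).2.1.1, (hc s).2.2.1⟩⟩
    obtain ⟨a, b, c, hab, hac, hbc, hY⟩ := Finset.card_eq_three.mp (h.card false Y (h.base false))
    obtain ⟨x, hx, e, he, hxe, h1, h2⟩ := chain_two h hY hab hac hbc
    obtain ⟨y₀, y₁, hY', h3⟩ : ∃ y₀ y₁, Y = {y₀, y₁, c} ∧ ∀ s, P s {y₁, c, x} := by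
      rcases h2 with h2 | h2
      · refine ⟨b, a, by rw [hY]; ext; simp; tauto, fun s => ?_⟩
        have := h2 s
        rwa [show ({a, c, x} : Finset α) = {c, x, a} by ext; simp; tauto]
      · refine ⟨a, b, hY, fun s => ?_⟩
        have := h2 s
        rwa [show ({b, c, x} : Finset α) = {c, x, b} by ext; simp; tauto]
    set F := B.filter (fun t => t ≠ x ∧ t ≠ e) with hF
    set FA := F.filter (fun t => ¬ P false {x, e, t} ∧ P true {x, e, t}) with hFA
    set FB := F.filter (fun t => ¬ P false {x, e, t} ∧ ¬ P true {x, e, t}) with hFB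
    set FC := F.filter (fun t => P false {x, e, t} ∧ ¬ P true {x, e, t}) with hFC
    rcases Nat.le_total FC.card FA.card with hle | hle
    · exact key3 h hno hmin hY' hx he h3 h1 F FA FB FC (fun t => by rw [hF, Finset.mem_filter])
        (fun t => by rw [hFA, Finset.mem_filter]) (fun t => by rw [hFB, Finset.mem_filter])
        (fun t => by rw [hFC, Finset.mem_filter]) hle
    · exact key3 h.swap (fun h' => hno h'.swap) hmin.swap hY' hx he (fun s => h3 _)
        (fun s => h1 _) F FC FB FA (fun t => by rw [hF, Finset.mem_filter])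
        (fun t => by rw [hFC, Finset.mem_filter]; simp only [Bool.not_false, Bool.not_true]; tauto)
        (fun t => by rw [hFB, Finset.mem_filter]; simp only [Bool.not_false, Bool.not_true]; tauto)
        (fun t => by rw [hFA, Finset.mem_filter]; simp only [Bool.not_false, Bool.not_true]; tauto)
        hle

end Pool.Agent.Gabow87
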